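import Pool.Agent.Lib.MP_356dfe_ag.Pert

-- part Pool.Agent.Lib.MP_356dfe_ag.Model
section

/-! Controlled finite free models of singular chains. -/

set_option autoImplicit false

open Set Pool.Agent.Shared.SingHom
open scoped Pointwise

noncomputable section

namespace Pool.Agent.Lib.MP_356dfe_ag

variable {G Y J J' : Type*} [TopologicalSpace Y]

/-- union of the pieces indexed by `S` -/
def Nb (D : G → Set Y) (S : Set G) : Set Y := ⋃ g ∈ S, D g

omit [TopologicalSpace Y] in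
theorem Nb_mono (D : G → Set Y) {S S' : Set G} (h : S ⊆ S') : Nb D S ⊆ Nb D S' :=
  biUnion_subset_biUnion_left h

/-- boundaries in the mapping cone -/
def Bd (A : Set Y) (deg : J → ℕ) (d : ((G × J) →₀ ℤ) →ₗ[ℤ] ((G × J) →₀ ℤ))
    (φ : ((G × J) →₀ ℤ) →ₗ[ℤ] Ch Y) (S : Set G) (m : ℕ) : Submodule ℤ (((G × J) →₀ ℤ) × Ch Y) :=
  ((MC deg (m + 1) S).prod (C A (m + 2))).map
    ((d.comp (LinearMap.fst ℤ _ _)).prod (φ.coprod bd))

theorem mem_sat_Bd {A : Set Y} {deg : J → ℕ} {d : ((G × J) →₀ ℤ) →ₗ[ℤ] ((G × J) →₀ ℤ)}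
    {φ : ((G × J) →₀ ℤ) →ₗ[ℤ] Ch Y} {S : Set G} {m : ℕ} {x : (G × J) →₀ ℤ} {s : Ch Y} :
    (x, s) ∈ sat (Bd A deg d φ S m) ↔ ∃ N : ℤ, N ≠ 0 ∧ ∃ y ∈ MC deg (m + 1) S, ∃ t ∈ C A (m + 2),
      d y = N • x ∧ φ y + bd t = N • s := by
  refine exists_congr fun N => and_congr_right fun _ => ⟨?_, ?_⟩
  · rintro ⟨⟨y, t⟩, ⟨hy, ht⟩, e⟩
    exact ⟨y, hy, t, ht, congrArg Prod.fst e, congrArg Prod.snd e⟩
  · rintro ⟨y, hy, t, ht, e₁, e₂⟩
    exact ⟨(y, t), ⟨hy, ht⟩, Prod.ext e₁ e₂⟩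

variable [Group G]

/-- a finite free chain complex that computes the rational homology of `V` with control -/
structure Model (D : G → Set Y) (V : Set Y) (deg : J → ℕ)
    (d : ((G × J) →₀ ℤ) →ₗ[ℤ] ((G × J) →₀ ℤ)) (φ : ((G × J) →₀ ℤ) →ₗ[ℤ] Ch Y) (T : Set G) :
    Prop where
  fin : T.Finite
  one : (1 : G) ∈ T
  pos : ∀ j, deg j ≠ 0
  d_mem : ∀ m S, ∀ x ∈ MC deg (m + 1) S, d x ∈ MC deg m (S * T)
  dd : ∀ x, d (d x) = 0
  φ_mem : ∀ m S, ∀ x ∈ MC deg m S, φ x ∈ C (V ∩ Nb D (S * T)) m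
  φ_bd : ∀ x, bd (φ x) - φ (d x) ∈ E0 Y
  cone : ∀ m S, ∀ x ∈ MC deg m S, ∀ s ∈ C (V ∩ Nb D S) (m + 1), d x = 0 → bd s - φ x ∈ E0 Y →
    ∃ N : ℤ, N ≠ 0 ∧ ∃ y ∈ MC deg (m + 1) (S * T), ∃ t ∈ C (V ∩ Nb D (S * T)) (m + 2),
      d y = N • x ∧ φ y + bd t = N • s

theorem model_empty (D : G → Set Y) : Model D ∅ (Empty.elim : Empty → ℕ) 0 0 {1} := by
  refine ⟨finite_singleton _, rfl, fun j => j.elim, fun _ _ _ _ => Submodule.zero_mem _,
    fun _ => rfl, fun _ _ _ _ => Submodule.zero_mem _, fun _ => by simp,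
    fun m S x _ s hs _ _ => ⟨1, one_ne_zero, 0, Submodule.zero_mem _, 0, Submodule.zero_mem _,
      ?_, ?_⟩⟩
  · ext q
    exact q.2.elim
  · rw [empty_inter, C_empty] at hs
    simp [(Submodule.mem_bot ℤ).1 hs]

/-- controlled deformation of compact parts of `V'` into `V` -/
def Dfm (D : G → Set Y) (V V' : Set Y) (T : Set G) : Prop :=
  ∀ K, IsCompact K → K ⊆ V' → ∃ h : ℝ × Y → Y, ContinuousOn h (Icc (0 : ℝ) 1 ×ˢ K) ∧
    (∀ z ∈ K, h (0, z) = z) ∧ (∀ t ∈ Icc (0 : ℝ) 1, ∀ z ∈ K, h (t, z) ∈ V') ∧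
    (∀ t ∈ Icc (0 : ℝ) 1, ∀ z ∈ K, z ∈ V → h (t, z) ∈ V) ∧ (∀ z ∈ K, h (1, z) ∈ V) ∧
    ∀ g, ∀ t ∈ Icc (0 : ℝ) 1, ∀ z ∈ K, z ∈ D g → h (t, z) ∈ Nb D ({g} * T)

variable {D : G → Set Y} {V V' : Set Y} {deg : J → ℕ}
  {d : ((G × J) →₀ ℤ) →ₗ[ℤ] ((G × J) →₀ ℤ)} {φ : ((G × J) →₀ ℤ) →ₗ[ℤ] Ch Y} {T T₁ : Set G}

theorem mul_sub {S T T' : Set G} (h : T ⊆ T') : S * T ⊆ S * T' := mul_subset_mul_left h

theorem Model.deform (h : Model D V deg d φ T) (hV : V ⊆ V') (hT : T₁.Finite)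
    (hd : Dfm D V V' T₁) : ∃ T', Model D V' deg d φ T' := by
  set T₂ := insert 1 T₁
  have h1 : (1 : G) ∈ T₂ := mem_insert _ _
  have h2 : (1 : G) ∈ T * T₂ := by simpa using mul_mem_mul h.one h1
  have hs : T ⊆ T * T₂ * T := subset_mul_right _ h2
  refine ⟨T * T₂ * T, (h.fin.mul (hT.insert 1)).mul h.fin, hs h.one, h.pos,
    fun m S x hx => MC_mono (mul_sub hs) (h.d_mem m S x hx), h.dd,
    fun m S x hx => C_mono (inter_subset_inter hV (Nb_mono D (mul_sub hs))) _ (h.φ_mem m S x hx),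
    h.φ_bd, fun m S x hx s hs' h0 hb => ?_⟩
  have hf := h.φ_mem m S x hx
  obtain ⟨K₁, hK₁, k₁, c₁⟩ := exists_compact hs'
  obtain ⟨K₂, hK₂, k₂, c₂⟩ := exists_compact hf
  obtain ⟨H, hc, a0, a1, a2, a3, a4⟩ := hd (K₁ ∪ K₂) (hK₁.union hK₂)
    (union_subset (k₁.trans inter_subset_left) (k₂.trans (inter_subset_left.trans hV)))
  have a5 : ∀ S', ∀ t ∈ Icc (0 : ℝ) 1, ∀ z ∈ K₁ ∪ K₂, z ∈ Nb D S' → H (t, z) ∈ Nb D (S' * T₂) := by
    intro S' t ht z hz hz'
    obtain ⟨g, hg, hz'⟩ := mem_iUnion₂.1 hz'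
    exact Nb_mono D (mul_subset_mul (singleton_subset_iff.2 hg) (subset_insert _ _))
      (a4 g t ht z hz hz')
  obtain ⟨P, g₀, g₁, e₀, e₁, hP, hm⟩ := exists_prismOn H hc
  have emb : Topology.IsEmbedding (incl (K₁ ∪ K₂)) := Topology.IsEmbedding.subtypeVal
  obtain ⟨s', hs'', rfl⟩ := exists_push_eq (incl (K₁ ∪ K₂)) emb (A := Subtype.val ⁻¹' K₁)
    (y := s) (by rw [image_incl]; exact C_mono (subset_inter subset_union_left Subset.rfl) _ c₁)
  obtain ⟨f', hf', ef⟩ := exists_push_eq (incl (K₁ ∪ K₂)) emb (A := Subtype.val ⁻¹' K₂)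
    (y := φ x) (by rw [image_incl]; exact C_mono (subset_inter subset_union_right Subset.rfl) _ c₂)
  have hk : g₀ = incl (K₁ ∪ K₂) := by
    ext z
    exact (e₀ z).trans (a0 z z.2)
  have hE : bd s' - f' ∈ E0 ↥(K₁ ∪ K₂) := by
    have := mem_C_of_push (incl (K₁ ∪ K₂)) emb (A := ∅) (m := 0) (x := bd s' - f')
      (by rw [image_empty, map_sub, ← bd_push, ef]; exact hb)
    exact this
  have hPE : P (bd s') = P f' := by
    rw [← sub_eq_zero, ← map_sub]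
    exact map_E0 (fun y hy => hm ∅ ∅ (fun _ _ _ hz => hz.elim) 0 y hy) hE
  have hS : S ⊆ S * T := subset_mul_left _ h.one
  have e1 : S * (T * T₂) = S * T * T₂ := (mul_assoc _ _ _).symm
  have m1 : push g₁ s' - P f' ∈ C (V ∩ Nb D (S * (T * T₂))) (m + 1) := by
    refine Submodule.sub_mem _ (push_mem g₁ (fun z hz => ?_) hs'') (hm _ _ (fun t ht z hz => ?_) _ _ hf')
    · rw [e₁, e1]
      exact ⟨a3 z z.2, a5 _ 1 ⟨zero_le_one, le_rfl⟩ z z.2 (Nb_mono D hS (k₁ hz).2)⟩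
    · rw [e1]
      exact ⟨a2 t ht z z.2 (k₂ hz).1, a5 _ t ht z z.2 (k₂ hz).2⟩
  have m2 : P s' ∈ C (V' ∩ Nb D (S * (T * T₂ * T))) (m + 2) := by
    refine hm _ _ (fun t ht z hz => mem_inter (a1 t ht z z.2) (Nb_mono D (mul_sub ?_)
      (a5 _ t ht z z.2 (k₁ hz).2))) _ _ hs''
    exact (subset_mul_right _ h.one).trans (subset_mul_left _ h.one)
  have e2 : push g₁ s' - P f' = push (incl (K₁ ∪ K₂)) s' + bd (P s') := by
    rw [← hPE, ← hk, eq_sub_of_add_eq (hP s')]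
    abel
  obtain ⟨N, hN, y, hy, t, ht, e3, e4⟩ := h.cone m _ x (MC_mono (subset_mul_left _ h2) hx) _ m1 h0
    (by rw [e2, map_add, bd_bd, add_zero]; exact hb)
  rw [mul_assoc] at hy ht
  refine ⟨N, hN, y, hy, t - N • P s', Submodule.sub_mem _
    (C_mono (inter_subset_inter_left _ hV) _ ht) (Submodule.smul_mem _ _ m2), e3, ?_⟩
  rw [map_sub, ← add_sub_assoc, e4, e2, map_smul, smul_add, add_sub_cancel_right]

section Sum

omit [Group G]

theorem inl_inj : Function.Injective (Prod.map id Sum.inl : G × J → G × (J ⊕ J')) :=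
  Function.injective_id.prodMap Sum.inl_injective

theorem inr_inj : Function.Injective (Prod.map id Sum.inr : G × J' → G × (J ⊕ J')) :=
  Function.injective_id.prodMap Sum.inr_injective

/-- inclusion of the old cells -/
def il : ((G × J) →₀ ℤ) →ₗ[ℤ] ((G × (J ⊕ J')) →₀ ℤ) := Finsupp.lmapDomain ℤ ℤ (Prod.map id Sum.inl)

/-- inclusion of the new cells -/
def ir : ((G × J') →₀ ℤ) →ₗ[ℤ] ((G × (J ⊕ J')) →₀ ℤ) := Finsupp.lmapDomain ℤ ℤ (Prod.map id Sum.inr)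

/-- projection to the old cells -/
def ol : ((G × (J ⊕ J')) →₀ ℤ) →ₗ[ℤ] ((G × J) →₀ ℤ) := Finsupp.lcomapDomain _ inl_inj

/-- projection to the new cells -/
def orr : ((G × (J ⊕ J')) →₀ ℤ) →ₗ[ℤ] ((G × J') →₀ ℤ) := Finsupp.lcomapDomain _ inr_inj

theorem ol_apply (x : (G × (J ⊕ J')) →₀ ℤ) (q : G × J) : ol x q = x (q.1, Sum.inl q.2) := rfl

theorem orr_apply (x : (G × (J ⊕ J')) →₀ ℤ) (q : G × J') : orr x q = x (q.1, Sum.inr q.2) := rfl

theorem il_inl (x : (G × J) →₀ ℤ) (g : G) (j : J) : il (J' := J') x (g, Sum.inl j) = x (g, j) :=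
  Finsupp.mapDomain_apply inl_inj x (g, j)

theorem il_inr (x : (G × J) →₀ ℤ) (g : G) (j : J') : il x (g, Sum.inr j) = 0 :=
  Finsupp.mapDomain_of_notMem_range _ _ (by rintro ⟨q, h⟩; cases congrArg Prod.snd h)

theorem ir_inr (x : (G × J') →₀ ℤ) (g : G) (j : J') : ir (J := J) x (g, Sum.inr j) = x (g, j) :=
  Finsupp.mapDomain_apply inr_inj x (g, j)

theorem ir_inl (x : (G × J') →₀ ℤ) (g : G) (j : J) : ir x (g, Sum.inl j) = 0 :=
  Finsupp.mapDomain_of_notMem_range _ _ (by rintro ⟨q, h⟩; cases congrArg Prod.snd h)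

theorem ol_il (x : (G × J) →₀ ℤ) : ol (il (J' := J') x) = x := by
  ext q; exact il_inl _ _ _

theorem orr_il (x : (G × J) →₀ ℤ) : orr (il (J' := J') x) = 0 := by
  ext q; exact il_inr _ _ _

theorem ol_ir (x : (G × J') →₀ ℤ) : ol (ir (J := J) x) = 0 := by
  ext q; exact ir_inl _ _ _

theorem orr_ir (x : (G × J') →₀ ℤ) : orr (ir (J := J) x) = x := by
  ext q; exact ir_inr _ _ _

theorem il_add_ir (x : (G × (J ⊕ J')) →₀ ℤ) : il (ol x) + ir (orr x) = x := by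
  ext ⟨g, j | j⟩
  · simp [il_inl, ir_inl, ol_apply]
  · simp [il_inr, ir_inr, orr_apply]

variable {deg' : J' → ℕ} {m : ℕ} {S : Set G}

theorem ol_mem {x : (G × (J ⊕ J')) →₀ ℤ} (hx : x ∈ MC (Sum.elim deg deg') m S) :
    ol x ∈ MC deg m S := mem_MC.2 fun q hq => mem_MC.1 hx (q.1, Sum.inl q.2) hq

theorem orr_mem {x : (G × (J ⊕ J')) →₀ ℤ} (hx : x ∈ MC (Sum.elim deg deg') m S) :
    orr x ∈ MC deg' m S := mem_MC.2 fun q hq => mem_MC.1 hx (q.1, Sum.inr q.2) hq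

theorem il_mem {x : (G × J) →₀ ℤ} (hx : x ∈ MC deg m S) : il x ∈ MC (Sum.elim deg deg') m S := by
  refine mem_MC.2 ?_
  rintro ⟨g, j | j⟩ hq
  · exact mem_MC.1 hx (g, j) (by rwa [il_inl] at hq)
  · exact absurd (il_inr _ _ _) hq

theorem ir_mem {x : (G × J') →₀ ℤ} (hx : x ∈ MC deg' m S) : ir x ∈ MC (Sum.elim deg deg') m S := by
  refine mem_MC.2 ?_
  rintro ⟨g, j | j⟩ hq
  · exact absurd (ir_inl _ _ _) hq
  · exact mem_MC.1 hx (g, j) (by rwa [ir_inr] at hq)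

end Sum

theorem Model.attach [Fintype J'] (h : Model D V deg d φ T) (hV : IsOpen V) {U : G → Set Y}
    (ho : ∀ g, IsOpen (U g)) (hd : Pairwise fun g g' => Disjoint (U g) (U g')) (hT : T₁.Finite)
    (h1 : (1 : G) ∈ T₁) (hU : ∀ g, U g ⊆ Nb D ({g} * T₁))
    (hU' : ∀ g S, (U g ∩ Nb D S).Nonempty → g ∈ S * T₁) {deg' : J' → ℕ}
    (hL : ∀ g, LB (U g) (U g ∩ V) deg') :
    ∃ d' φ' T', Model D (V ∪ ⋃ g, U g) (Sum.elim deg deg') d' φ' T' ∧
      (∀ x, d' (il x) = il (d x)) ∧ (∀ x, φ' (il x) = φ x) ∧ ∀ x, orr (d' x) = 0 := by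
  classical
  choose c₀ hc₀ using hL
  set W := T₁ * T
  have w1 : (1 : G) ∈ W := by simpa using mul_mem_mul h1 h.one
  have hex : ∀ q : G × J', ∃ (N : ℤ) (a : (G × J) →₀ ℤ) (t : Ch Y), N ≠ 0 ∧
      a ∈ MC deg (deg' q.2 - 1) ({q.1} * W) ∧ t ∈ C (V ∩ Nb D ({q.1} * W)) (deg' q.2) ∧ d a = 0 ∧
      bd (N • c₀ q.1 q.2 - t) - φ a ∈ E0 Y := by
    rintro ⟨g, j⟩
    have hb := (hc₀ g).bdm j
    obtain ⟨k, hk⟩ := Nat.exists_eq_succ_of_ne_zero ((hc₀ g).pos j)
    simp only [hk, Nat.succ_eq_add_one, Nat.add_sub_cancel] at hb ⊢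
    cases k with
    | zero =>
      exact ⟨1, 0, 0, one_ne_zero, Submodule.zero_mem _, Submodule.zero_mem _, map_zero _,
        by simpa using mem_E0 hb⟩
    | succ k =>
      have hb' : bd (c₀ g j) ∈ C (V ∩ Nb D ({g} * T₁)) (k + 1) :=
        C_mono (fun z hz => mem_inter hz.2 (hU g hz.1)) _ hb
      obtain ⟨N, hN, y, hy, t, ht, e₁, e₂⟩ := h.cone k ({g} * T₁) 0 (Submodule.zero_mem _)
        (bd (c₀ g j)) hb' (map_zero d) (by rw [bd_bd, map_zero, sub_zero]; exact Submodule.zero_mem _)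
      rw [mul_assoc] at hy ht
      refine ⟨N, y, t, hN, hy, ht, by simpa using e₁, ?_⟩
      rw [map_sub, map_smul, ← e₂]
      simp
  choose N a t hN ha ht hda hbd using hex
  let c : G → J' → Ch Y := fun g j => N (g, j) • c₀ g j
  have hc : ∀ g, LBc (U g) (U g ∩ V) deg' (c g) := fun g => (hc₀ g).smul fun j => hN (g, j)
  let A : ((G × J') →₀ ℤ) →ₗ[ℤ] ((G × J) →₀ ℤ) := Finsupp.linearCombination ℤ a
  let Φc : ((G × J') →₀ ℤ) →ₗ[ℤ] Ch Y := Finsupp.linearCombination ℤ fun q => c q.1 q.2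
  let Φt : ((G × J') →₀ ℤ) →ₗ[ℤ] Ch Y := Finsupp.linearCombination ℤ t
  have sA : ∀ q, A (Finsupp.single q 1) = a q := fun q => by simp [A]
  have sc : ∀ q, Φc (Finsupp.single q 1) = c q.1 q.2 := fun q => by simp [Φc]
  have st : ∀ q, Φt (Finsupp.single q 1) = t q := fun q => by simp [Φt]
  have sg : ∀ {g : G} {S : Set G}, g ∈ S → ∀ R : Set G, {g} * R ⊆ S * R := fun hg R =>
    mul_subset_mul_right (singleton_subset_iff.2 hg)
  have hT₁W : T₁ ⊆ W := subset_mul_left _ h.one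
  have hTW : T ⊆ W := subset_mul_right _ h1
  have A_mem : ∀ m S, ∀ y ∈ MC deg' (m + 1) S, A y ∈ MC deg m (S * W) := fun m S y hy =>
    map_MC A _ (fun g hg j hj => by
      rw [sA]; exact MC_mono (sg hg W) (by simpa [hj] using ha (g, j))) hy
  have t_mem : ∀ m S, ∀ y ∈ MC deg' m S, Φt y ∈ C (V ∩ Nb D (S * W)) m := fun m S y hy =>
    map_MC Φt _ (fun g hg j hj => by
      rw [st, ← hj]
      exact C_mono (inter_subset_inter_right _ (Nb_mono D (sg hg W))) _ (ht (g, j))) hy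
  have c_mem : ∀ m S, ∀ y ∈ MC deg' m S, Φc y ∈ C ((⋃ g, U g) ∩ Nb D (S * W)) m := fun m S y hy =>
    map_MC Φc _ (fun g hg j hj => by
      rw [sc, ← hj]
      exact C_mono (subset_inter (subset_iUnion U g) ((hU g).trans
        (Nb_mono D ((mul_sub hT₁W).trans (sg hg W))))) _ ((hc g).mem j)) hy
  have dA : ∀ y, d (A y) = 0 := fun y =>
    LinearMap.congr_fun (lext (φ := d.comp A) (ψ := 0) fun q => by simp [sA, hda]) y
  have bA : ∀ y, bd (Φc y - Φt y) - φ (A y) ∈ E0 Y := fun y =>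
    map_supported (bd.comp (Φc - Φt) - φ.comp A) univ _ (fun q _ => by
      simpa only [LinearMap.sub_apply, LinearMap.comp_apply, sA, sc, st] using hbd q)
      (by simp)
  let d' : ((G × (J ⊕ J')) →₀ ℤ) →ₗ[ℤ] ((G × (J ⊕ J')) →₀ ℤ) :=
    il.comp (d.comp (ol (J' := J')) + A.comp orr)
  let φ' := φ.comp (ol (J' := J')) + (Φc - Φt).comp orr
  have ed : ∀ x, d' x = il (d (ol x) + A (orr x)) := fun _ => rfl
  have eφ : ∀ x, φ' x = φ (ol x) + (Φc (orr x) - Φt (orr x)) := fun _ => rfl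
  have dil : ∀ x, d' (il x) = il (d x) := fun x => by rw [ed, ol_il, orr_il, map_zero, add_zero]
  have φil : ∀ x, φ' (il x) = φ x := fun x => by simp [eφ, ol_il, orr_il]
  have w2 : (1 : G) ∈ T₁ * W := by simpa using mul_mem_mul h1 w1
  have hWT : W ⊆ W * T₁ * W * T := by
    rw [mul_assoc W T₁ W]
    exact (subset_mul_left _ w2).trans (subset_mul_left _ h.one)
  have φ_sup : ∀ m S, ∀ x ∈ MC (Sum.elim deg deg') m S,
      φ' x ∈ C (V ∩ Nb D (S * W)) m ⊔ C ((⋃ g, U g) ∩ Nb D (S * W)) m := by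
    intro m S x hx
    rw [eφ, add_sub, sub_eq_add_neg, add_right_comm, ← sub_eq_add_neg]
    exact Submodule.add_mem_sup (Submodule.sub_mem _ (C_mono (inter_subset_inter_right _
      (Nb_mono D (mul_sub hTW))) _ (h.φ_mem m S _ (ol_mem hx))) (t_mem m S _ (orr_mem hx)))
      (c_mem m S _ (orr_mem hx))
  have φ_mem : ∀ m S, ∀ x ∈ MC (Sum.elim deg deg') m S,
      φ' x ∈ C ((V ∪ ⋃ g, U g) ∩ Nb D (S * W)) m := fun m S x hx =>
    sup_le (C_mono (inter_subset_inter_left _ subset_union_left) m)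
      (C_mono (inter_subset_inter_left _ subset_union_right) m) (φ_sup m S x hx)
  have hpos : ∀ j, Sum.elim deg deg' j ≠ 0 := by
    rintro (j | j)
    · exact h.pos j
    · exact (hc 1).pos j
  refine ⟨d', φ', W * T₁ * W * T, ⟨?_, hWT w1, hpos, fun m S x hx => ?_, fun x => ?_,
    fun m S x hx => C_mono (inter_subset_inter_right _ (Nb_mono D (mul_sub hWT))) _ (φ_mem m S x hx),
    fun x => ?_, fun m S x hx s hs h0 hb => ?_⟩, dil, φil, fun x => orr_il _⟩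
  · have := hT.mul h.fin
    exact ((this.mul hT).mul this).mul h.fin
  · exact il_mem (MC_mono (mul_sub hWT) (Submodule.add_mem _
      (MC_mono (mul_sub hTW) (h.d_mem m S _ (ol_mem hx))) (A_mem m S _ (orr_mem hx))))
  · rw [ed x, dil, map_add, h.dd, dA, add_zero, map_zero]
  · have := Submodule.add_mem _ (h.φ_bd (ol x)) (bA (orr x))
    rw [ed x, φil, eφ, map_add, map_add]
    convert this using 1
    abel
  have hGU : IsOpen (⋃ g, U g) := isOpen_iUnion ho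
  set A' := (V ∪ ⋃ g, U g) ∩ Nb D (S * W)
  have hs1 : s ∈ C A' (m + 1) :=
    C_mono (inter_subset_inter_right _ (Nb_mono D (subset_mul_left _ w1))) _ hs
  have hb1 : ∀ A'', bd s - φ' x ∈ C A'' m := fun A'' =>
    mem_C_of_E0 (Submodule.sub_mem _ (bd_mem hs1) (φ_mem m S x hx)) hb
  obtain ⟨s₁, m₁, s₂, m₂, t₀, m₀, es⟩ := split_open hV hGU inter_subset_left hs1 (by
    have := Submodule.add_mem _ (Submodule.mem_sup_left (hb1 (A' ∩ V))) (sup_le_sup
      (C_mono (A' := A' ∩ V) (fun z hz => ⟨⟨Or.inl hz.1, hz.2⟩, hz.1⟩) m)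
      (C_mono (A' := A' ∩ ⋃ g, U g) (fun z hz => ⟨⟨Or.inr hz.1, hz.2⟩, hz.1⟩) m) (φ_sup m S x hx))
    simpa using this)
  have m₁' := C_mono inter_subset_right _ m₁
  have m₂' := C_mono inter_subset_right _ m₂
  have hb2 : bd s₂ - Φc (orr x) ∈ C V m := by
    have := Submodule.sub_mem _ (Submodule.sub_mem _ (Submodule.add_mem _ (hb1 V)
      (C_mono inter_subset_left _ (h.φ_mem m S _ (ol_mem hx))))
      (C_mono inter_subset_left _ (t_mem m S _ (orr_mem hx)))) (bd_mem m₁')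
    rw [eφ, es, map_add, map_add, bd_bd] at this
    convert this using 1
    abel
  have hx0 : orr x = 0 := by
    cases m with
    | zero => rw [eq_zero_of_MC hpos hx, map_zero]
    | succ k =>
      ext ⟨g, j⟩
      have e : pc (U g) (Φc (orr x)) = ∑ j, orr x (g, j) • c g j := by
        have := map_MC ((pc (U g)).comp Φc -
          ∑ j, (Finsupp.lapply (R := ℤ) (M := ℤ) (g, j)).smulRight (c g j)) ⊥
          (fun g' _ j' hj' => ?_) (orr_mem hx)
        · simpa [sub_eq_zero] using this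
        have hm := (hc g').mem j'
        rw [hj'] at hm
        simp only [LinearMap.sub_apply, LinearMap.comp_apply, sc, LinearMap.sum_apply,
          LinearMap.smulRight_apply, Finsupp.lapply_apply, Finsupp.single_apply, Submodule.mem_bot,
          sub_eq_zero, Prod.mk.injEq]
        by_cases e : g' = g
        · subst e
          simp [pc_self hm]
        · simp [pc_zero hm (hd e), e]
      refine congrFun ((hc g).indep (k + 1) (fun j => orr x (g, j))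
        (fun j hj => (mem_MC.1 (orr_mem hx) (g, j) hj).2) (le_sat _ (mem_RB.2
          ⟨pc (U g) s₂, C_mono inter_subset_right _ (pc_mem m₂'), ?_⟩))) j
      rw [← e, bd_pc ho hd m₂', ← map_sub, ← neg_sub, map_neg, inter_comm]
      exact Submodule.neg_mem _ (pc_mem hb2)
  rw [hx0, map_zero, sub_zero] at hb2
  have ex : x = il (ol x) := by
    conv_lhs => rw [← il_add_ir x, hx0, map_zero, add_zero]
  set S₅ := S * W * T₁ * W
  have hS₅ : S * W ⊆ S₅ := (subset_mul_left _ h1).trans (subset_mul_left _ w1)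
  let R : Submodule ℤ (Ch Y) := (MC deg' (m + 1) (S * W * T₁)).map (Φc - Φt) ⊔
    RB ((V ∪ ⋃ g, U g) ∩ Nb D S₅) (V ∩ Nb D S₅) (m + 1)
  have hs₂ : s₂ ∈ sat R := by
    refine split_mem ho hd m₂' _ fun g hg => ?_
    have hne : (U g ∩ Nb D (S * W)).Nonempty := by
      by_contra hne
      exact hg (pc_zero m₂ (disjoint_left.2 fun z hz hz' => hne ⟨z, hz', hz.1.2⟩))
    have hg' := hU' g _ hne
    have hUg : U g ⊆ Nb D S₅ := (hU g).trans (Nb_mono D ((mul_sub hT₁W).trans (sg hg' W)))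
    refine sat_le (sup_le (Submodule.span_le.2 ?_) ((RB_mono (subset_inter
      ((subset_iUnion U g).trans subset_union_right) hUg) (fun z hz => mem_inter hz.2 (hUg hz.1)) _).trans
      (le_sup_right.trans (le_sat _))))
      ((hc g).span m _ (C_mono inter_subset_right _ (pc_mem m₂')) ?_)
    · rintro _ ⟨j, hj, rfl⟩
      have := Submodule.add_mem_sup (S := (MC deg' (m + 1) (S * W * T₁)).map (Φc - Φt))
        ⟨_, single_mem_MC (q := (g, j)) hg' hj 1, rfl⟩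
        (Submodule.mem_sup_right (S := B ((V ∪ ⋃ g, U g) ∩ Nb D S₅) (m + 1))
          (t_mem _ _ _ (single_mem_MC (q := (g, j)) hg' hj 1)))
      rw [LinearMap.sub_apply, sub_add_cancel, sc] at this
      exact le_sat _ this
    · cases m with
      | zero => exact E0_le _ (mem_E0 (bd_mem (pc_mem m₂')))
      | succ k =>
        rw [bd_pc ho hd m₂', inter_comm]
        exact pc_mem hb2
  have hsR : s ∈ sat R := by
    rw [es]
    refine Submodule.add_mem _ (Submodule.add_mem _ (le_sat _ (Submodule.mem_sup_right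
      (Submodule.mem_sup_right (C_mono (fun z hz => mem_inter hz.2 (Nb_mono D hS₅ hz.1.2)) _ m₁)))) hs₂)
      (le_sat _ (Submodule.mem_sup_right (Submodule.mem_sup_left ⟨t₀, C_mono
        (inter_subset_inter_right _ (Nb_mono D hS₅)) _ m₀, rfl⟩)))
  obtain ⟨N₁, hN₁, hR⟩ := hsR
  obtain ⟨_, ⟨y, hy, rfl⟩, r, hr, e₁⟩ := Submodule.mem_sup.1 hR
  obtain ⟨t₁, m₃, m₄⟩ := mem_RB.1 hr
  rw [LinearMap.sub_apply] at e₁
  have h0' : d (ol x) = 0 := by
    rw [ex, dil] at h0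
    rw [← ol_il (J' := J') (d (ol x)), h0, map_zero]
  obtain ⟨N₂, hN₂, y₀, hy₀, t₂, m₅, e₂, e₃⟩ := h.cone m S₅ (N₁ • ol x - A y)
    (Submodule.sub_mem _ (Submodule.smul_mem _ _ (MC_mono ((subset_mul_left _ w1).trans hS₅)
      (ol_mem hx))) (A_mem m _ y hy)) _ m₄ (by rw [map_sub, map_smul, h0', dA]; simp) (by
      have := Submodule.sub_mem _ (Submodule.smul_mem _ N₁ hb) (bA y)
      rw [ex, φil, smul_sub, ← map_smul, ← e₁] at this
      convert this using 1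
      simp only [map_sub, map_add, bd_bd, map_smul]
      abel)
  have eS : S₅ * T = S * (W * T₁ * W * T) := by simp only [S₅, mul_assoc]
  rw [← eS]
  refine ⟨N₂ * N₁, mul_ne_zero hN₂ hN₁, il y₀ + N₂ • ir y, Submodule.add_mem _ (il_mem hy₀)
    (Submodule.smul_mem _ _ (ir_mem (MC_mono ((subset_mul_left _ w1).trans
      (subset_mul_left _ h.one)) hy))), t₂ + N₂ • t₁, Submodule.add_mem _
    (C_mono (inter_subset_inter_left _ subset_union_left) _ m₅) (Submodule.smul_mem _ _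
      (C_mono (inter_subset_inter_right _ (Nb_mono D (subset_mul_left _ h.one))) _ m₃)), ?_, ?_⟩
  · rw [map_add, map_smul, dil, e₂, ed, ol_ir, orr_ir, map_zero, zero_add, map_smul, map_sub,
      map_smul, ← ex, ← smul_add, sub_add_cancel, mul_smul]
  · rw [map_add, map_smul, φil, eφ, ol_ir, orr_ir, map_zero, zero_add, map_add, map_smul, mul_smul,
      ← e₁, eq_sub_of_add_eq e₃]
    simp only [smul_add, smul_sub]
    abel

end Pool.Agent.Lib.MP_356dfe_ag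
end
end

-- part Pool.Agent.Lib.MP_356dfe_ag.Cover
section

/-! Controlled models on a Galois covering of a compact space. -/

set_option autoImplicit false

open Set Filter Topology Pool.Agent.Shared.SingHom
open scoped Pointwise

noncomputable section

namespace Pool.Agent.Lib.MP_356dfe_ag

variable {X Y G : Type*} [TopologicalSpace X] [TopologicalSpace Y] [Group G] [MulAction G Y]
  {p : Y → X} {D₀ : Set Y} {U V V' : Set X}

/-- a Galois covering with a compact set whose translates cover -/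
structure Ctx (p : Y → X) (G : Type*) [Group G] [MulAction G Y] (D₀ : Set Y) : Prop where
  cov : IsQuotientCoveringMap p G
  cpt : IsCompact D₀
  surj : ∀ y, ∃ g : G, y ∈ g • D₀
  fin : ∀ K, IsCompact K → {g : G | (g • D₀ ∩ K).Nonempty}.Finite

/-- `U` is the image of a relatively compact open set disjoint from its translates -/
def Small (p : Y → X) (G : Type*) [Group G] [MulAction G Y] (U : Set X) : Prop :=
  ∃ W K : Set Y, IsOpen W ∧ IsCompact K ∧ W ⊆ K ∧ p '' W = U ∧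
    ∀ g : G, (g • W ∩ W).Nonempty → g = 1

theorem t2_of_cover [T2Space X] (h : IsCoveringMap p) : T2Space Y :=
  ⟨fun a b hab => by
    by_cases e : p a = p b
    · exact h.isSeparatedMap a b e hab
    · exact separated_by_continuous h.continuous e⟩

theorem Small.mono (h : Small p G U) (hp : Continuous p) (hV : V ⊆ U) (ho : IsOpen V) :
    Small p G V := by
  obtain ⟨W, K, h1, h2, h3, rfl, h4⟩ := h
  exact ⟨W ∩ p ⁻¹' V, K, h1.inter (ho.preimage hp), h2, inter_subset_left.trans h3,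
    by rw [image_inter_preimage, inter_eq_right.2 hV],
    fun g hg => h4 g (hg.mono (inter_subset_inter (smul_set_mono inter_subset_left)
      inter_subset_left))⟩

theorem exists_small [LocallyCompactSpace X] (h : IsQuotientCoveringMap p G) (y : Y) :
    ∃ W K : Set Y, y ∈ W ∧ IsOpen W ∧ IsCompact K ∧ W ⊆ K ∧
      ∀ g : G, (g • W ∩ W).Nonempty → g = 1 := by
  obtain ⟨N, hN, h1⟩ := h.disjoint y
  obtain ⟨e, he, rfl⟩ := h.isCoveringMap.isLocalHomeomorph y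
  obtain ⟨K, hK, h2, h3⟩ := local_compact_nhds (e.open_target.mem_nhds (e.map_source he))
  have h4 := e.symm.image_mem_nhds (e.map_source he) hK
  rw [e.left_inv he] at h4
  have h5 : interior (N ∩ e.symm '' K) ⊆ N := interior_subset.trans inter_subset_left
  exact ⟨_, _, mem_interior_iff_mem_nhds.2 (inter_mem hN h4), isOpen_interior,
    h3.image_of_continuousOn (e.continuousOn_symm.mono h2), interior_subset.trans inter_subset_right,
    fun g hg => h1 g (hg.mono (inter_subset_inter (smul_set_mono h5) h5))⟩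

theorem small_nhds [LocallyCompactSpace X] (h : IsQuotientCoveringMap p G) (x : X) :
    ∃ N ∈ 𝓝 x, ∀ U ⊆ N, IsOpen U → Small p G U := by
  obtain ⟨y, rfl⟩ := h.surjective x
  obtain ⟨W, K, h1, h2, h3, h4, h5⟩ := exists_small h y
  exact ⟨p '' W, h.isOpenQuotientMap.isOpenMap.image_mem_nhds (h2.mem_nhds h1),
    fun U hU ho => Small.mono ⟨W, K, h2, h3, h4, rfl, h5⟩ h.continuous hU ho⟩

theorem exists_ctx [CompactSpace X] [T2Space X] (h : IsQuotientCoveringMap p G) :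
    ∃ D₀, Ctx p G D₀ := by
  have := h.toContinuousConstSMul
  obtain ⟨D₀, h1, h2⟩ : ∃ D₀, IsCompact D₀ ∧ univ ⊆ p '' D₀ := by
    refine isCompact_univ.induction_on (p := fun S => ∃ D₀, IsCompact D₀ ∧ S ⊆ p '' D₀)
      ⟨∅, isCompact_empty, empty_subset _⟩ (fun _ _ hst ⟨D, h1, h2⟩ => ⟨D, h1, hst.trans h2⟩)
      (fun _ _ ⟨D, h1, h2⟩ ⟨D', h1', h2'⟩ => ⟨D ∪ D', h1.union h1', by
        rw [image_union]; exact union_subset_union h2 h2'⟩) fun x _ => ?_
    obtain ⟨y, rfl⟩ := h.surjective x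
    obtain ⟨W, K, h1, h2, h3, h4, -⟩ := exists_small h y
    exact ⟨p '' K, mem_nhdsWithin_of_mem_nhds (h.isOpenQuotientMap.isOpenMap.image_mem_nhds
      (mem_of_superset (h2.mem_nhds h1) h4)), K, h3, Subset.rfl⟩
  refine ⟨D₀, h, h1, fun y => ?_, fun K hK => ?_⟩
  · obtain ⟨z, hz, e⟩ := h2 (mem_univ (p y))
    obtain ⟨g, rfl⟩ := h.apply_eq_iff_mem_orbit.1 e.symm
    exact ⟨g, smul_mem_smul_set hz⟩
  refine Finite.subset ((h1.prod hK).induction_on
    (p := fun S => {g : G | ∃ q ∈ S, g • q.1 = q.2}.Finite) (by simp)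
    (fun _ _ hst h => h.subset fun g ⟨q, hq, e⟩ => ⟨q, hst hq, e⟩)
    (fun _ _ h h' => (h.union h').subset fun g ⟨q, hq, e⟩ => hq.imp (⟨q, ·, e⟩) (⟨q, ·, e⟩))
    fun ⟨a, b⟩ _ => ?_) fun g ⟨_, ⟨z, hz, rfl⟩, hz'⟩ => ⟨(z, g • z), ⟨hz, hz'⟩, rfl⟩
  by_cases e : p b = p a
  · obtain ⟨g₀, rfl⟩ := h.apply_eq_iff_mem_orbit.1 e
    obtain ⟨N, hN, h3⟩ := h.disjoint a
    refine ⟨N ×ˢ (g₀ • N), mem_nhdsWithin_of_mem_nhds (prod_mem_nhds hN (smul_mem_nhds_smul g₀ hN)),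
      (finite_singleton g₀).subset fun g ⟨q, hq, e⟩ => ?_⟩
    exact (inv_mul_eq_one.1 (h3 (g₀⁻¹ * g) ⟨_, ⟨q.1, hq.1, rfl⟩, by
      beta_reduce
      rw [mul_smul, e]; exact mem_smul_set_iff_inv_smul_mem.1 hq.2⟩)).symm
  · refine ⟨{q | p q.2 ≠ p q.1}, mem_nhdsWithin_of_mem_nhds ((isOpen_ne_fun
      (h.continuous.comp continuous_snd) (h.continuous.comp continuous_fst)).mem_nhds e),
      finite_empty.subset fun g ⟨q, hq, e⟩ => hq ?_⟩
    rw [← e, h.map_smul]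

theorem Ctx.ctrl (h : Ctx p G D₀) {K : Set Y} (hK : IsCompact K) : ∃ T : Set G, T.Finite ∧ 1 ∈ T ∧
    (∀ g : G, g • K ⊆ Nb (fun g : G => g • D₀) ({g} * T)) ∧
    ∀ (g : G) S, (g • K ∩ Nb (fun g : G => g • D₀) S).Nonempty → g ∈ S * T := by
  have hF := h.fin K hK
  refine ⟨insert 1 (_ ∪ _⁻¹), (hF.union hF.inv).insert 1, mem_insert _ _, ?_, ?_⟩
  · rintro g _ ⟨y, hy, rfl⟩
    obtain ⟨t, ht⟩ := h.surj y
    exact mem_biUnion (mul_mem_mul (mem_singleton g) (Or.inr (Or.inl ⟨y, ht, hy⟩)))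
      (by rw [mul_smul]; exact smul_mem_smul_set ht)
  · rintro g S ⟨_, ⟨y, hy, rfl⟩, hs⟩
    obtain ⟨s, hs, hs'⟩ := mem_iUnion₂.1 hs
    refine ⟨s, hs, s⁻¹ * g, Or.inr (Or.inr ⟨y, ?_, hy⟩), by simp⟩
    rw [mul_inv_rev, inv_inv, mul_smul]
    exact mem_inv_smul_set_iff.2 hs'

theorem Ctx.sheets (h : Ctx p G D₀) (hU : Small p G U) : ∃ (W : G → Set Y) (T : Set G),
    T.Finite ∧ 1 ∈ T ∧ (∀ g, IsOpen (W g)) ∧ (Pairwise fun g g' => Disjoint (W g) (W g')) ∧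
    ⋃ g, W g = p ⁻¹' U ∧ (∀ g, W g ⊆ Nb (fun g : G => g • D₀) ({g} * T)) ∧
    (∀ g S, (W g ∩ Nb (fun g : G => g • D₀) S).Nonempty → g ∈ S * T) ∧
    ∀ g, ∃ j : C(W g, X), IsEmbedding j ∧ ∀ A ⊆ U, ∃ S, j '' S = A ∧
      incl (W g) '' S = W g ∩ p ⁻¹' A := by
  have := h.cov.toContinuousConstSMul
  obtain ⟨W, K, h1, h2, h3, rfl, h4⟩ := hU
  obtain ⟨T, t1, t2, t3, t4⟩ := h.ctrl h2
  have hd : ∀ g g' : G, ∀ y ∈ g • W, y ∈ g' • W → g = g' := by
    rintro g g' _ ⟨y, hy, rfl⟩ hy'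
    exact (inv_mul_eq_one.1 (h4 (g'⁻¹ * g) ⟨_, smul_mem_smul_set hy, by
      rw [mul_smul]; exact mem_smul_set_iff_inv_smul_mem.1 hy'⟩)).symm
  refine ⟨fun g => g • W, T, t1, t2, fun g => h1.smul g,
    fun g g' hg => disjoint_left.2 fun y hy hy' => hg (hd g g' y hy hy'), ?_,
    fun g => (smul_set_mono h3).trans (t3 g),
    fun g S hg => t4 g S (hg.mono (inter_subset_inter_left _ (smul_set_mono h3))), fun g => ?_⟩
  · ext y
    simp only [mem_iUnion, mem_preimage]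
    constructor
    · rintro ⟨g, z, hz, rfl⟩
      exact ⟨z, hz, (h.cov.map_smul g).symm⟩
    · rintro ⟨z, hz, e⟩
      obtain ⟨g, rfl⟩ := h.cov.apply_eq_iff_mem_orbit.1 e.symm
      exact ⟨g, z, hz, rfl⟩
  refine ⟨⟨fun y => p y, h.cov.continuous.comp continuous_subtype_val⟩,
    (IsOpenEmbedding.of_continuous_injective_isOpenMap
      (h.cov.continuous.comp continuous_subtype_val) (fun a b e => ?_)
      (h.cov.isOpenQuotientMap.isOpenMap.comp (h1.smul g).isOpenMap_subtype_val)).isEmbedding,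
    fun A hA => ⟨Subtype.val ⁻¹' (p ⁻¹' A), ?_, image_incl _ _⟩⟩
  · obtain ⟨t, ht⟩ := h.cov.apply_eq_iff_mem_orbit.1 e
    have := hd (t * g) g a (by rw [← ht, mul_smul]; exact smul_mem_smul_set b.2) a.2
    rw [mul_eq_right.1 this] at ht
    exact Subtype.ext ((one_smul G b.1).symm.trans ht).symm
  · refine (image_subset_iff.2 fun y hy => hy).antisymm fun x hx => ?_
    obtain ⟨y, hy, rfl⟩ := hA hx
    exact ⟨⟨g • y, smul_mem_smul_set hy⟩, show p (g • y) ∈ A by rwa [h.cov.map_smul], h.cov.map_smul g⟩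

theorem lift_homotopy (h : IsQuotientCoveringMap p G) (H : C(ℝ × X, X)) (H0 : ∀ x, H (0, x) = x) :
    ∃ H' : C(ℝ × Y, Y), (∀ y, H' (0, y) = y) ∧
      (∀ t ∈ Icc (0 : ℝ) 1, ∀ y, p (H' (t, y)) = H (t, p y)) ∧
      (∀ (g : G) t y, H' (t, g • y) = g • H' (t, y)) ∧
      ∀ y, (∀ t, H (t, p y) = p y) → ∀ t, H' (t, y) = y := by
  have := h.toContinuousConstSMul
  have hp := h.continuous
  let H₁ : C(unitInterval × Y, X) := H.comp ⟨fun q => (q.1, p q.2), by fun_prop⟩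
  have h0 : ∀ y, H₁ (0, y) = p (ContinuousMap.id Y y) := fun y => H0 _
  let L := h.isCoveringMap.liftHomotopy H₁ _ h0
  have l1 : ∀ q, p (L q) = H (q.1, p q.2) := congrFun (h.isCoveringMap.liftHomotopy_lifts H₁ _ h0)
  have l0 : ∀ y, L (0, y) = y := h.isCoveringMap.liftHomotopy_zero H₁ _ h0
  refine ⟨L.comp ⟨fun q => (projIcc 0 1 zero_le_one q.1, q.2),
    (continuous_projIcc.comp continuous_fst).prodMk continuous_snd⟩, fun y => by simpa using l0 y,
    fun t ht y => (l1 _).trans (by simp [projIcc_of_mem _ ht]), fun g t y => ?_, fun y hy t => ?_⟩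
  · exact congrFun (h.isCoveringMap.eq_of_comp_eq (g₁ := fun s => L (s, g • y))
      (g₂ := fun s => g • L (s, y)) (by fun_prop) (by fun_prop)
      (funext fun s => by simp [l1, h.map_smul]) 0 (by rw [l0, l0])) _
  · exact (h.isCoveringMap.const_of_comp (g := fun s => L (s, y)) (by fun_prop)
      (fun s s' => by simp [l1, hy]) _ 0).trans (l0 y)

variable {J J' : Type*} {deg : J → ℕ} {d : ((G × J) →₀ ℤ) →ₗ[ℤ] ((G × J) →₀ ℤ)}
  {φ : ((G × J) →₀ ℤ) →ₗ[ℤ] Ch Y} {T : Set G}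

theorem Ctx.attach [Fintype J'] (h : Ctx p G D₀)
    (hm : Model (fun g : G => g • D₀) (p ⁻¹' V) deg d φ T) (hV : IsOpen V) (hU : Small p G U)
    {deg' : J' → ℕ} (hL : LB U (U ∩ V) deg') :
    ∃ d' φ' T', Model (fun g : G => g • D₀) (p ⁻¹' (V ∪ U)) (Sum.elim deg deg') d' φ' T' ∧
      (∀ x, d' (il x) = il (d x)) ∧ (∀ x, φ' (il x) = φ x) ∧ ∀ x, orr (d' x) = 0 := by
  obtain ⟨W, T₁, h1, h2, h3, h4, h5, h6, h7, h8⟩ := h.sheets hU
  rw [preimage_union, ← h5]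
  refine hm.attach (hV.preimage h.cov.continuous) h3 h4 h1 h2 h6 h7 fun g => ?_
  obtain ⟨j, hj, h9⟩ := h8 g
  obtain ⟨S, a1, a2⟩ := h9 U Subset.rfl
  obtain ⟨S', b1, b2⟩ := h9 (U ∩ V) inter_subset_left
  have e : W g ∩ p ⁻¹' U = W g := inter_eq_left.2 (h5 ▸ subset_iUnion W g)
  rw [preimage_inter, ← inter_assoc, e] at b2
  rw [← b1, ← a1, lb_image_iff j hj, ← lb_image_iff (incl (W g)) IsEmbedding.subtypeVal, a2, e,
    b2] at hL
  exact hL

theorem Ctx.gd (h : Ctx p G D₀) (hm : Model (fun g : G => g • D₀) (p ⁻¹' V) deg d φ T)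
    (hV : V ⊆ V') (hd : GD V V') :
    ∃ T', Model (fun g : G => g • D₀) (p ⁻¹' V') deg d φ T' := by
  obtain ⟨H, h0, h1, h2, h3⟩ := hd
  obtain ⟨H', a0, a1, a2, -⟩ := lift_homotopy h.cov H h0
  obtain ⟨T₁, t1, -, t3, -⟩ := h.ctrl (((isCompact_Icc (a := (0 : ℝ)) (b := 1)).prod h.cpt).image
    H'.continuous)
  refine hm.deform (preimage_mono hV) t1 fun K _ hK => ⟨H', H'.continuous.continuousOn,
    fun z _ => a0 z, fun t ht z hz => ?_, fun t ht z _ hz => ?_, fun z hz => ?_, ?_⟩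
  · rw [mem_preimage, a1 t ht]
    exact h1 t _ (hK hz)
  · rw [mem_preimage, a1 t ht]
    exact h2 t _ hz
  · rw [mem_preimage, a1 1 (by simp)]
    exact h3 _ (hK hz)
  · rintro g t ht _ _ ⟨y, hy, rfl⟩
    rw [a2]
    exact t3 g (smul_mem_smul_set ⟨(t, y), ⟨ht, hy⟩, rfl⟩)

/-- homotopies supported in `U` deform compact parts of `V'` into `V` -/
def LDf (U V V' : Set X) : Prop :=
  ∀ K, IsCompact K → K ⊆ V' → ∃ H : C(ℝ × X, X), (∀ y, H (0, y) = y) ∧
    (∀ t y, y ∉ U → H (t, y) = y) ∧ (∀ t, ∀ y ∈ U, H (t, y) ∈ U) ∧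
    (∀ t, ∀ y ∈ V', H (t, y) ∈ V') ∧ (∀ t, ∀ y ∈ V, H (t, y) ∈ V) ∧ ∀ y ∈ K, H (1, y) ∈ V

theorem LDf.ac (h : LDf U V V') (hV : V ⊆ V') : Ac V' V :=
  ac_of_deform hV fun K hK hK' =>
    let ⟨H, h0, _, _, h1, h2, h3⟩ := h K hK hK'
    ⟨H, H.continuous.continuousOn, fun z _ => h0 z, fun t _ z hz => h1 t z (hK' hz),
      fun t _ z _ hz => h2 t z hz, h3⟩

theorem Ctx.ld (h : Ctx p G D₀) (hm : Model (fun g : G => g • D₀) (p ⁻¹' V) deg d φ T)
    (hV : V ⊆ V') (hU : Small p G U) (hd : LDf U V V') :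
    ∃ T', Model (fun g : G => g • D₀) (p ⁻¹' V') deg d φ T' := by
  obtain ⟨W, T₁, h1, h2, h3, h4, h5, h6, h7, -⟩ := h.sheets hU
  refine hm.deform (preimage_mono hV) (h1.mul h1) fun K hK hK' => ?_
  obtain ⟨H, b0, b1, b2, b3, b4, b5⟩ := hd _ (hK.image h.cov.continuous) (image_subset_iff.2 hK')
  obtain ⟨H', a0, a1, -, a3⟩ := lift_homotopy h.cov H b0
  refine ⟨H', H'.continuous.continuousOn, fun z _ => a0 z, fun t ht z hz => ?_,
    fun t ht z _ hz => ?_, fun z hz => ?_, fun g t ht z _ hz => ?_⟩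
  · rw [mem_preimage, a1 t ht]
    exact b3 t _ (hK' hz)
  · rw [mem_preimage, a1 t ht]
    exact b4 t _ hz
  · rw [mem_preimage, a1 1 (by simp)]
    exact b5 _ (mem_image_of_mem _ hz)
  by_cases hU : p z ∈ U
  · obtain ⟨g', hg'⟩ := mem_iUnion.1 (show z ∈ ⋃ g, W g from h5 ▸ hU)
    have c1 := h7 g' {g} ⟨z, hg', mem_biUnion (mem_singleton g) hz⟩
    have c2 := preconnected_subset h3 h4 (isPreconnected_Icc.image (fun s => H' (s, z))
      (by fun_prop)) (by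
        rintro _ ⟨s, hs, rfl⟩
        rw [h5, mem_preimage, a1 s hs]
        exact b2 s _ hU) ⟨z, ⟨0, by simp, a0 z⟩, hg'⟩
    rw [← mul_assoc]
    exact Nb_mono _ (mul_subset_mul_right (singleton_subset_iff.2 c1)) (h6 g' (c2 ⟨t, ht, rfl⟩))
  · rw [a3 z (fun t => b1 t _ hU)]
    exact mem_biUnion (by simpa using mul_mem_mul (mem_singleton g) (mul_mem_mul h2 h2)) hz

theorem cnt_sum [Fintype J] [Fintype J'] (deg : J → ℕ) (deg' : J' → ℕ) (m : ℕ) :
    cnt (Sum.elim deg deg') m = cnt deg m + cnt deg' m := by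
  simp only [cnt, Finset.card_filter, Fintype.sum_sum_type]
  rfl

theorem Ctx.filt (h : Ctx p G D₀) {𝒢 : Set (Set X)} (hG : ∀ U ∈ 𝒢, Small p G U) {l : List ℕ}
    (hF : Filt 𝒢 ∅ l V) : ∃ (J : Type) (_ : Fintype J) (deg : J → ℕ)
      (d : ((G × J) →₀ ℤ) →ₗ[ℤ] ((G × J) →₀ ℤ)) (φ : ((G × J) →₀ ℤ) →ₗ[ℤ] Ch Y) (T : Set G),
      Model (fun g : G => g • D₀) (p ⁻¹' V) deg d φ T ∧ ∀ m, cnt deg m = l.count m := by
  induction hF with
  | refl => exact ⟨Empty, inferInstance, _, _, _, _, model_empty _, fun m => by simp [cnt]⟩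
  | deform _ h1 _ h2 ih =>
    obtain ⟨J, _, deg, d, φ, T, h3, h4⟩ := ih
    obtain ⟨T', h5⟩ := h.gd h3 h1 h2
    exact ⟨J, _, deg, d, φ, T', h5, h4⟩
  | attach h0 _ h1 h2 ih =>
    obtain ⟨J, _, deg, d, φ, T, h3, h4⟩ := ih
    obtain ⟨d', φ', T', h5, -⟩ := h.attach h3 (h0.isOpen isOpen_empty) (hG _ h1) h2
    refine ⟨_, inferInstance, _, d', φ', T', h5, fun m => ?_⟩
    rw [cnt_sum, h4, List.count_cons]
    simp only [cnt, Finset.card_filter, Finset.univ_unique, Finset.sum_singleton, beq_iff_eq]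

/-- the trivial group -/
abbrev Triv (X : Type*) := (⊥ : Subgroup (Equiv.Perm X))

omit [TopologicalSpace X] in
theorem triv_smul (g : Triv X) (x : X) : g • x = x := by
  rw [Subsingleton.elim g 1, one_smul]

theorem ctx_triv [CompactSpace X] : Ctx (id : X → X) (Triv X) univ := by
  refine ⟨{ toIsQuotientMap := IsQuotientMap.id
            continuous_const_smul := fun g => by simpa only [triv_smul] using continuous_id'
            apply_eq_iff_mem_orbit := ⟨fun e => ⟨1, (triv_smul _ _).trans e.symm⟩,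
              fun ⟨g, e⟩ => e.symm.trans (triv_smul _ _)⟩
            disjoint := fun e => ⟨univ, univ_mem, fun g _ => Subsingleton.elim _ _⟩ },
    isCompact_univ, fun y => ⟨1, by simp⟩, fun _ _ => toFinite _⟩

theorem small_triv [CompactSpace X] (hU : IsOpen U) : Small (id : X → X) (Triv X) U :=
  ⟨U, univ, hU, isCompact_univ, subset_univ _, image_id _, fun _ _ => Subsingleton.elim _ _⟩

end Pool.Agent.Lib.MP_356dfe_ag
end
end

-- part Pool.Agent.Lib.MP_356dfe_ag.Cone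
section

/-! Conical neighbourhoods are acyclic, and pairs of finite type have rational bases. -/

set_option autoImplicit false

open Set Filter Topology Pool.Agent.Shared.SingHom
open scoped Pointwise

noncomputable section

namespace Pool.Agent.Lib.MP_356dfe_ag

section Cone

variable {M : Type*} [TopologicalSpace M]

/-- successive application of homotopies -/
def seqH (H : ℕ → C(ℝ × M, M)) : ℕ → C(ℝ × M, M)
  | 0 => ContinuousMap.snd
  | k + 1 => (H k).comp ⟨fun q => (max 0 (min (q.1 - k) 1), seqH H k q), by fun_prop⟩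

theorem seqH_succ (H : ℕ → C(ℝ × M, M)) (k : ℕ) (u : ℝ) (x : M) :
    seqH H (k + 1) (u, x) = H k (max 0 (min (u - k) 1), seqH H k (u, x)) := rfl

theorem acyc_cone [T2Space M] {Ω : Set M} (hΩ : IsOpen Ω) {ρ : M → ℝ} (hρ : ContinuousOn ρ Ω)
    {s : M} (hs : s ∈ Ω) (h0 : ρ s = 0) (h1 : ∀ x ∈ Ω, x ≠ s → 0 < ρ x ∧ Reg ρ x) {ε : ℝ}
    (h2 : ∀ x ∈ Ω, ρ x < ε) (h3 : ∀ b < ε, IsCompact (Ω ∩ ρ ⁻¹' Iic b)) : Acyc Ω := by
  classical
  have hsub := singleton_subset_iff.2 hs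
  refine (Ac.acyc_iff (ac_of_deform hsub fun K hK hKΩ => ?_) hsub).2 (acyc_singleton s)
  obtain ⟨b₀, hb₀, hb₁⟩ := exists_bound_lt hK (hρ.mono hKΩ) fun x hx => h2 x (hKΩ hx)
  have hε : 0 < ε := h0 ▸ h2 s hs
  set b := max b₀ (ε / 2)
  have hb : 0 < b := lt_max_of_lt_right (half_pos hε)
  have hc := h3 b (max_lt hb₀ (half_lt_self hε))
  let c : ℕ → ℝ := fun k => b / (k + 1)
  have c0 : ∀ k, 0 < c k := fun k => by positivity
  have c1 : ∀ k, c k ≤ b := fun k => div_le_self hb.le (by simp)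
  have hex : ∀ k, ∃ H, Move Ω ρ ∅ H ∧ ∀ x ∈ Ω, ρ x ≤ c k → ρ (H (1, x)) < c (k + 1) := fun k => by
    obtain ⟨H, m1, m2⟩ := exists_move hΩ hρ (compact_band hc (hρ.mono inter_subset_left)
      (c (k + 1)) (c k)) (fun x hx => hx.1.1) (B := ∅) (fun x hx => (h1 x hx.1.1 fun e => by
        linarith [c0 (k + 1), show c (k + 1) ≤ ρ s from e ▸ hx.2.1]).2.dir (Or.inr (by simp)))
      (Or.inl rfl) (Or.inl rfl) fun x hx _ a1 a2 _ => ⟨⟨hx, a2.trans (c1 k)⟩, a1, a2⟩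
    exact ⟨H, m1, fun x hx h => (m2 x hx trivial h).resolve_right id⟩
  choose H m1 m2 using hex
  have g1 : ∀ k u, ∀ x ∈ Ω, seqH H k (u, x) ∈ Ω ∧ ρ (seqH H k (u, x)) ≤ ρ x := by
    intro k u x hx
    induction k with
    | zero => exact ⟨hx, le_rfl⟩
    | succ k ih => exact ⟨(m1 k).mem _ _ ih.1, ((m1 k).le _ _ ih.1).trans ih.2⟩
  have g2 : ∀ (u : ℝ) x (k m : ℕ), u ≤ k → k ≤ m → seqH H m (u, x) = seqH H k (u, x) := by
    intro u x k m hu hm
    induction hm with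
    | refl => rfl
    | @step m hm ih =>
      have : (k : ℝ) ≤ m := by exact_mod_cast hm
      rw [seqH_succ, max_eq_left (min_le_of_left_le (by linarith)), (m1 m).zero, ih]
  have g3 : ∀ (u : ℝ), ∀ x ∈ K, ∀ k : ℕ, k ≤ u → ∀ m, k ≤ m → ρ (seqH H m (u, x)) ≤ c k := by
    intro u x hx k hu m hm
    refine le_trans (b := ρ (seqH H k (u, x))) ?_ ?_
    · induction hm with
      | refl => rfl
      | @step m _ ih => exact ((m1 m).le _ _ (g1 m u x (hKΩ hx)).1).trans ih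
    · clear hm
      induction k with
      | zero => exact ((hb₁ x hx).trans (le_max_left _ (ε / 2))).trans (by simp [c, b])
      | succ k ih =>
        push_cast at hu
        rw [seqH_succ, min_eq_right (by linarith), max_eq_right zero_le_one]
        exact (m2 k _ (g1 k u x (hKΩ hx)).1 (ih (by linarith))).le
  let h : ℝ × M → M := fun q =>
    if q.1 < 1 then seqH H ⌈q.1 / (1 - q.1)⌉₊ (q.1 / (1 - q.1), q.2) else s
  have a1 : ∀ t, ∀ z ∈ K, h (t, z) ∈ Ω := fun t z hz => by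
    simp only [h]
    split_ifs
    · exact (g1 _ _ z (hKΩ hz)).1
    · exact hs
  refine ⟨h, ?_, fun z _ => by simp [h, seqH], fun t _ => a1 t, fun t _ z hz hz' => ?_,
    fun z _ => by simp [h]⟩
  · rintro ⟨t, z⟩ ⟨ht, hz⟩
    rcases ht.2.lt_or_eq with ht1 | ht1
    · have b1 : ContinuousAt (fun q : ℝ × M => q.1 / (1 - q.1)) (t, z) :=
        continuousAt_fst.div (by fun_prop) (sub_pos.2 ht1).ne'
      obtain ⟨m, hm⟩ := exists_nat_gt (t / (1 - t))
      refine (((seqH H m).continuous.continuousAt.comp (b1.prodMk continuousAt_snd)).congr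
        ?_).continuousWithinAt
      filter_upwards [b1.eventually_lt_const hm, continuousAt_fst.eventually_lt_const ht1]
        with q b2 b3
      simp only [h, if_pos b3, Function.comp_apply]
      exact g2 _ _ _ _ (Nat.le_ceil _) (Nat.ceil_le.2 b2.le)
    · obtain rfl : t = 1 := ht1
      refine (tendsto_nhds.2 fun N hN hsN => ?_ : Tendsto h _ (𝓝 (h (1, z))))
      have hsN : s ∈ N := by simpa [h] using hsN
      obtain ⟨δ, hδ, b1⟩ := (hc.diff hN).exists_forall_le' (hρ.mono fun x hx => hx.1.1)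
        fun x hx => (h1 x hx.1.1 fun e => hx.2 (e ▸ hsN)).1
      obtain ⟨k, hk⟩ := exists_nat_gt (b / δ)
      have b2 : c k < δ := by
        rw [div_lt_iff₀ hδ] at hk
        rw [div_lt_iff₀ (by positivity)]
        nlinarith
      have b3 : (k : ℝ) / (k + 1) < 1 := (div_lt_one (by positivity)).2 (lt_add_one _)
      filter_upwards [self_mem_nhdsWithin, mem_nhdsWithin_of_mem_nhds
        ((continuousAt_fst (p := ((1 : ℝ), z))).eventually_const_lt b3)] with q hq b4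
      by_cases b5 : q.1 < 1
      · have b6 : (k : ℝ) ≤ q.1 / (1 - q.1) := by
          rw [div_lt_iff₀ (by positivity)] at b4
          rw [le_div_iff₀ (sub_pos.2 b5)]
          linarith
        have b7 := g3 _ _ hq.2 k b6 _ (Nat.cast_le.1 (b6.trans (Nat.le_ceil _)))
        by_contra b8
        have := b1 (h q) ⟨⟨a1 q.1 q.2 hq.2, ?_⟩, b8⟩
        · simp only [h, if_pos b5] at this
          linarith
        · simp only [h, if_pos b5]
          exact b7.trans (c1 k)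
      · simpa [h, b5] using hsN
  · obtain rfl : z = s := hz'
    by_contra e
    have := (h1 _ (a1 t z hz) e).1
    simp only [h] at this e
    split_ifs at this e
    · linarith [(g1 ⌈t / (1 - t)⌉₊ (t / (1 - t)) z hs).2]
    · exact e rfl

end Cone

variable {X : Type*} [TopologicalSpace X] {A A' A₀ : Set X}

/-- relative cycles -/
def RZ (A A₀ : Set X) (m : ℕ) : Submodule ℤ (Ch X) := C A (m + 1) ⊓ (C A₀ m).comap bd

/-- the rational relative homology is finite dimensional -/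
def Sp (A A₀ : Set X) : Prop :=
  ∃ (Mx : ℕ) (P : ℕ → Submodule ℤ (Ch X)), ∀ m, (P m).FG ∧ P m ≤ RZ A A₀ m ∧ (Mx ≤ m → P m = ⊥) ∧
    RZ A A₀ m ≤ sat (P m ⊔ RB A A₀ (m + 1))

theorem Sp.lb (h : Sp A A₀) : ∃ (J : Type) (_ : Fintype J) (deg : J → ℕ), LB A A₀ deg := by
  obtain ⟨Mx, P, h⟩ := h
  choose n c hc using fun m => Submodule.fg_iff_exists_fin_generating_family.1 (h m).1
  have hm : ∀ m i, c m i ∈ RZ A A₀ m := fun m i =>
    (h m).2.1 (hc m ▸ Submodule.subset_span (mem_range_self i))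
  refine exists_lb (J := Σ m : Fin Mx, Fin (n m)) (deg := fun j => j.1 + 1) (c := fun j => c j.1 j.2)
    (fun _ => Nat.succ_ne_zero _) (fun j => (hm _ _).1) (fun j => (hm _ _).2) fun m s hs hb =>
      sat_mono (sup_le_sup_right ?_ _) ((h m).2.2.2 ⟨hs, hb⟩)
  rcases le_or_gt Mx m with h1 | h1
  · rw [(h m).2.2.1 h1]
    exact bot_le
  · rw [← hc m]
    refine Submodule.span_mono ?_
    rintro _ ⟨i, rfl⟩
    exact ⟨⟨⟨m, h1⟩, i⟩, rfl, rfl⟩

theorem Sp.of_ac (h : Sp A ∅) (hA : A ⊆ A') (h' : Ac A' A) : Sp A' ∅ := by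
  obtain ⟨Mx, P, h⟩ := h
  refine ⟨Mx, P, fun m => ⟨(h m).1, (h m).2.1.trans (inf_le_inf_right _ (C_mono hA _)), (h m).2.2.1,
    fun s hs => ?_⟩⟩
  obtain ⟨t, ht, h1⟩ := h' (m + 1) s hs.1 (C_mono (empty_subset _) _ hs.2)
  have h2 := (h m).2.2.2 (x := s - bd t) 
    ⟨h1, show bd (s - bd t) ∈ C ∅ m by rw [map_sub, bd_bd, sub_zero]; exact hs.2⟩
  have := Submodule.add_mem _ (sat_mono (sup_le_sup_left (RB_mono hA Subset.rfl _) _) h2)
    (le_sat _ (Submodule.mem_sup_right (Submodule.mem_sup_left (S := B A' (m + 1)) ⟨t, ht, rfl⟩)))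
  simpa using this

theorem exists_fg_lift {M M' : Type*} [AddCommGroup M] [AddCommGroup M'] (φ : M →ₗ[ℤ] M')
    (Q : Submodule ℤ M) {K : Submodule ℤ M'} (hK : K.FG) (h : K ≤ Q.map φ) :
    ∃ P : Submodule ℤ M, P.FG ∧ P ≤ Q ∧ P.map φ = K ∧ (K = ⊥ → P = ⊥) := by
  by_cases h0 : K = ⊥
  · exact ⟨⊥, Submodule.fg_bot, bot_le, by simp [h0], fun _ => rfl⟩
  obtain ⟨n, c, rfl⟩ := Submodule.fg_iff_exists_fin_generating_family.1 hK
  choose c' h1 h2 using fun i => h (Submodule.subset_span (mem_range_self i))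
  refine ⟨Submodule.span ℤ (range c'), Submodule.fg_span (finite_range _),
    Submodule.span_le.2 (range_subset_iff.2 h1), ?_, fun e => absurd e h0⟩
  rw [Submodule.map_span, ← range_comp]
  exact congrArg _ (congrArg _ (funext h2))

theorem Sp.pair (h : Sp A ∅) (h' : Sp A' ∅) (hA : A' ⊆ A) : Sp A A' := by
  obtain ⟨Mx, P, h⟩ := h
  obtain ⟨Mx', P', h'⟩ := h'
  choose Q q1 q2 q3 q4 using fun m => exists_fg_lift bd (C A (m + 2)) (K := P' m ⊓ B A (m + 1))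
    ((h' m).1.of_le inf_le_left) inf_le_right
  have r1 : ∀ m, P m ≤ RZ A A' m := fun m x hx =>
    ⟨((h m).2.1 hx).1, C_mono (empty_subset _) _ ((h m).2.1 hx).2⟩
  have r2 : ∀ m, RZ A ∅ m ≤ sat (P m ⊔ RB A A' (m + 1)) := fun m =>
    (h m).2.2.2.trans (sat_mono (sup_le_sup_left (RB_mono Subset.rfl (empty_subset _) _) _))
  refine ⟨Mx + Mx' + 1, fun m => Nat.casesOn m (P 0) fun m => P (m + 1) ⊔ Q m, fun m => ?_⟩
  cases m with
  | zero => exact ⟨(h 0).1, r1 0, fun h => by omega, fun s hs => r2 0 ⟨hs.1, mem_E0 hs.2⟩⟩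
  | succ m =>
    refine ⟨(h _).1.sup (q1 m), sup_le (r1 _) fun x hx => ⟨q2 m hx,
      ((h' m).2.1 ((q3 m).le ⟨x, hx, rfl⟩).1).1⟩, fun hm => ?_, fun s hs => ?_⟩
    · change P (m + 1) ⊔ Q m = ⊥
      rw [(h _).2.2.1 (by omega), q4 m (by rw [(h' _).2.2.1 (by omega), bot_inf_eq]), bot_sup_eq]
    obtain ⟨N, hN, h1⟩ := (h' m).2.2.2 (x := bd s) ⟨hs.2, by simp [bd_bd]⟩
    obtain ⟨a, ha, r, hr, e⟩ := Submodule.mem_sup.1 h1
    obtain ⟨t, ht, h2⟩ := mem_RB.1 hr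
    rw [C_empty, Submodule.mem_bot, sub_eq_zero] at h2
    have h3 : N • s - t ∈ C A (m + 2) :=
      Submodule.sub_mem _ (Submodule.smul_mem _ _ hs.1) (C_mono hA _ ht)
    obtain ⟨u, hu, e'⟩ := (q3 m).ge ⟨ha, _, h3, by rw [map_sub, map_smul, ← e, h2, add_sub_cancel_right]⟩
    have h4 := r2 (m + 1) (x := N • s - t - u) ⟨Submodule.sub_mem _ h3 (q2 m hu), by
      simp only [SetLike.mem_coe, Submodule.mem_comap, map_sub, map_smul, ← e, h2, e']
      simp⟩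
    refine sat_of_smul hN ?_
    have := Submodule.add_mem _ (Submodule.add_mem _
      (sat_mono (sup_le_sup_right (le_sup_left (b := Q m)) _) h4)
      (le_sat _ (Submodule.mem_sup_left (Submodule.mem_sup_right hu))))
      (le_sat _ (Submodule.mem_sup_right (Submodule.mem_sup_right ht)))
    simpa using this

theorem sp_iUnion {U : X → Set X} {S : Set X} (hS : S.Finite) (ho : ∀ s ∈ S, IsOpen (U s))
    (hd : S.PairwiseDisjoint U) (hs : ∀ s ∈ S, s ∈ U s) (ha : ∀ s ∈ S, Acyc (U s)) :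
    Sp (⋃ s : S, U s) ∅ := by
  have := hS.to_subtype
  let pt : X → Ch X := fun x => Finsupp.single ⟨1, ContinuousMap.const _ x⟩ 1
  have ho' : ∀ s : S, IsOpen (U s) := fun s => ho s s.2
  have hd' : Pairwise fun s s' : S => Disjoint (U s) (U s') :=
    fun s s' h => hd s.2 s'.2 (Subtype.coe_ne_coe.2 h)
  refine ⟨1, fun m => Nat.casesOn m (Submodule.span ℤ (range fun s : S => pt s)) fun _ => ⊥,
    fun m => ?_⟩
  cases m with
  | zero =>
    have m1 : ∀ s : S, pt s ∈ C (U s) 1 := fun s => single_mem_C (fun _ => hs s s.2) 1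
    refine ⟨Submodule.fg_span (finite_range _), Submodule.span_le.2 (range_subset_iff.2 fun s =>
      ⟨C_mono (subset_iUnion _ s) _ (m1 s), mem_E0 (bd_mem (m1 s))⟩), fun h => by omega,
      fun x hx => le_sat _ (map_C LinearMap.id _ (fun σ hσ => ?_) hx.1)⟩
    obtain ⟨s, h1⟩ := simplex_subset ho' hd' σ hσ
    have := Submodule.add_mem_sup (S := Submodule.span ℤ (range fun s : S => pt s))
      (Submodule.subset_span (mem_range_self s)) (Submodule.mem_sup_left (T := C ∅ 1)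
        (B_mono (subset_iUnion (fun s : S => U s) s) _ (ha s s.2 1 (mem_Z.2
          ⟨Submodule.sub_mem _ (single_mem_C h1 1) (m1 s), ?_⟩))))
    · simpa [RB] using this
    · simp only [pt, map_sub, bd_succ, sub_eq_zero]
      refine Finset.sum_congr rfl fun i _ => ?_
      congr 3
      exact ContinuousMap.ext fun t => isEmptyElim t
  | succ m =>
    refine ⟨Submodule.fg_bot, bot_le, fun _ => rfl, fun x hx => le_sat _ (Submodule.mem_sup_right
      (Submodule.mem_sup_left (Z_le_B_iUnion ho' hd' (fun s => ha s s.2 _) (mem_Z.2 ⟨hx.1, ?_⟩))))⟩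
    have := hx.2
    rwa [C_empty] at this

theorem Model.sp {G J : Type*} [Group G] [Finite G] [Fintype J] {V : Set X} {deg : J → ℕ}
    {d : ((G × J) →₀ ℤ) →ₗ[ℤ] ((G × J) →₀ ℤ)} {φ : ((G × J) →₀ ℤ) →ₗ[ℤ] Ch X} {T : Set G}
    {D : G → Set X} (h : Model D V deg d φ T) (hD : ∀ S : Set G, S.Nonempty → Nb D S = univ) :
    Sp V ∅ := by
  have e : ∀ S, (1 : G) ∈ S → V ∩ Nb D (univ * S) = V := fun S hS => by
    rw [hD _ ⟨_, mul_mem_mul (mem_univ 1) hS⟩, inter_univ]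
  refine ⟨Finset.univ.sup deg, fun m => (MC deg (m + 1) univ ⊓ LinearMap.ker d).map φ,
    fun m => ⟨(Submodule.FG.of_finite).map _, ?_, fun hm => ?_, fun s hs => ?_⟩⟩
  · rintro _ ⟨x, hx, rfl⟩
    have h1 := h.φ_mem _ _ x hx.1
    rw [e T h.one] at h1
    have h2 := h.φ_bd x
    rw [show d x = 0 from hx.2, map_zero, sub_zero] at h2
    exact ⟨h1, mem_C_of_E0 (bd_mem h1) h2⟩
  · rw [eq_bot_iff]
    rintro _ ⟨x, hx, rfl⟩
    rw [eq_zero_of_MC (fun j => by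
      have := Finset.le_sup (f := deg) (Finset.mem_univ j); omega) hx.1, map_zero]
    exact Submodule.zero_mem _
  · obtain ⟨N, hN, y, hy, t, ht, e1, e2⟩ := h.cone m univ 0 (Submodule.zero_mem _) s
      (by rw [hD _ univ_nonempty, inter_univ]; exact hs.1) (map_zero d) (by
        rw [map_zero, sub_zero]
        cases m with
        | zero => exact hs.2
        | succ m =>
          have := hs.2
          rw [C_empty] at this
          rw [show bd s = 0 from this]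
          exact Submodule.zero_mem _)
    rw [e T h.one] at ht
    exact ⟨N, hN, e2 ▸ Submodule.add_mem_sup ⟨y, ⟨MC_mono (subset_univ _) hy, by simpa using e1⟩, rfl⟩
      (Submodule.mem_sup_left ⟨t, ht, rfl⟩)⟩

end Pool.Agent.Lib.MP_356dfe_ag
end
end

-- part Pool.Agent.Lib.MP_356dfe_ag.Core
section

/-! The sign of the Euler characteristic of the truncated complex. -/

set_option autoImplicit false

open Set Filter Topology Module Pool.Agent.Shared.SingHom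
open scoped Pointwise

noncomputable section

namespace Pool.Agent.Lib.MP_356dfe_ag

section

variable {G Y J J' : Type*} [TopologicalSpace Y] [Group G] {D : G → Set Y} {V : Set Y}
  {deg : J → ℕ} {d : ((G × J) →₀ ℤ) →ₗ[ℤ] ((G × J) →₀ ℤ)} {φ : ((G × J) →₀ ℤ) →ₗ[ℤ] Ch Y}
  {T : Set G}

theorem bd_E0 {A : Set Y} {m : ℕ} {s : Ch Y} (hs : s ∈ RZ A ∅ m) : bd s ∈ E0 Y := by
  cases m with
  | zero => exact hs.2
  | succ m =>
    have := hs.2
    rw [C_empty] at this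
    rw [show bd s = 0 from this]
    exact Submodule.zero_mem _

theorem Model.rz (h : Model D V deg d φ T) {m : ℕ} {x : (G × J) →₀ ℤ}
    (hx : x ∈ MC deg (m + 1) univ) (h0 : d x = 0) : φ x ∈ RZ V ∅ m := by
  have h1 := C_mono inter_subset_left _ (h.φ_mem _ _ x hx)
  have h2 := h.φ_bd x
  rw [h0, map_zero, sub_zero] at h2
  exact ⟨h1, mem_C_of_E0 (bd_mem h1) h2⟩

theorem Model.surj (h : Model D V deg d φ T) (hD : Nb D univ = univ) {m : ℕ} {s : Ch Y}
    (hs : s ∈ RZ V ∅ m) : ∃ N : ℤ, N ≠ 0 ∧ ∃ y ∈ MC deg (m + 1) (univ : Set G), d y = 0 ∧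
      N • s - φ y ∈ B V (m + 1) := by
  obtain ⟨N, hN, y, hy, t, ht, e1, e2⟩ := h.cone m univ 0 (Submodule.zero_mem _) s
    (by rw [hD, inter_univ]; exact hs.1) (map_zero d) (by simpa using bd_E0 hs)
  exact ⟨N, hN, y, MC_mono (subset_univ _) hy, by simpa using e1, t,
    C_mono inter_subset_left _ ht, by rw [← e2, add_sub_cancel_left]⟩

theorem Model.inj (h : Model D V deg d φ T) (hD : Nb D univ = univ) {m : ℕ} {x : (G × J) →₀ ℤ}
    (hx : x ∈ MC deg (m + 1) univ) (h0 : d x = 0) :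
    φ x ∈ sat (B V (m + 1)) ↔ x ∈ sat ((MC deg (m + 2) univ).map d) := by
  constructor
  · rintro ⟨N, hN, s, hs, e⟩
    obtain ⟨N', hN', y, hy, -, -, e1, -⟩ := h.cone (m + 1) univ (N • x) (Submodule.smul_mem _ _ hx) s
      (by rwa [hD, inter_univ]) (by rw [map_smul, h0, smul_zero])
      (by rw [e, map_smul, sub_self]; exact Submodule.zero_mem _)
    exact ⟨N' * N, mul_ne_zero hN' hN, y, MC_mono (subset_univ _) hy, by rw [e1, mul_smul]⟩
  · rintro ⟨N, hN, y, hy, e⟩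
    have h1 := C_mono inter_subset_left _ (h.φ_mem _ _ y hy)
    have h2 := h.φ_bd y
    rw [e, map_smul] at h2
    exact ⟨N, hN, φ y, h1, sub_eq_zero.1 (eq_zero_of_E0 (Submodule.sub_mem _ (bd_mem h1)
      (Submodule.smul_mem _ _ (h.rz hx h0).1)) h2)⟩

/-- the grading that keeps new cells only above the middle dimension -/
def degI (n : ℕ) (deg : J → ℕ) (deg' : J' → ℕ) : J ⊕ J' → ℕ :=
  Sum.elim deg fun j => if n + 2 ≤ deg' j then deg' j else 0

omit [Group G]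

variable {n m : ℕ} {deg' : J' → ℕ} {S : Set G} {x : (G × (J ⊕ J')) →₀ ℤ}

theorem mem_degI : x ∈ MC (degI n deg deg') (m + 1) S ↔
    x ∈ MC (Sum.elim deg deg') (m + 1) S ∧ (orr x = 0 ∨ n < m) := by
  simp only [mem_MC]
  constructor
  · intro h
    have h' : ∀ g j, x (g, Sum.inr j) ≠ 0 → g ∈ S ∧ deg' j = m + 1 ∧ n < m := fun g j hq => by
      obtain ⟨h1, h2⟩ := h _ hq
      simp only [degI, Sum.elim_inr] at h2
      split_ifs at h2
      exact ⟨h1, h2, by omega⟩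
    refine ⟨?_, or_iff_not_imp_right.2 fun hn => ?_⟩
    · rintro ⟨g, j | j⟩ hq
      · exact h _ hq
      · exact ⟨(h' g j hq).1, (h' g j hq).2.1⟩
    · ext q
      by_contra hq
      exact hn (h' q.1 q.2 hq).2.2
  · rintro ⟨h, h'⟩ ⟨g, j | j⟩ hq
    · exact h _ hq
    · obtain ⟨h1, h2⟩ := h _ hq
      have h3 := h'.resolve_left fun e => hq (DFunLike.congr_fun e (g, j))
      simp only [Sum.elim_inr] at h2
      exact ⟨h1, by simp only [degI, Sum.elim_inr]; rw [if_pos (by omega), h2]⟩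

theorem eq_il (h : orr x = 0) : il (ol x) = x := by
  conv_rhs => rw [← il_add_ir x, h, map_zero, add_zero]

theorem il_degI {y : (G × J) →₀ ℤ} (hy : y ∈ MC deg (m + 1) S) :
    il y ∈ MC (degI n deg deg') (m + 1) S := il_mem hy

end

variable {X Y G : Type*} [TopologicalSpace X] [TopologicalSpace Y] [Group G] [MulAction G Y]
  {p : Y → X} {D₀ : Set Y} {U V A : Set X} {J' : Type} [Fintype J'] {deg' : J' → ℕ}

theorem Ctx.nb (h : Ctx p G D₀) : Nb (fun g : G => g • D₀) univ = univ :=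
  eq_univ_of_forall fun y => let ⟨g, hg⟩ := h.surj y; mem_biUnion (mem_univ g) hg

/-- compatible models of an open set and of the whole space -/
structure Two (D : G → Set Y) (A : Set Y) {J J' : Type} (deg : J → ℕ) (deg' : J' → ℕ)
    (d : ((G × J) →₀ ℤ) →ₗ[ℤ] ((G × J) →₀ ℤ)) (φ : ((G × J) →₀ ℤ) →ₗ[ℤ] Ch Y) (T : Set G)
    (d' : ((G × (J ⊕ J')) →₀ ℤ) →ₗ[ℤ] ((G × (J ⊕ J')) →₀ ℤ))
    (φ' : ((G × (J ⊕ J')) →₀ ℤ) →ₗ[ℤ] Ch Y) (T' : Set G) : Prop where
  old : Model D A deg d φ T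
  new : Model D univ (Sum.elim deg deg') d' φ' T'
  dil : ∀ x, d' (il x) = il (d x)
  φil : ∀ x, φ' (il x) = φ x
  dr : ∀ x, orr (d' x) = 0

theorem Ctx.two (h : Ctx p G D₀) {𝒢 : Set (Set X)} (hG : ∀ U ∈ 𝒢, Small p G U) {l : List ℕ}
    (hF : Filt 𝒢 ∅ l V) (hV : V ⊆ A) (hA : IsOpen A) (hU : Small p G U) (hd : LDf U V A)
    (hAU : A ∪ U = univ) (hL : LB U (U ∩ A) deg') :
    ∃ (J : Type) (_ : Fintype J) (deg : J → ℕ), (∀ m, cnt deg m = l.count m) ∧ ∃ d φ T d' φ' T',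
      Two (fun g : G => g • D₀) (p ⁻¹' A) deg deg' d φ T d' φ' T' := by
  obtain ⟨J, _, deg, d, φ, T, h1, h2⟩ := h.filt hG hF
  obtain ⟨T₁, h3⟩ := h.ld h1 hV hU hd
  obtain ⟨d', φ', T', h4, h5, h6, h7⟩ := h.attach h3 hA hU hL
  rw [hAU, preimage_univ] at h4
  exact ⟨J, _, deg, h2, d, φ, T₁, d', φ', T', h3, h4, h5, h6, h7⟩

variable {J : Type} [Fintype J] {deg : J → ℕ}

section

variable {D : G → Set Y} {A : Set Y} {d : ((G × J) →₀ ℤ) →ₗ[ℤ] ((G × J) →₀ ℤ)}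
  {φ : ((G × J) →₀ ℤ) →ₗ[ℤ] Ch Y} {T T' : Set G}
  {d' : ((G × (J ⊕ J')) →₀ ℤ) →ₗ[ℤ] ((G × (J ⊕ J')) →₀ ℤ)} {φ' : ((G × (J ⊕ J')) →₀ ℤ) →ₗ[ℤ] Ch Y}

omit [MulAction G Y] [Fintype J] [Fintype J']

theorem Two.d_ol (h : Two D A deg deg' d φ T d' φ' T') {x : (G × (J ⊕ J')) →₀ ℤ}
    (hx : orr x = 0) : d (ol x) = ol (d' x) := by
  conv_rhs => rw [← eq_il hx, h.dil, ol_il]

theorem Two.d_one (h : Two D A deg deg' d φ T d' φ' T') (n : ℕ) :
    ∀ x ∈ MC (degI n deg deg') 1 (univ : Set G), d' x = 0 := fun x hx =>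
  eq_zero_of_MC h.new.pos (h.new.d_mem 0 _ x (mem_degI.1 hx).1)

theorem Two.d_mem (h : Two D A deg deg' d φ T d' φ' T') (n m : ℕ) (S : Set G) :
    ∀ x ∈ MC (degI n deg deg') (m + 2) S, d' x ∈ MC (degI n deg deg') (m + 1) (S * T') :=
  fun x hx => mem_degI.2 ⟨h.new.d_mem _ S x (mem_degI.1 hx).1, Or.inl (h.dr x)⟩

end

theorem Two.sign [DecidableEq G] (hc : Ctx p G D₀) {A : Set Y} {d φ T d' φ' T'}
    (h : Two (fun g : G => g • D₀) A deg deg' d φ T d' φ' T') (n Mx : ℕ)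
    (hM : ∀ j, degI n deg deg' j ≤ Mx)
    (hF : ∀ (T : Finset G) (ε : ℝ), 0 < ε → ∃ E : Finset G, E.Nonempty ∧
      (((E * T) \ E).card : ℝ) ≤ ε * E.card)
    (h1 : ∀ m, n < m → Z (univ : Set Y) (m + 1) ≤ sat (B univ (m + 1)))
    (h2 : ∀ m < n, ∀ K, IsCompact K → RZ A ∅ m ≤ sat (RB A (A ∩ Kᶜ) (m + 1))) :
    0 ≤ (-1 : ℤ) ^ n * ∑ i ∈ Finset.range Mx, (-1 : ℤ) ^ i * cnt (degI n deg deg') (i + 1) := by
  refine folner_sign _ d' n Mx hM h.new.fin hF (h.d_mem n) (h.d_one n) (fun _ x _ => h.new.dd x)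
    fun m hm E z hz h0 => ?_
  obtain ⟨z1, z2⟩ := mem_degI.1 hz
  rcases lt_or_gt_of_ne hm with hm | hm
  · have z3 := z2.resolve_right hm.not_gt
    have z4 : d (ol z) = 0 := by rw [h.d_ol z3, h0, map_zero]
    have z5 := h.old.rz (ol_mem z1) z4
    have := hc.cov.toContinuousConstSMul
    obtain ⟨N, hN, h3⟩ := h2 m hm (Nb (fun g : G => g • D₀) (E * T⁻¹))
      ((E.finite_toSet.mul h.old.fin.inv).isCompact_biUnion fun g _ => hc.cpt.smul g) z5
    obtain ⟨t, ht, h4⟩ := mem_RB.1 h3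
    obtain ⟨N₂, hN₂, y, hy, t₂, ht₂, e1, e2⟩ := h.old.cone m (E * T⁻¹)ᶜ 0 (Submodule.zero_mem _) _
      (C_mono (inter_subset_inter_right _ fun y hy => by
        obtain ⟨g, hg⟩ := hc.surj y
        exact mem_biUnion (fun hg' => hy (mem_biUnion hg' hg)) hg) _ h4) (map_zero _)
      (by simpa [bd_bd] using Submodule.smul_mem _ N (bd_E0 z5))
    obtain ⟨N₃, hN₃, w, hw, e3⟩ := (h.old.inj hc.nb (x := (N₂ * N) • ol z - y)
      (Submodule.sub_mem _ (Submodule.smul_mem _ _ (ol_mem z1)) (MC_mono (subset_univ _) hy))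
      (by simp [z4, e1])).1 (le_sat _ ⟨N₂ • t + t₂, Submodule.add_mem _ (Submodule.smul_mem _ _ ht)
        (C_mono inter_subset_left _ ht₂), by
          rw [map_sub, eq_sub_of_add_eq e2, map_add, map_smul, map_smul, mul_smul, smul_sub]
          abel⟩)
    refine ⟨N₃ * (N₂ * N), mul_ne_zero hN₃ (mul_ne_zero hN₂ hN), il w, il_degI hw, ?_⟩
    rw [h.dil, e3, map_smul il, map_sub il, map_smul il, eq_il z3, mul_smul, ← smul_sub,
      sub_sub_cancel, map_smul, pr_eq_zero (il_mem (deg' := deg') hy), smul_zero]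
    refine disjoint_left.2 ?_
    rintro _ ⟨s, hs, t, ht, rfl⟩ he
    exact hs ⟨_, he, t⁻¹, by simpa using ht, by simp⟩
  · have z5 := h.new.rz z1 h0
    obtain ⟨m, rfl⟩ : ∃ k, m = k + 1 := ⟨m - 1, by omega⟩
    obtain ⟨N, hN, w, hw, e⟩ := (h.new.inj hc.nb z1 h0).1 (h1 _ hm (mem_Z.2 ⟨z5.1, by
      have := z5.2
      rwa [C_empty] at this⟩))
    exact ⟨N, hN, w, mem_degI.2 ⟨hw, Or.inr (by omega)⟩, by rw [e, sub_self, map_zero]⟩

/-- `κ` identifies the rational homology of `A` in degree `i` with `H` -/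
def Cmp {H : Type*} [AddCommGroup H] (A : Set X) (i : ℕ) (κ : RZ A ∅ i →+ H) : Prop :=
  (∀ h, ∃ N : ℤ, N ≠ 0 ∧ ∃ z, κ z = N • h) ∧ ∀ z, κ z = 0 ↔ z.1 ∈ sat (B A (i + 1))

theorem Cmp.model {H : Type*} [AddCommGroup H] {i : ℕ} {κ : RZ A ∅ i →+ H} (hκ : Cmp A i κ)
    {J : Type*} {D : G → Set X} {deg : J → ℕ} {d : ((G × J) →₀ ℤ) →ₗ[ℤ] ((G × J) →₀ ℤ)} {φ T}
    (h : Model D A deg d φ T) (hD : Nb D univ = univ) (c : H) :
    ∃ N : ℤ, N ≠ 0 ∧ ∃ (y : _) (hy : y ∈ MC deg (i + 1) univ) (h0 : d y = 0),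
      κ ⟨φ y, h.rz hy h0⟩ = N • c := by
  obtain ⟨N, hN, z, e⟩ := hκ.1 c
  obtain ⟨N', hN', y, hy, h0, h1⟩ := h.surj hD z.2
  refine ⟨N' * N, mul_ne_zero hN' hN, y, hy, h0, ?_⟩
  rw [mul_smul, ← e, ← map_zsmul, eq_comm, ← sub_eq_zero, ← map_sub]
  exact (hκ.2 _).2 (le_sat _ h1)

theorem top_rank {H : Type*} [AddCommGroup H] [Module ℚ H] {a b : ℕ}
    (h : Module.Finite ℚ (⊤ : Submodule ℚ H) ∧ finrank ℚ (⊤ : Submodule ℚ H) + a = b) :
    finrank ℚ H + a = b ∧ Module.Finite ℚ H :=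
  ⟨finrank_top ℚ H ▸ h.2, have := h.1; .equiv Submodule.topEquiv⟩

theorem Two.rank [Fintype G] {D : G → Set X} (hD : Nb D univ = univ) {d φ T d' φ' T'}
    (h : Two D A deg deg' d φ T d' φ' T') (n i : ℕ) {H H' : Type*} [AddCommGroup H] [Module ℚ H]
    [AddCommGroup H'] [Module ℚ H'] (j : H →ₗ[ℚ] H') {κ : RZ A ∅ i →+ H} {κ' : RZ univ ∅ i →+ H'}
    (hκ : Cmp A i κ) (hκ' : Cmp univ i κ')
    (hj : ∀ (z : RZ A ∅ i) (z' : RZ univ ∅ i), z.1 = z'.1 → j (κ z) = κ' z') :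
    ∃ r : ℕ, r + br (degI n deg deg') d' Finset.univ (i + 1) =
        zr (degI n deg deg') d' Finset.univ i ∧
      (i < n → Module.Finite ℚ H ∧ finrank ℚ H = r) ∧
      (i = n → Module.Finite ℚ (LinearMap.range j) ∧ finrank ℚ (LinearMap.range j) = r) ∧
      (n < i → Module.Finite ℚ H' ∧ finrank ℚ H' = r) := by
  have hfin := finite_MC (degI n deg deg') (i + 1) (Finset.univ : Finset G)
  unfold zr br
  rw [Finset.coe_univ] at hfin ⊢
  set Zc := MC (degI n deg deg') (i + 1) (univ : Set G) ⊓ LinearMap.ker d'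
  set Bc := (MC (degI n deg deg') (i + 1 + 1) (univ : Set G)).map d'
  have : Module.Finite ℤ Zc := finite_of_le inf_le_left
  have hB : Bc ≤ Zc := by
    rintro _ ⟨x, hx, rfl⟩
    exact ⟨MC_mono (subset_univ _) (h.d_mem n i _ x hx), h.new.dd x⟩
  rcases lt_or_ge i n with hi | hi
  · have z3 : ∀ z : Zc, orr z.1 = 0 := fun z => (mem_degI.1 z.2.1).2.resolve_right hi.not_gt
    have z4 : ∀ z : Zc, d (ol z.1) = 0 := fun z => by
      rw [h.d_ol (z3 z), show d' z.1 = 0 from z.2.2, map_zero]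
    have z1 : ∀ z : Zc, ol z.1 ∈ MC deg (i + 1) univ := fun z => ol_mem (mem_degI.1 z.2.1).1
    have a := top_rank (rank_of_sat Zc Bc hB (κ.comp (((φ.comp ol).comp Zc.subtype).codRestrict
      _ fun z => h.old.rz (z1 z) (z4 z)).toAddMonoidHom) ⊤ (fun _ => trivial) (fun c _ => ?_)
      fun z => ((hκ.2 _).trans (h.old.inj hD (z1 z) (z4 z))).trans ⟨fun hz => ?_, fun hz => ?_⟩)
    · exact ⟨_, a.1, fun _ => ⟨a.2, rfl⟩, fun e => by omega, fun e => by omega⟩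
    · obtain ⟨N, hN, y, hy, h0, e⟩ := hκ.model h.old hD c
      refine ⟨N, hN, ⟨il y, il_degI hy, show d' _ = 0 by rw [h.dil, h0, map_zero]⟩, ?_⟩
      rw [← e]
      exact congrArg κ (Subtype.ext (congrArg φ (ol_il y)))
    · rw [← eq_il (z3 z)]
      refine sat_map il ?_ hz
      rintro _ ⟨w, hw, rfl⟩
      exact le_sat _ ⟨il w, il_degI hw, h.dil w⟩
    · refine sat_map ol ?_ hz
      rintro _ ⟨w, hw, rfl⟩
      obtain ⟨w1, w2⟩ := mem_degI.1 hw
      exact le_sat _ ⟨ol w, ol_mem w1, h.d_ol (w2.resolve_right (by omega))⟩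
  have z1 : ∀ z : Zc, z.1 ∈ MC (Sum.elim deg deg') (i + 1) univ := fun z => (mem_degI.1 z.2.1).1
  let k : Zc →+ H' := κ'.comp ((φ'.comp Zc.subtype).codRestrict
    _ fun z => h.new.rz (z1 z) z.2.2).toAddMonoidHom
  have k3 : ∀ z, k z = 0 ↔ z.1 ∈ sat Bc := fun z => by
    refine ((hκ'.2 _).trans (h.new.inj hD (z1 z) z.2.2)).trans ?_
    have : MC (degI n deg deg') (i + 1 + 1) (univ : Set G) = MC (Sum.elim deg deg') (i + 2) univ :=
      Submodule.ext fun x => mem_degI.trans (and_iff_left (Or.inr (by omega)))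
    rw [← this]
  rcases hi.eq_or_lt with hi | hi
  · have a := rank_of_sat Zc Bc hB k (LinearMap.range j) (fun z => ?_) ?_ k3
    · exact ⟨_, a.2, fun e => by omega, fun _ => ⟨a.1, rfl⟩, fun e => by omega⟩
    · have z3 := (mem_degI.1 z.2.1).2.resolve_right (by omega)
      refine ⟨κ ⟨_, h.old.rz (ol_mem (z1 z)) ?_⟩, hj _ _ ?_⟩
      · rw [h.d_ol z3, show d' z.1 = 0 from z.2.2, map_zero]
      · exact (h.φil _).symm.trans (congrArg φ' (eq_il z3))
    · rintro _ ⟨c, rfl⟩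
      obtain ⟨N, hN, y, hy, h0, e⟩ := hκ.model h.old hD c
      refine ⟨N, hN, ⟨il y, il_degI hy, show d' _ = 0 by rw [h.dil, h0, map_zero]⟩, ?_⟩
      rw [← map_zsmul, ← e]
      exact (hj _ _ (h.φil y).symm).symm
  · have a := top_rank (rank_of_sat Zc Bc hB k ⊤ (fun _ => trivial) (fun c _ => ?_) k3)
    · exact ⟨_, a.1, fun e => by omega, fun e => by omega, fun _ => ⟨a.2, rfl⟩⟩
    · obtain ⟨N, hN, y, hy, h0, e⟩ := hκ'.model h.new hD c
      exact ⟨N, hN, ⟨y, mem_degI.2 ⟨hy, Or.inr hi⟩, h0⟩, e⟩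

theorem core [CompactSpace X] [T2Space X] [DecidableEq G] (hp : IsQuotientCoveringMap p G)
    {l : List ℕ} (hF : Filt {U | Small p G U} ∅ l V) (hV : V ⊆ A) (hA : IsOpen A)
    (hU : Small p G U) (hd : LDf U V A) (hAU : A ∪ U = univ) (hL : Sp U (U ∩ A)) (n : ℕ)
    (ham : ∀ (T : Finset G) (ε : ℝ), 0 < ε → ∃ E : Finset G, E.Nonempty ∧
      (((E * T) \ E).card : ℝ) ≤ ε * E.card)
    (h1 : ∀ m, n < m → Z (univ : Set Y) (m + 1) ≤ sat (B univ (m + 1)))
    (h2 : ∀ m < n, ∀ K, IsCompact K →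
      RZ (p ⁻¹' A) ∅ m ≤ sat (RB (p ⁻¹' A) (p ⁻¹' A ∩ Kᶜ) (m + 1)))
    {H H' : ℕ → Type} [∀ i, AddCommGroup (H i)] [∀ i, Module ℚ (H i)] [∀ i, AddCommGroup (H' i)]
    [∀ i, Module ℚ (H' i)] (j : ∀ i, H i →ₗ[ℚ] H' i)
    (hj : ∀ i, ∃ (κ : RZ A ∅ i →+ H i) (κ' : RZ univ ∅ i →+ H' i), Cmp A i κ ∧ Cmp univ i κ' ∧
      ∀ (z : RZ A ∅ i) (z' : RZ univ ∅ i), z.1 = z'.1 → j i (κ z) = κ' z') :
    ∃ (Mx : ℕ) (r : ℕ → ℕ), (∀ i, Mx ≤ i → r i = 0) ∧
      0 ≤ (-1 : ℤ) ^ n * ∑ i ∈ Finset.range Mx, (-1 : ℤ) ^ i * r i ∧ ∀ i,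
      (i < n → Module.Finite ℚ (H i) ∧ finrank ℚ (H i) = r i) ∧
      (i = n → Module.Finite ℚ (LinearMap.range (j i)) ∧ finrank ℚ (LinearMap.range (j i)) = r i) ∧
      (n < i → Module.Finite ℚ (H' i) ∧ finrank ℚ (H' i) = r i) := by
  obtain ⟨J', _, deg', hL⟩ := hL.lb
  obtain ⟨D₀, hc⟩ := exists_ctx hp
  have ho : ∀ U, Small p G U → Small id (Triv X) U := by
    rintro _ ⟨W, -, h, -, -, rfl, -⟩
    exact small_triv (hp.isOpenQuotientMap.isOpenMap _ h)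
  obtain ⟨J₁, _, deg₁, c₁, d₁, φ₁, T₁, d₁', φ₁', T₁', t₁⟩ := hc.two (fun _ h => h) hF hV hA hU hd hAU hL
  obtain ⟨J₂, _, deg₂, c₂, d₂, φ₂, T₂, d₂', φ₂', T₂', t₂⟩ :=
    ctx_triv.two ho hF hV hA (ho U hU) hd hAU hL
  let _ : Fintype (Triv X) := Fintype.ofFinite _
  have e1 : (Finset.univ : Finset (Triv X)).card = 1 :=
    Finset.card_eq_one.2 ⟨1, Finset.eq_singleton_iff_unique_mem.2
      ⟨Finset.mem_univ _, fun _ _ => Subsingleton.elim _ _⟩⟩
  choose κ κ' k1 k2 k3 using hj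
  choose r r1 r2 using fun i => t₂.rank ctx_triv.nb n i (j i) (k1 i) (k2 i) (k3 i)
  set Mx := max (Finset.univ.sup (degI n deg₁ deg')) (Finset.univ.sup (degI n deg₂ deg'))
  have m1 : ∀ j, degI n deg₁ deg' j ≤ Mx := fun j =>
    (Finset.le_sup (Finset.mem_univ j)).trans (le_max_left _ _)
  have m2 : ∀ j, degI n deg₂ deg' j ≤ Mx := fun j =>
    (Finset.le_sup (Finset.mem_univ j)).trans (le_max_right _ _)
  refine ⟨Mx, r, fun i hi => ?_, (t₁.sign hc n Mx m1 ham h1 h2).trans_eq ?_, r2⟩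
  · have := Submodule.finrank_mono (inf_le_left (a := MC (degI n deg₂ deg') (i + 1)
      ((Finset.univ : Finset (Triv X)) : Set (Triv X))) (b := LinearMap.ker d₂'))
    rw [finrank_MC, cnt, Finset.filter_eq_empty_iff.2 fun j _ => by have := m2 j; omega] at this
    have := r1 i
    unfold zr at this
    simp only [Finset.card_empty] at *
    omega
  · have := telescope _ d₂' Finset.univ Mx m2 (t₂.d_one n)
    simp only [e1, Nat.cast_one, one_mul, ← r1, Nat.cast_add, add_sub_cancel_right] at this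
    rw [← this]
    simp only [degI, cnt_sum, c₁, c₂]

end Pool.Agent.Lib.MP_356dfe_ag
end
end
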