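import Mathlib

/-! Projective varieties with isolated singularities, Stein coverings, intersection homology. -/

set_option autoImplicit false

open Filter Topology
open scoped Pointwise

noncomputable section

namespace Pool.Agent.Lib.MP_356dfe_ag

/-- complex projective space of dimension `N` -/
abbrev PN (N : ℕ) : Type := Projectivization ℂ (Fin (N + 1) → ℂ)

/-- the quotient topology from the nonzero vectors -/
instance pnTop (N : ℕ) : TopologicalSpace (PN N) :=
  TopologicalSpace.coinduced (Projectivization.mk' ℂ) inferInstance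

/-- the projective zero set of finitely many polynomials -/
def Var {N : ℕ} (I : Finset (MvPolynomial (Fin (N + 1)) ℂ)) : Set (PN N) :=
  {x | ∀ (v : Fin (N + 1) → ℂ) (hv : v ≠ 0), Projectivization.mk ℂ v hv = x →
    ∀ P ∈ I, MvPolynomial.eval v P = 0}

/-- near `x`, the map `φ` is the restriction of an analytic map of the homogeneous coordinates -/
def HolAt {N : ℕ} {X : Set (PN N)} {E : Type} [NormedAddCommGroup E] [NormedSpace ℂ E]
    (φ : X → E) (x : X) : Prop :=
  ∃ F : (Fin (N + 1) → ℂ) → E, AnalyticAt ℂ F x.1.rep ∧ ∀ᶠ w in 𝓝 x.1.rep,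
    ∀ (hw : w ≠ 0) (y : X), Projectivization.mk ℂ w hw = y.1 → φ y = F w

/-- a biholomorphic map from an open subset of `X` onto an open subset of `ℂⁿ` -/
def IsChart {N n : ℕ} {X : Set (PN N)} (e : OpenPartialHomeomorph X (Fin n → ℂ)) : Prop :=
  (∀ x ∈ e.source, HolAt e x) ∧ ∀ u ∈ e.target, ∃ s : (Fin n → ℂ) → Fin (N + 1) → ℂ,
    AnalyticAt ℂ s u ∧ ∀ᶠ u' in 𝓝 u, ∃ h : s u' ≠ 0, Projectivization.mk ℂ (s u') h = (e.symm u').1

/-- the points near which `X` is not a complex manifold of dimension `n` -/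
def Sing {N : ℕ} (X : Set (PN N)) (n : ℕ) : Set X :=
  {x | ¬ ∃ e : OpenPartialHomeomorph X (Fin n → ℂ), IsChart e ∧ x ∈ e.source}

/-- holomorphic functions on a covering space `p : Y → X` -/
def Hol {N : ℕ} {X : Set (PN N)} {Y : Type} [TopologicalSpace Y] (p : Y → X) (f : Y → ℂ) : Prop :=
  ∀ y, ∃ φ : X → ℂ, HolAt φ (p y) ∧ ∀ᶠ z in 𝓝 y, f z = φ (p z)

/-- the covering space is holomorphically convex and holomorphically separable -/
def Stein {N : ℕ} {X : Set (PN N)} {Y : Type} [TopologicalSpace Y] (p : Y → X) : Prop :=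
  (∀ K : Set Y, IsCompact K →
    IsCompact {y | ∀ f, Hol p f → ∀ C : ℝ, (∀ k ∈ K, ‖f k‖ ≤ C) → ‖f y‖ ≤ C}) ∧
  ∀ y y' : Y, y ≠ y' → ∃ f, Hol p f ∧ f y ≠ f y'

/-- the Foelner condition -/
def Amenable (G : Type) [Group G] : Prop :=
  ∀ (T : Finset G) (ε : ℝ), 0 < ε → ∃ E : Finset G, E.Nonempty ∧
    ∀ t ∈ T, ((symmDiff (t • (E : Set G)) E).ncard : ℝ) ≤ ε * E.card

/-- singular homology with rational coefficients -/
abbrev HQ (i : ℕ) : CategoryTheory.Functor TopCat.{0} (ModuleCat.{0} ℚ) :=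
  (AlgebraicTopology.singularHomologyFunctor (ModuleCat.{0} ℚ) i).obj (ModuleCat.of ℚ ℚ)

/-- middle perversity intersection homology of a space of complex dimension `n` with a finite set
`S` of singular points, by the formula of Goresky and MacPherson -/
def IH (X : Type) [TopologicalSpace X] (S : Set X) (n i : ℕ) : ModuleCat.{0} ℚ :=
  if i < n then (HQ i).obj (TopCat.of ↥Sᶜ)
  else if i = n then ModuleCat.of ℚ (LinearMap.range ((HQ i).map
    (TopCat.ofHom (⟨Subtype.val, continuous_subtype_val⟩ : C(↥Sᶜ, X)))).hom)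
  else (HQ i).obj (TopCat.of X)

end Pool.Agent.Lib.MP_356dfe_ag
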