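import Pool.Agent.Lib.MP_356dfe_ag.Pert

/-! The Levi form and the index of critical points. -/

set_option autoImplicit false

open Set Filter Topology Metric Module Complex

noncomputable section

namespace Pool.Agent.Lib.MP_356dfe_ag

variable {E V : Type} [NormedAddCommGroup E] [NormedSpace ℝ E] [NormedSpace ℂ E]
  [IsScalarTower ℝ ℂ E] [NormedAddCommGroup V] [NormedSpace ℝ V] [NormedSpace ℂ V]
  [IsScalarTower ℝ ℂ V]

/-- the Levi form attached to a real bilinear form -/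
def lv (β : E →L[ℝ] E →L[ℝ] ℝ) (v : E) : ℝ := β v v + β (I • v) (I • v)

/-- positivity of the Levi form -/
def Lev (β : E →L[ℝ] E →L[ℝ] ℝ) : Prop := ∀ v, v ≠ 0 → 0 < lv β v

/-- the Hessian -/
abbrev D2 (F : E → ℝ) (w : E) : E →L[ℝ] E →L[ℝ] ℝ := fderiv ℝ (fderiv ℝ F) w

theorem lev_iff {β : E →L[ℝ] E →L[ℝ] ℝ} : Lev β ↔ ∀ v ∈ sphere (0 : E) 1, 0 < lv β v := by
  refine ⟨fun h v hv => h v (ne_of_mem_sphere hv one_ne_zero), fun h v hv => ?_⟩
  have h1 := norm_pos_iff.2 hv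
  have := h (‖v‖⁻¹ • v) (by simp [norm_smul, h1.ne'])
  simp only [lv, smul_comm I ‖v‖⁻¹, map_smul, smul_apply, smul_eq_mul, ← mul_add] at this
  exact (mul_pos_iff_of_pos_left (inv_pos.2 h1)).1 ((mul_pos_iff_of_pos_left (inv_pos.2 h1)).1 this)

omit [IsScalarTower ℝ ℂ E] in
theorem continuous_lv : Continuous fun q : (E →L[ℝ] E →L[ℝ] ℝ) × E => lv q.1 q.2 := by
  unfold lv
  fun_prop

theorem isOpen_lev [FiniteDimensional ℝ E] : IsOpen {β : E →L[ℝ] E →L[ℝ] ℝ | Lev β} := by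
  have := FiniteDimensional.proper_real E
  simp only [lev_iff]
  exact isOpen_iff_eventually.2 fun β h =>
    (isCompact_sphere _ _).eventually_forall_of_forall_eventually (P := fun β v => 0 < lv β v)
      fun v hv => continuous_lv.continuousAt.eventually_const_lt (h v hv)

theorem Lev.rank [FiniteDimensional ℝ E] {β : E →L[ℝ] E →L[ℝ] ℝ} (h : Lev β) {N : Submodule ℝ E}
    (hN : ∀ v, v ≠ 0 → v ∈ N → β v v < 0) : 2 * finrank ℝ N ≤ finrank ℝ E := by
  let J : E ≃ₗ[ℝ] E := (LinearEquiv.smulOfNeZero ℂ E I I_ne_zero).restrictScalars ℝ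
  have := Submodule.finrank_add_finrank_le_of_disjoint (s := N) (t := N.map J.symm.toLinearMap)
    (Submodule.disjoint_def.2 fun v hv ⟨w, hw, e⟩ => by_contra fun h0 => by
      have h1 : w = I • v := (J.symm_apply_eq.1 e).trans rfl
      linarith [h v h0, hN v h0 hv, hN w (h1 ▸ smul_ne_zero I_ne_zero h0) hw,
        show lv β v = β v v + β w w by rw [h1, lv]])
  rw [LinearEquiv.finrank_map_eq] at this
  omega

omit [NormedSpace ℂ E] [IsScalarTower ℝ ℂ E] in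
theorem D2_congr {F G : E → ℝ} {w : E} (h : F =ᶠ[𝓝 w] G) : D2 F w = D2 G w :=
  h.fderiv.fderiv_eq

omit [NormedSpace ℂ E] [IsScalarTower ℝ ℂ E] in
theorem D2_add {F G : E → ℝ} {w : E} (hF : ContDiffAt ℝ 2 F w) (hG : ContDiffAt ℝ 2 G w) :
    D2 (fun u => F u + G u) w = D2 F w + D2 G w := by
  have : fderiv ℝ (fun u => F u + G u) =ᶠ[𝓝 w] fun u => fderiv ℝ F u + fderiv ℝ G u := by
    filter_upwards [hF.eventually (by simp), hG.eventually (by simp)] with u h1 h2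
    exact fderiv_fun_add (h1.differentiableAt two_ne_zero) (h2.differentiableAt two_ne_zero)
  rw [D2, this.fderiv_eq]
  exact fderiv_fun_add
    ((hF.fderiv_right (m := 1) (by norm_num)).differentiableAt one_ne_zero)
    ((hG.fderiv_right (m := 1) (by norm_num)).differentiableAt one_ne_zero)

omit [NormedSpace ℂ E] [IsScalarTower ℝ ℂ E] in
theorem D2_mul (c : ℝ) (F : E → ℝ) (w : E) : D2 (fun u => c * F u) w = c • D2 F w := by
  have : fderiv ℝ (fun u => c * F u) = c • fderiv ℝ F := fderiv_const_smul_field (𝕜 := ℝ) (f := F) c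
  rw [D2, this]
  exact congrFun (fderiv_const_smul_field (𝕜 := ℝ) (f := fderiv ℝ F) c) w

omit [IsScalarTower ℝ ℂ E] in
theorem lv_add (β β' : E →L[ℝ] E →L[ℝ] ℝ) (v : E) : lv (β + β') v = lv β v + lv β' v := by
  simp only [lv, add_apply]
  ring

omit [IsScalarTower ℝ ℂ E] in
theorem lv_smul (c : ℝ) (β : E →L[ℝ] E →L[ℝ] ℝ) (v : E) : lv (c • β) v = c * lv β v := by
  simp only [lv, smul_apply, smul_eq_mul]
  ring

/-- invariance of the Levi form under holomorphic maps -/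
theorem lv_comp [CompleteSpace V] {h : V → ℝ} {Φ : E → V} {w : E} (hh : ContDiffAt ℝ 2 h (Φ w))
    (hΦ : AnalyticAt ℂ Φ w) (v : E) :
    lv (D2 (h ∘ Φ) w) v = lv (D2 h (Φ w)) (fderiv ℂ Φ w v) := by
  have h1 := ((hh.fderiv_right (m := 1) (by norm_num)).differentiableAt one_ne_zero).hasFDerivAt
  have h2 := (hΦ.differentiableAt.hasFDerivAt).restrictScalars ℝ
  have h3 := ((hh.comp w (hΦ.contDiffAt.restrict_scalars ℝ)).fderiv_right (m := 1)
    (by norm_num)).differentiableAt one_ne_zero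
  have key : ∀ a, D2 (h ∘ Φ) w a a = D2 h (Φ w) (fderiv ℂ Φ w a) (fderiv ℂ Φ w a) +
      fderiv ℝ h (Φ w) (fderiv ℂ (fderiv ℂ Φ) w a a) := fun a => by
    have e1 : (fun u => fderiv ℝ (h ∘ Φ) u a) =ᶠ[𝓝 w]
        fun u => fderiv ℝ h (Φ u) (fderiv ℂ Φ u a) := by
      filter_upwards [hΦ.eventually_analyticAt,
        hΦ.continuousAt.eventually (hh.eventually (by simp))] with u a1 a2
      rw [((a2.differentiableAt two_ne_zero).hasFDerivAt.comp u
        (a1.differentiableAt.hasFDerivAt.restrictScalars ℝ)).fderiv]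
      rfl
    have d1 := (h3.hasFDerivAt.clm_apply (hasFDerivAt_const a w)).congr_of_eventuallyEq e1.symm
    have d2 := (h1.comp w h2).clm_apply ((hΦ.fderiv.differentiableAt.hasFDerivAt.clm_apply
      (hasFDerivAt_const a w)).restrictScalars ℝ)
    simpa [add_comm] using DFunLike.congr_fun (d1.unique d2) a
  simp only [lv, key, map_smul, smul_apply, smul_smul, I_mul_I, neg_smul, one_smul, map_neg]
  ring

theorem lv_norm_sq (z v : ℂ) : lv (D2 (fun z : ℂ => ‖z‖ ^ 2) z) v = 4 * ‖v‖ ^ 2 := by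
  have : D2 (fun z : ℂ => ‖z‖ ^ 2) z = 2 • innerSL ℝ := by
    rw [D2, fderiv_norm_sq]
    exact (2 • innerSL ℝ (E := ℂ)).fderiv
  have e : ∀ a : ℂ, innerSL ℝ a a = ‖a‖ ^ 2 := fun a => real_inner_self_eq_norm_sq a
  simp only [this, lv, smul_apply]
  rw [e, e, norm_smul, norm_I]
  ring

variable {ι κ : Type} [Fintype ι] [Fintype κ]

/-- the sum of the squared norms -/
def sq (b : ι → ℂ) : ℝ := ∑ i, ‖b i‖ ^ 2

theorem contDiff_sq : ContDiff ℝ 2 (sq : (ι → ℂ) → ℝ) :=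
  ContDiff.sum fun i _ => (contDiff_apply ℝ ℂ i).norm_sq ℝ

theorem sq_nonneg' (b : ι → ℂ) : 0 ≤ sq b := Finset.sum_nonneg fun _ _ => sq_nonneg _

theorem le_sq (b : ι → ℂ) (i : ι) : ‖b i‖ ^ 2 ≤ sq b :=
  Finset.single_le_sum (f := fun i => ‖b i‖ ^ 2) (fun _ _ => sq_nonneg _) (Finset.mem_univ i)

theorem sq_pos {b : ι → ℂ} (h : b ≠ 0) : 0 < sq b := by
  obtain ⟨i, hi⟩ := Function.ne_iff.1 h
  exact (pow_pos (norm_pos_iff.2 hi) 2).trans_le (le_sq b i)

theorem lv_sq (b v : ι → ℂ) : lv (D2 sq b) v = 4 * sq v := by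
  classical
  have key : ∀ s : Finset ι, lv (D2 (fun b : ι → ℂ => ∑ i ∈ s, ‖b i‖ ^ 2) b) v =
      4 * ∑ i ∈ s, ‖v i‖ ^ 2 := fun s => by
    induction s using Finset.induction_on with
    | empty => simp [lv, D2]
    | insert i s hi ih =>
      simp only [Finset.sum_insert hi]
      rw [D2_add ((contDiff_apply ℝ ℂ i).norm_sq ℝ).contDiffAt
        (ContDiff.sum fun i _ => (contDiff_apply ℝ ℂ i).norm_sq ℝ).contDiffAt, lv_add, ih, mul_add]
      congr 1
      let π : (ι → ℂ) →L[ℂ] ℂ := ContinuousLinearMap.proj i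
      have := lv_comp (h := fun z : ℂ => ‖z‖ ^ 2) (Φ := π) (w := b)
        (contDiff_norm_sq ℝ).contDiffAt (π.analyticAt b) v
      rw [lv_norm_sq, π.fderiv] at this
      exact this
  exact key Finset.univ

theorem lv_cut {θ : (ι → ℂ) → ℝ} (hθ : ContDiff ℝ 2 θ) {F : E → ι → ℂ} {τ : E → κ → ℂ} {w : E}
    (hF : AnalyticAt ℂ F w) (hτ : AnalyticAt ℂ τ w) {v : E} (hv : fderiv ℂ F w v = 0) :
    lv (D2 (fun u => θ (F u) * sq (τ u)) w) v = θ (F w) * (4 * sq (fderiv ℂ τ w v)) := by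
  let h : (ι → ℂ) × (κ → ℂ) → ℝ := fun q => θ q.1 * sq q.2
  have hh : ContDiff ℝ 2 h := (hθ.comp contDiff_fst).mul (contDiff_sq.comp contDiff_snd)
  have e1 := lv_comp (h := h) (Φ := fun u => (F u, τ u)) hh.contDiffAt (hF.prod hτ) v
  have e2 := lv_comp (h := h) (Φ := fun b => (F w, b)) (w := τ w) hh.contDiffAt
    (analyticAt_const.prod analyticAt_id) (fderiv ℂ τ w v)
  rw [(hF.differentiableAt.hasFDerivAt.prodMk hτ.differentiableAt.hasFDerivAt).fderiv] at e1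
  rw [(hasFDerivAt_prodMk_right (F w) (τ w)).fderiv] at e2
  simp only [ContinuousLinearMap.prod_apply, hv] at e1
  rw [← lv_sq (τ w), ← lv_smul, ← D2_mul]
  exact e1.trans e2.symm

variable {M : Type*} [TopologicalSpace M] [T2Space M] {n : ℕ}
  {𝒜 : OpenPartialHomeomorph M (Fin n → ℂ) → Prop} {f : M → ℝ} {x : M}

theorem finrank_cn (n : ℕ) : finrank ℝ (Fin n → ℂ) = 2 * n := by
  rw [Module.finrank_pi_fintype]
  simp [mul_comm]

theorem MA.le (h : MA 𝒜 Lev f x) : Reg f x ∨ ∃ k, k + 1 ≤ n + 1 ∧ Hdl f x k := by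
  refine h.hdl.imp_right fun ⟨k, h1, β, h2, N, P, h3, _, h5⟩ => ⟨k, ?_, h1⟩
  have := h2.rank fun v hv => (h5 v hv).1
  rw [finrank_cn] at this
  omega

theorem MA.ge (h : MA 𝒜 Lev f x) :
    Reg (fun y => -f y) x ∨ ∃ k, n + 1 ≤ k + 1 ∧ Hdl (fun y => -f y) x k := by
  refine h.neg.hdl.imp_right fun ⟨k, h1, β, h2, N, P, _, h4, h5⟩ => ⟨k, ?_, h1⟩
  have := Lev.rank h2 fun v hv hP => neg_neg_of_pos ((h5 v hv).2 hP)
  rw [finrank_cn] at this h4
  omega

end Pool.Agent.Lib.MP_356dfe_ag
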