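import Mathlib

-- part Pool.Agent.Lib.MP_356dfe_ag.Alg
section

/-! Rank counting over Folner sets for finite free chain models. -/

set_option autoImplicit false

open Set Module
open scoped Pointwise

noncomputable section

namespace Pool.Agent.Lib.MP_356dfe_ag

section Sat

variable {M M' : Type*} [AddCommGroup M] [AddCommGroup M']

/-- elements with a nonzero multiple in `P` -/
def sat (P : Submodule ℤ M) : Submodule ℤ M where
  carrier := {x | ∃ N : ℤ, N ≠ 0 ∧ N • x ∈ P}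
  zero_mem' := ⟨1, one_ne_zero, by simp⟩
  add_mem' := by
    rintro x y ⟨N, hN, hx⟩ ⟨N', hN', hy⟩
    refine ⟨N * N', mul_ne_zero hN hN', ?_⟩
    rw [smul_add]
    refine P.add_mem ?_ ?_
    · rw [mul_comm, mul_smul]; exact P.smul_mem _ hx
    · rw [mul_smul]; exact P.smul_mem _ hy
  smul_mem' := by
    rintro c x ⟨N, hN, hx⟩
    exact ⟨N, hN, by rw [smul_comm]; exact P.smul_mem _ hx⟩

theorem mem_sat {P : Submodule ℤ M} {x : M} : x ∈ sat P ↔ ∃ N : ℤ, N ≠ 0 ∧ N • x ∈ P := Iff.rfl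

theorem le_sat (P : Submodule ℤ M) : P ≤ sat P := fun x hx => ⟨1, one_ne_zero, by simpa using hx⟩

theorem sat_of_smul {P : Submodule ℤ M} {x : M} {N : ℤ} (hN : N ≠ 0) (h : N • x ∈ sat P) :
    x ∈ sat P := by
  obtain ⟨N', hN', h⟩ := h
  exact ⟨N' * N, mul_ne_zero hN' hN, by rwa [mul_smul]⟩

theorem sat_map {P : Submodule ℤ M} {Q : Submodule ℤ M'} (φ : M →ₗ[ℤ] M')
    (h : ∀ y ∈ P, φ y ∈ sat Q) {x : M} (hx : x ∈ sat P) : φ x ∈ sat Q := by
  obtain ⟨N, hN, hx⟩ := hx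
  exact sat_of_smul hN (by rw [← map_smul]; exact h _ hx)

theorem sat_le {P Q : Submodule ℤ M} (h : P ≤ sat Q) : sat P ≤ sat Q :=
  fun _ hx => sat_map LinearMap.id h hx

theorem sat_mono {P Q : Submodule ℤ M} (h : P ≤ Q) : sat P ≤ sat Q := sat_le (h.trans (le_sat Q))

theorem finrank_range_add_ker [Module.Finite ℤ M] (φ : M →ₗ[ℤ] M') :
    finrank ℤ (LinearMap.range φ) + finrank ℤ (LinearMap.ker φ) = finrank ℤ M := by
  rw [← φ.quotKerEquivRange.finrank_eq]
  exact Submodule.finrank_quotient_add_finrank _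

theorem finrank_add_ker (W : Submodule ℤ M) [Module.Finite ℤ W] (φ : M →ₗ[ℤ] M') :
    finrank ℤ W = finrank ℤ (W ⊓ LinearMap.ker φ : Submodule ℤ M) + finrank ℤ (W.map φ) := by
  have h1 := finrank_range_add_ker (φ.domRestrict W)
  have h2 : LinearMap.range (φ.domRestrict W) = W.map φ := LinearMap.range_domRestrict _ _
  have h3 : finrank ℤ (LinearMap.ker (φ.domRestrict W)) =
      finrank ℤ (W ⊓ LinearMap.ker φ : Submodule ℤ M) := by
    rw [← Submodule.finrank_map_subtype_eq W]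
    refine congrArg (fun P : Submodule ℤ M => finrank ℤ P) ?_
    ext x
    simp only [Submodule.mem_map, LinearMap.mem_ker, LinearMap.domRestrict_apply,
      Submodule.subtype_apply, Submodule.mem_inf]
    exact ⟨fun ⟨y, hy, e⟩ => e ▸ ⟨y.2, hy⟩, fun ⟨h1, h2⟩ => ⟨⟨x, h1⟩, h2, rfl⟩⟩
  rw [h2] at h1
  omega

theorem finrank_le_ker_add {W : Submodule ℤ M} [Module.Finite ℤ W] (φ : M →ₗ[ℤ] M')
    {R : Submodule ℤ M'} [Module.Finite ℤ R] (h : ∀ x ∈ W, φ x ∈ R) :
    finrank ℤ W ≤ finrank ℤ (W ⊓ LinearMap.ker φ : Submodule ℤ M) + finrank ℤ R := by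
  have h2 : finrank ℤ (W.map φ) ≤ finrank ℤ R :=
    Submodule.finrank_mono (by rintro _ ⟨x, hx, rfl⟩; exact h x hx)
  have := finrank_add_ker W φ
  omega

theorem finrank_sup_le (P Q : Submodule ℤ M) [Module.Finite ℤ P] [Module.Finite ℤ Q] :
    finrank ℤ (P ⊔ Q : Submodule ℤ M) ≤ finrank ℤ P + finrank ℤ Q := by
  have h1 := finrank_le_ker_add (W := P ⊔ Q) P.mkQ (R := Q.map P.mkQ) (fun x hx => by
    obtain ⟨a, ha, b, hb, rfl⟩ := Submodule.mem_sup.1 hx
    exact ⟨b, hb, by rw [map_add, (Submodule.Quotient.mk_eq_zero P).2 ha |> (show P.mkQ a = 0 from ·),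
      zero_add]⟩)
  have h2 : finrank ℤ ((P ⊔ Q) ⊓ LinearMap.ker P.mkQ : Submodule ℤ M) ≤ finrank ℤ P :=
    Submodule.finrank_mono (by rw [Submodule.ker_mkQ]; exact inf_le_right)
  have h3 : finrank ℤ (Q.map P.mkQ) ≤ finrank ℤ Q := Submodule.finrank_map_le _ _
  omega

theorem finite_of_le {W R : Submodule ℤ M} [Module.Finite ℤ R] (h : W ≤ R) : Module.Finite ℤ W :=
  Module.Finite.of_injective (Submodule.inclusion h) (Submodule.inclusion_injective h)

theorem finrank_le_of_sat {W R : Submodule ℤ M} [Module.Finite ℤ W] [Module.Finite ℤ R]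
    (h : W ≤ sat R) : finrank ℤ W ≤ finrank ℤ R := by
  have h1 := finrank_add_ker W R.mkQ
  have h2 : finrank ℤ (W.map R.mkQ) = 0 := by
    rw [Module.finrank_eq_zero_iff]
    rintro ⟨_, x, hx, rfl⟩
    obtain ⟨N, hN, hx⟩ := h hx
    exact ⟨N, hN, Subtype.ext (show N • R.mkQ x = 0 by
      rwa [← map_smul, Submodule.mkQ_apply, Submodule.Quotient.mk_eq_zero])⟩
  have h3 : finrank ℤ (W ⊓ LinearMap.ker R.mkQ : Submodule ℤ M) ≤ finrank ℤ R :=
    Submodule.finrank_mono (by rw [Submodule.ker_mkQ]; exact inf_le_right)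
  omega

/-- ranks of rational spaces from integral models -/
theorem rank_of_sat {H : Type*} [AddCommGroup H] [Module ℚ H] (Z Bd : Submodule ℤ M)
    [Module.Finite ℤ Z] (hB : Bd ≤ Z) (κ : Z →+ H) (R : Submodule ℚ H) (h1 : ∀ z, κ z ∈ R)
    (h2 : ∀ h ∈ R, ∃ N : ℤ, N ≠ 0 ∧ ∃ z, κ z = N • h) (h3 : ∀ z, κ z = 0 ↔ z.1 ∈ sat Bd) :
    Module.Finite ℚ R ∧ finrank ℚ R + finrank ℤ Bd = finrank ℤ Z := by
  let k : Z →ₗ[ℤ] R := (κ.codRestrict R.toAddSubgroup h1).toIntLinearMap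
  have hk : ∀ z, (k z).1 = κ z := fun _ => rfl
  have hs : ∀ h : R, ∃ N : ℤ, N ≠ 0 ∧ N • h ∈ LinearMap.range k := fun h => by
    obtain ⟨N, hN, z, hz⟩ := h2 h.1 h.2
    exact ⟨N, hN, z, Subtype.ext (by rw [hk, hz]; rfl)⟩
  have e1 : Module.rank ℤ R = Module.rank ℤ (LinearMap.range k) := by
    have := (LinearMap.range k).rank_quotient_add_rank
    rw [← this, rank_eq_zero_iff.2, zero_add]
    intro x
    obtain ⟨x, rfl⟩ := Submodule.mkQ_surjective _ x
    obtain ⟨N, hN, hx⟩ := hs x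
    exact ⟨N, hN, by rwa [← map_smul, Submodule.mkQ_apply, Submodule.Quotient.mk_eq_zero]⟩
  have e2 : Module.rank ℚ R = Module.rank ℤ R :=
    IsLocalization.rank_eq ℚ (nonZeroDivisors ℤ) le_rfl
  have hfin : Module.Finite ℚ R := by
    rw [← Module.rank_lt_aleph0_iff, e2, e1]
    exact Module.rank_lt_aleph0 _ _
  refine ⟨hfin, ?_⟩
  have e3 : finrank ℚ R = finrank ℤ (LinearMap.range k) := by
    unfold finrank
    rw [e2, e1]
  have e4 := finrank_range_add_ker k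
  have := finite_of_le hB
  have e5 : finrank ℤ (LinearMap.ker k) = finrank ℤ Bd := by
    rw [← Submodule.finrank_map_subtype_eq Z]
    have : Module.Finite ℤ ((LinearMap.ker k).map Z.subtype) :=
      finite_of_le (Submodule.map_subtype_le _ _)
    refine le_antisymm (finrank_le_of_sat ?_) (Submodule.finrank_mono fun x hx => ?_)
    · rintro _ ⟨z, hz, rfl⟩
      exact (h3 z).1 (by rw [← hk, hz]; rfl)
    · exact ⟨⟨x, hB hx⟩, Subtype.ext ((h3 _).2 (le_sat _ hx)), rfl⟩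
  omega

end Sat

variable {G J : Type*}

/-- model chains of degree `m` supported over `S` -/
def MC (deg : J → ℕ) (m : ℕ) (S : Set G) : Submodule ℤ ((G × J) →₀ ℤ) :=
  Finsupp.supported ℤ ℤ {q | q.1 ∈ S ∧ deg q.2 = m}

theorem mem_MC {deg : J → ℕ} {m : ℕ} {S : Set G} {x : (G × J) →₀ ℤ} :
    x ∈ MC deg m S ↔ ∀ q, x q ≠ 0 → q.1 ∈ S ∧ deg q.2 = m := by
  simp only [MC, Finsupp.mem_supported, subset_def, Finset.mem_coe, Finsupp.mem_support_iff,
    mem_ofPred_eq]

theorem MC_mono {deg : J → ℕ} {m : ℕ} {S S' : Set G} (h : S ⊆ S') : MC deg m S ≤ MC deg m S' :=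
  fun _ hx => mem_MC.2 fun q hq => ⟨h (mem_MC.1 hx q hq).1, (mem_MC.1 hx q hq).2⟩

theorem single_mem_MC {deg : J → ℕ} {m : ℕ} {S : Set G} {q : G × J} (h1 : q.1 ∈ S)
    (h2 : deg q.2 = m) (c : ℤ) : Finsupp.single q c ∈ MC deg m S :=
  Finsupp.single_mem_supported _ _ ⟨h1, h2⟩

theorem map_MC {N : Type*} [AddCommGroup N] (φ : ((G × J) →₀ ℤ) →ₗ[ℤ] N) {deg : J → ℕ} {m : ℕ}
    {S : Set G} (P : Submodule ℤ N)
    (h : ∀ g ∈ S, ∀ j, deg j = m → φ (Finsupp.single (g, j) 1) ∈ P) {x : (G × J) →₀ ℤ}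
    (hx : x ∈ MC deg m S) : φ x ∈ P := by
  rw [MC, Finsupp.supported_eq_span_single] at hx
  refine (Submodule.span_le.2 ?_ : _ ≤ P.comap φ) hx
  rintro _ ⟨q, hq, rfl⟩
  exact h q.1 hq.1 q.2 hq.2

theorem eq_zero_of_MC {deg : J → ℕ} {m : ℕ} {S : Set G} (h : ∀ j, deg j ≠ m) {x : (G × J) →₀ ℤ}
    (hx : x ∈ MC deg m S) : x = 0 := by
  ext q
  by_contra hq
  exact h _ (mem_MC.1 hx q hq).2

/-- number of cells of degree `m` -/
def cnt [Fintype J] (deg : J → ℕ) (m : ℕ) : ℕ := (Finset.univ.filter fun j => deg j = m).card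

theorem cnt_le [Fintype J] (deg : J → ℕ) (m : ℕ) : cnt deg m ≤ Fintype.card J :=
  Finset.card_le_univ _

theorem MC_coe [Fintype J] (deg : J → ℕ) (m : ℕ) (E : Finset G) :
    MC deg m (E : Set G) =
      Finsupp.supported ℤ ℤ ((E ×ˢ Finset.univ.filter fun j => deg j = m : Finset _) : Set _) := by
  unfold MC
  congr 1
  ext q
  simp

instance finite_MC [Fintype J] (deg : J → ℕ) (m : ℕ) (E : Finset G) :
    Module.Finite ℤ (MC deg m (E : Set G)) := by
  rw [MC_coe]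
  exact Module.Finite.equiv (Finsupp.supportedEquivFinsupp _).symm

theorem finrank_MC [Fintype J] (deg : J → ℕ) (m : ℕ) (E : Finset G) :
    finrank ℤ (MC deg m (E : Set G)) = E.card * cnt deg m := by
  rw [MC_coe, (Finsupp.supportedEquivFinsupp _).finrank_eq, finrank_finsupp_self]
  simp [cnt]

open Classical in
/-- restriction of model chains to the part over `S` -/
def pr (S : Set G) : ((G × J) →₀ ℤ) →ₗ[ℤ] ((G × J) →₀ ℤ) :=
  (Finsupp.filterAddHom fun q => q.1 ∈ S).toIntLinearMap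

open Classical in
theorem pr_apply (S : Set G) (x : (G × J) →₀ ℤ) (q : G × J) :
    pr S x q = if q.1 ∈ S then x q else 0 := Finsupp.filter_apply _ _ _

theorem pr_mem {deg : J → ℕ} {m : ℕ} {S S' : Set G} {x : (G × J) →₀ ℤ} (hx : x ∈ MC deg m S') :
    pr S x ∈ MC deg m (S' ∩ S) := by
  refine mem_MC.2 fun q hq => ?_
  rw [pr_apply] at hq
  split_ifs at hq with h
  · exact ⟨⟨(mem_MC.1 hx q hq).1, h⟩, (mem_MC.1 hx q hq).2⟩
  · exact absurd rfl hq

theorem pr_add_compl (S : Set G) (x : (G × J) →₀ ℤ) : pr S x + pr Sᶜ x = x := by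
  ext q
  by_cases h : q.1 ∈ S <;> simp [pr_apply, h]

theorem pr_eq_zero {deg : J → ℕ} {m : ℕ} {S S' : Set G} {x : (G × J) →₀ ℤ} (hx : x ∈ MC deg m S')
    (h : Disjoint S' S) : pr S x = 0 := by
  have := pr_mem (S := S) hx
  rw [h.inter_eq] at this
  ext q
  by_contra hq
  exact (mem_MC.1 this q hq).1

variable [Fintype J] (deg : J → ℕ) (d : ((G × J) →₀ ℤ) →ₗ[ℤ] ((G × J) →₀ ℤ))

/-- rank of the cycles over `E` -/
def zr (E : Finset G) (i : ℕ) : ℕ :=
  finrank ℤ (MC deg (i + 1) (E : Set G) ⊓ LinearMap.ker d : Submodule ℤ _)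

/-- rank of the boundaries of chains over `E` -/
def br (E : Finset G) (i : ℕ) : ℕ := finrank ℤ ((MC deg (i + 1) (E : Set G)).map d)

theorem telescope (E : Finset G) (Mx : ℕ) (hM : ∀ j, deg j ≤ Mx)
    (hd1 : ∀ x ∈ MC deg 1 (univ : Set G), d x = 0) :
    ∑ i ∈ Finset.range Mx, (-1 : ℤ) ^ i * (E.card * cnt deg (i + 1)) =
      ∑ i ∈ Finset.range Mx, (-1 : ℤ) ^ i * (zr deg d E i - br deg d E (i + 1)) := by
  have h0 : br deg d E 0 = 0 := by
    have : (MC deg (0 + 1) (E : Set G)).map d = ⊥ := by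
      rw [eq_bot_iff]
      rintro _ ⟨x, hx, rfl⟩
      exact hd1 x (MC_mono (subset_univ _) hx)
    rw [br, this, finrank_bot]
  have h1 : br deg d E Mx = 0 := by
    have : (MC deg (Mx + 1) (E : Set G)).map d = ⊥ := by
      rw [eq_bot_iff]
      rintro _ ⟨x, hx, rfl⟩
      rw [eq_zero_of_MC (fun j => by have := hM j; omega) hx, map_zero]
      exact Submodule.zero_mem _
    rw [br, this, finrank_bot]
  have h2 : ∀ k, ∑ i ∈ Finset.range k, (-1 : ℤ) ^ i * (E.card * cnt deg (i + 1)) =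
      ∑ i ∈ Finset.range k, (-1 : ℤ) ^ i * (zr deg d E i - br deg d E (i + 1)) -
        (-1) ^ k * br deg d E k := by
    intro k
    induction k with
    | zero => simp [h0]
    | succ k ih =>
      have := finrank_add_ker (MC deg (k + 1) (E : Set G)) d
      rw [finrank_MC] at this
      have e : (E.card * cnt deg (k + 1) : ℤ) = zr deg d E k + br deg d E k := by
        exact_mod_cast this
      rw [Finset.sum_range_succ, Finset.sum_range_succ, ih, e]
      ring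
  rw [h2, h1]
  simp

theorem folner_sign [Group G] [DecidableEq G] (n Mx : ℕ) (hM : ∀ j, deg j ≤ Mx) {T : Set G}
    (hT : T.Finite)
    (hF : ∀ (T : Finset G) (ε : ℝ), 0 < ε → ∃ E : Finset G, E.Nonempty ∧
      (((E * T) \ E).card : ℝ) ≤ ε * E.card)
    (hd : ∀ m (S : Set G), ∀ x ∈ MC deg (m + 2) S, d x ∈ MC deg (m + 1) (S * T))
    (hd1 : ∀ x ∈ MC deg 1 (univ : Set G), d x = 0)
    (hdd : ∀ m, ∀ x ∈ MC deg (m + 2) (univ : Set G), d (d x) = 0)
    (hex : ∀ m, m ≠ n → ∀ E : Finset G, ∀ z ∈ MC deg (m + 1) (univ : Set G), d z = 0 →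
      ∃ N : ℤ, N ≠ 0 ∧ ∃ w ∈ MC deg (m + 2) (univ : Set G), pr E (N • z - d w) = 0) :
    0 ≤ (-1 : ℤ) ^ n * ∑ i ∈ Finset.range Mx, (-1 : ℤ) ^ i * cnt deg (i + 1) := by
  obtain ⟨T, rfl⟩ := hT.exists_finset_coe
  obtain ⟨c, hc⟩ : ∃ c : ℕ, ∀ m, cnt deg m ≤ c := ⟨_, cnt_le deg⟩
  obtain ⟨E, hE, hb⟩ := hF (T ∪ T⁻¹) (1 / (Mx * c + 1)) (by positivity)
  set b := ((E * (T ∪ T⁻¹)) \ E).card
  have hb1 : ((E * T) \ E).card ≤ b := Finset.card_le_card
    (Finset.sdiff_subset_sdiff (Finset.mul_subset_mul_left Finset.subset_union_left) subset_rfl)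
  have hb2 : ((E * T⁻¹) \ E).card ≤ b := Finset.card_le_card
    (Finset.sdiff_subset_sdiff (Finset.mul_subset_mul_left Finset.subset_union_right) subset_rfl)
  have A : ∀ i, br deg d E (i + 1) ≤ zr deg d E i + c * b := by
    intro i
    let W : Submodule ℤ _ := MC deg (i + 1) ((E * T : Finset G) : Set G) ⊓ LinearMap.ker d
    have : Module.Finite ℤ W := finite_of_le inf_le_left
    have h1 : br deg d E (i + 1) ≤ finrank ℤ W := by
      refine Submodule.finrank_mono ?_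
      rintro _ ⟨x, hx, rfl⟩
      exact ⟨by simpa using hd i _ x hx, hdd i x (MC_mono (subset_univ _) hx)⟩
    have h2 := finrank_le_ker_add (W := W) (pr (E : Set G)ᶜ)
      (R := MC deg (i + 1) (((E * T) \ E : Finset G) : Set G))
      (fun x hx => by simpa [sdiff_eq] using pr_mem hx.1)
    have : Module.Finite ℤ (MC deg (i + 1) (E : Set G) ⊓ LinearMap.ker d : Submodule ℤ _) :=
      finite_of_le inf_le_left
    have h3 : finrank ℤ (W ⊓ LinearMap.ker (pr (E : Set G)ᶜ) : Submodule ℤ _) ≤ zr deg d E i := by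
      refine Submodule.finrank_mono fun x hx => ⟨?_, hx.1.2⟩
      have e := pr_add_compl (E : Set G) x
      rw [LinearMap.mem_ker.1 hx.2, add_zero] at e
      rw [← e]
      exact MC_mono inter_subset_right (pr_mem hx.1.1)
    rw [finrank_MC] at h2
    have h4 := Nat.mul_le_mul hb1 (hc (i + 1))
    rw [mul_comm b] at h4
    omega
  have B : ∀ i, i ≠ n → zr deg d E i ≤ br deg d E (i + 1) + c * b := by
    intro i hi
    let R1 := ((MC deg (i + 2) (E : Set G)).map d).map (pr (E : Set G))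
    let R2 := (MC deg (i + 2) (((E * T⁻¹) \ E : Finset G) : Set G)).map ((pr (E : Set G)).comp d)
    have : Module.Finite ℤ (MC deg (i + 1) (E : Set G) ⊓ LinearMap.ker d : Submodule ℤ _) :=
      finite_of_le inf_le_left
    have h1 : zr deg d E i ≤ finrank ℤ (R1 ⊔ R2 : Submodule ℤ _) := by
      refine finrank_le_of_sat fun z hz => ?_
      obtain ⟨N, hN, w, hw, e⟩ := hex i hi E z (MC_mono (subset_univ _) hz.1) hz.2
      refine ⟨N, hN, ?_⟩
      have e1 : pr (E : Set G) (N • z) = N • z := by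
        have := pr_add_compl (E : Set G) (N • z)
        rwa [pr_eq_zero (Submodule.smul_mem _ N hz.1) disjoint_compl_right, add_zero] at this
      rw [map_sub, e1, sub_eq_zero] at e
      have e2 := pr_add_compl (E : Set G) w
      have e3 := pr_add_compl ((E * T⁻¹ : Finset G) : Set G) (pr (E : Set G)ᶜ w)
      have e4 : pr (E : Set G) (d (pr ((E * T⁻¹ : Finset G) : Set G)ᶜ (pr (E : Set G)ᶜ w))) = 0 := by
        refine pr_eq_zero (hd i _ _ (pr_mem (pr_mem hw))) (disjoint_left.2 ?_)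
        rintro _ ⟨g, hg, t, ht, rfl⟩ hgt
        refine hg.2 ?_
        rw [Finset.coe_mul, Finset.coe_inv]
        exact ⟨g * t, hgt, t⁻¹, by simpa using ht, by simp⟩
      rw [e, ← e2, map_add, map_add, ← e3, map_add, map_add, e4, add_zero]
      refine Submodule.add_mem_sup ⟨_, ⟨_, ?_, rfl⟩, rfl⟩ ⟨_, ?_, rfl⟩
      · exact MC_mono inter_subset_right (pr_mem hw)
      · refine MC_mono ?_ (pr_mem (pr_mem hw))
        rintro g ⟨⟨-, h1⟩, h2⟩
        simpa using ⟨by simpa using h2, h1⟩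
    have h2 := finrank_sup_le R1 R2
    have h3 : finrank ℤ R1 ≤ br deg d E (i + 1) := Submodule.finrank_map_le _ _
    have h4 : finrank ℤ R2 ≤ _ := Submodule.finrank_map_le _ _
    rw [finrank_MC] at h4
    have h5 := Nat.mul_le_mul hb2 (hc (i + 2))
    rw [mul_comm b] at h5
    omega
  have key : -(Mx * (c * b) : ℤ) ≤ E.card *
      ((-1 : ℤ) ^ n * ∑ i ∈ Finset.range Mx, (-1 : ℤ) ^ i * cnt deg (i + 1)) := by
    have e : E.card * ((-1 : ℤ) ^ n * ∑ i ∈ Finset.range Mx, (-1 : ℤ) ^ i * cnt deg (i + 1)) =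
        ∑ i ∈ Finset.range Mx, (-1 : ℤ) ^ n * ((-1) ^ i * (zr deg d E i - br deg d E (i + 1))) := by
      rw [← Finset.mul_sum, ← telescope deg d E Mx hM hd1, Finset.mul_sum, Finset.mul_sum,
        Finset.mul_sum]
      exact Finset.sum_congr rfl fun i _ => by ring
    have e' : -(Mx * (c * b) : ℤ) = ∑ i ∈ Finset.range Mx, -(c * b : ℤ) := by simp
    rw [e, e']
    refine Finset.sum_le_sum fun i _ => ?_
    have a1 : (br deg d E (i + 1) : ℤ) ≤ zr deg d E i + c * b := by exact_mod_cast A i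
    by_cases hi : i = n
    · subst hi
      rw [← mul_assoc, ← pow_add, Even.neg_one_pow ⟨i, rfl⟩]
      linarith
    · have a2 : (zr deg d E i : ℤ) ≤ br deg d E (i + 1) + c * b := by exact_mod_cast B i hi
      rw [← mul_assoc, ← pow_add]
      rcases neg_one_pow_eq_or ℤ (n + i) with h | h <;> rw [h] <;> linarith
  by_contra hneg
  have h1 : (-1 : ℤ) ^ n * ∑ i ∈ Finset.range Mx, (-1 : ℤ) ^ i * cnt deg (i + 1) ≤ -1 := by omega
  have hE' : (0 : ℤ) < E.card := by exact_mod_cast hE.card_pos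
  have h2 : (E.card : ℤ) ≤ Mx * (c * b) := by nlinarith
  have h3 : (E.card : ℝ) ≤ Mx * (c * b) := by exact_mod_cast h2
  have h4 : (0 : ℝ) < E.card := by exact_mod_cast hE.card_pos
  rw [div_mul_eq_mul_div, one_mul, le_div_iff₀ (by positivity)] at hb
  have h5 : (0 : ℝ) ≤ b := Nat.cast_nonneg _
  rcases h5.eq_or_lt with h6 | h6
  · rw [← h6] at h3
    linarith
  · nlinarith

end Pool.Agent.Lib.MP_356dfe_ag
end
end

-- part Pool.Agent.Lib.MP_356dfe_ag.Move
section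

/-! Homotopies that push a function down, built from straight pushes in charts. -/

set_option autoImplicit false

open Set Filter Topology Metric

noncomputable section

namespace Pool.Agent.Lib.MP_356dfe_ag

variable {M : Type*} [TopologicalSpace M] {Ω B : Set M} {f : M → ℝ} {x : M}

/-- a homotopy supported in `Ω` that does not increase `f` and preserves `B` -/
structure Move (Ω : Set M) (f : M → ℝ) (B : Set M) (H : C(ℝ × M, M)) : Prop where
  zero : ∀ y, H (0, y) = y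
  out : ∀ t y, y ∉ Ω → H (t, y) = y
  mem : ∀ t, ∀ y ∈ Ω, H (t, y) ∈ Ω
  le : ∀ t, ∀ y ∈ Ω, f (H (t, y)) ≤ f y
  pres : ∀ t, ∀ y ∈ B, H (t, y) ∈ B
  lt : ∀ y ∈ Ω, H (1, y) = y ∨ f (H (1, y)) < f y

theorem Move.id : Move Ω f B ContinuousMap.snd :=
  ⟨fun _ => rfl, fun _ _ _ => rfl, fun _ _ h => h, fun _ _ _ => le_rfl, fun _ _ h => h,
    fun _ _ => Or.inl rfl⟩

/-- simultaneous composition of homotopies -/
def hcomp (H H' : C(ℝ × M, M)) : C(ℝ × M, M) := H.comp (ContinuousMap.fst.prodMk H')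

theorem hcomp_apply (H H' : C(ℝ × M, M)) (t : ℝ) (y : M) :
    hcomp H H' (t, y) = H (t, H' (t, y)) := rfl

theorem Move.comp {H H' : C(ℝ × M, M)} (h : Move Ω f B H) (h' : Move Ω f B H') :
    Move Ω f B (hcomp H H') := by
  refine ⟨fun y => by rw [hcomp_apply, h'.zero, h.zero],
    fun t y hy => by rw [hcomp_apply, h'.out t y hy, h.out t y hy],
    fun t y hy => h.mem t _ (h'.mem t y hy),
    fun t y hy => (h.le t _ (h'.mem t y hy)).trans (h'.le t y hy),
    fun t y hy => h.pres t _ (h'.pres t y hy), fun y hy => ?_⟩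
  rw [hcomp_apply]
  rcases h'.lt y hy with e | e
  · rw [e]; exact h.lt y hy
  · exact Or.inr ((h.le 1 _ (h'.mem 1 y hy)).trans_lt e)

theorem Move.comp_lt {H H' : C(ℝ × M, M)} (h : Move Ω f B H) (h' : Move Ω f B H') {y : M}
    (hy : y ∈ Ω) (hl : f (H (1, y)) < f y ∨ f (H' (1, y)) < f y) : f (hcomp H H' (1, y)) < f y := by
  rw [hcomp_apply]
  rcases h'.lt y hy with e | e
  · rw [e] at hl ⊢
    exact hl.resolve_right (lt_irrefl _)
  · exact (h.le 1 _ (h'.mem 1 y hy)).trans_lt e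

/-- in some chart there is a direction that decreases `f` and preserves `B` near `x` -/
def Dir (f : M → ℝ) (B : Set M) (x : M) : Prop :=
  ∃ (E : Type) (_ : NormedAddCommGroup E) (_ : NormedSpace ℝ E) (_ : FiniteDimensional ℝ E)
    (e : OpenPartialHomeomorph M E) (v : E), x ∈ e.source ∧ ContDiffAt ℝ 1 (f ∘ e.symm) (e x) ∧
    fderiv ℝ (f ∘ e.symm) (e x) v < 0 ∧ ∃ r > 0, ∀ w ∈ ball (e x) r, ∀ τ : ℝ, 0 ≤ τ →
      w + τ • v ∈ ball (e x) r → e.symm w ∈ B → e.symm (w + τ • v) ∈ B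

/-- `x` is a regular point of `f` in some chart -/
def Reg (f : M → ℝ) (x : M) : Prop :=
  ∃ (E : Type) (_ : NormedAddCommGroup E) (_ : NormedSpace ℝ E) (_ : FiniteDimensional ℝ E)
    (e : OpenPartialHomeomorph M E), x ∈ e.source ∧ ContDiffAt ℝ 1 (f ∘ e.symm) (e x) ∧
    fderiv ℝ (f ∘ e.symm) (e x) ≠ 0

theorem symm_eventually {E : Type*} [TopologicalSpace E] (e : OpenPartialHomeomorph M E)
    (hx : x ∈ e.source) {p : M → Prop} (h : ∀ᶠ y in 𝓝 x, p y) : ∀ᶠ w in 𝓝 (e x), p (e.symm w) :=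
  (e.tendsto_symm hx).eventually h

theorem Dir.congr {B' : Set M} (h : Dir f B x) (hB : ∀ᶠ y in 𝓝 x, y ∈ B ↔ y ∈ B') : Dir f B' x := by
  obtain ⟨E, _, _, _, e, v, hx, h1, h2, r, hr, h3⟩ := h
  obtain ⟨r', hr', h4⟩ := Metric.eventually_nhds_iff_ball.1 (symm_eventually e hx hB)
  refine ⟨E, _, _, inferInstance, e, v, hx, h1, h2, min r r', lt_min hr hr', fun w hw τ hτ hw' hb => ?_⟩
  have a1 := ball_subset_ball (x := e x) (min_le_left r r')
  have a2 := ball_subset_ball (x := e x) (min_le_right r r')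
  exact (h4 _ (a2 hw')).1 (h3 w (a1 hw) τ hτ (a1 hw') ((h4 _ (a2 hw)).2 hb))

theorem Reg.dir (h : Reg f x) (hB : B ∈ 𝓝 x ∨ Bᶜ ∈ 𝓝 x) : Dir f B x := by
  obtain ⟨E, _, _, _, e, hx, h1, h2⟩ := h
  obtain ⟨v, hv⟩ : ∃ v, fderiv ℝ (f ∘ e.symm) (e x) v < 0 := by
    obtain ⟨v, hv⟩ := DFunLike.ne_iff.1 h2
    rcases lt_or_gt_of_ne hv with h | h
    · exact ⟨v, h⟩
    · exact ⟨-v, by rw [map_neg]; exact neg_neg_of_pos h⟩
  rcases hB with hB | hB
  · exact Dir.congr (B := univ) ⟨E, _, _, inferInstance, e, v, hx, h1, hv, 1, one_pos,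
      fun _ _ _ _ _ _ => trivial⟩ (mem_of_superset hB fun y hy => by simpa using hy)
  · exact Dir.congr (B := ∅) ⟨E, _, _, inferInstance, e, v, hx, h1, hv, 1, one_pos,
      fun _ _ _ _ _ h => h⟩ (mem_of_superset hB fun y hy => by simpa using hy)

theorem Reg.eventually (h : Reg f x) : ∀ᶠ y in 𝓝 x, Reg f y := by
  obtain ⟨E, _, _, _, e, hx, h1, h2⟩ := h
  have a1 := h1.eventually (by simp)
  have a2 := (h1.fderiv_right (m := 0) (by simp)).continuousAt.eventually_ne h2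
  filter_upwards [(e.continuousAt hx).eventually (a1.and a2), e.open_source.mem_nhds hx] with y hy hy'
  exact ⟨E, _, _, inferInstance, e, hy', hy.1, hy.2⟩

theorem Reg.congr {f' : M → ℝ} (h : Reg f x) (hf : f' =ᶠ[𝓝 x] f) : Reg f' x := by
  obtain ⟨E, _, _, _, e, hx, h1, h2⟩ := h
  have : f' ∘ e.symm =ᶠ[𝓝 (e x)] f ∘ e.symm := symm_eventually e hx hf
  exact ⟨E, _, _, inferInstance, e, hx, h1.congr_of_eventuallyEq this, by rwa [this.fderiv_eq]⟩

theorem Reg.comp (h : Reg f x) {g : ℝ → ℝ} (hg : ContDiff ℝ 1 g) (h0 : deriv g (f x) ≠ 0) :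
    Reg (fun y => g (f y)) x := by
  obtain ⟨E, _, _, _, e, hx, h1, h2⟩ := h
  refine ⟨E, _, _, inferInstance, e, hx, hg.contDiffAt.comp _ h1, ?_⟩
  have := (hg.differentiable one_ne_zero _).hasDerivAt.comp_hasFDerivAt (e x)
    (h1.differentiableAt one_ne_zero).hasFDerivAt
  rw [show (fun y => g (f y)) ∘ e.symm = g ∘ f ∘ e.symm from rfl, this.fderiv]
  simp only [Function.comp_apply, e.left_inv hx]
  exact smul_ne_zero h0 h2

variable [T2Space M]

theorem Dir.move (h : Dir f B x) (hΩ : IsOpen Ω) (hx : x ∈ Ω) :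
    ∃ H, Move Ω f B H ∧ ∀ᶠ y in 𝓝 x, f (H (1, y)) < f y := by
  classical
  obtain ⟨E, _, _, _, e, v, hs, h1, h2, r₀, hr₀, h3⟩ := h
  set F := f ∘ e.symm
  have a1 : ∀ᶠ w in 𝓝 (e x), DifferentiableAt ℝ F w :=
    (h1.eventually (by simp)).mono fun w hw => hw.differentiableAt one_ne_zero
  have a2 : ∀ᶠ w in 𝓝 (e x), fderiv ℝ F w v < 0 :=
    (((h1.fderiv_right (m := 0) (by simp)).continuousAt.clm_apply continuousAt_const)).eventually_lt
      continuousAt_const h2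
  obtain ⟨r, hr, h4⟩ := Metric.eventually_nhds_iff_ball.1 (a1.and (a2.and
    ((symm_eventually e hs (hΩ.mem_nhds hx)).and (Filter.Eventually.and
      (e.open_target.mem_nhds (e.map_source hs)) (ball_mem_nhds (e x) hr₀)))))
  let τ : ℝ × E → ℝ := fun q => max 0 (min q.1 1) * (max 0 (r / 2 - ‖q.2 - e x‖) / (‖v‖ + 1))
  have τc : Continuous τ := by
    refine Continuous.mul (by fun_prop) (Continuous.div_const (by fun_prop) _)
  have τ0 : ∀ q, 0 ≤ τ q := fun q => by positivity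
  have τb : ∀ q : ℝ × E, q.2 ∈ ball (e x) r → ∀ s ∈ Icc 0 (τ q), q.2 + s • v ∈ ball (e x) r := by
    intro q hq s hs'
    rw [mem_ball_iff_norm] at hq ⊢
    have b1 : max 0 (min q.1 1) ≤ 1 := max_le zero_le_one (min_le_right _ _)
    have b2 : τ q * ‖v‖ ≤ max 0 (r / 2 - ‖q.2 - e x‖) := by
      have b3 : 0 ≤ max 0 (r / 2 - ‖q.2 - e x‖) := le_max_left _ _
      calc τ q * ‖v‖ ≤ 1 * (max 0 (r / 2 - ‖q.2 - e x‖) / (‖v‖ + 1)) * (‖v‖ + 1) := by
            refine mul_le_mul (mul_le_mul_of_nonneg_right b1 (by positivity)) (by linarith)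
              (norm_nonneg _) (by positivity)
        _ = _ := by field_simp
    have b4 : ‖q.2 + s • v - e x‖ ≤ ‖q.2 - e x‖ + s * ‖v‖ := by
      rw [add_sub_right_comm]
      refine (norm_add_le _ _).trans ?_
      rw [norm_smul, Real.norm_of_nonneg hs'.1]
    have b5 : s * ‖v‖ ≤ τ q * ‖v‖ := mul_le_mul_of_nonneg_right hs'.2 (norm_nonneg _)
    rcases le_total 0 (r / 2 - ‖q.2 - e x‖) with h | h
    · rw [max_eq_right h] at b2
      linarith
    · rw [max_eq_left h] at b2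
      linarith
  have τb' : ∀ q : ℝ × E, q.2 ∈ ball (e x) r → q.2 + τ q • v ∈ ball (e x) r :=
    fun q hq => τb q hq _ ⟨τ0 q, le_rfl⟩
  have dec : ∀ q : ℝ × E, q.2 ∈ ball (e x) r → 0 < τ q → F (q.2 + τ q • v) < F q.2 := by
    intro q hq hp
    have hd : ∀ s ∈ Icc 0 (τ q), HasDerivAt (fun s : ℝ => F (q.2 + s • v))
        (fderiv ℝ F (q.2 + s • v) v) s := fun s hs' => by
      have := (h4 _ (τb q hq s hs')).1.hasFDerivAt.comp_hasDerivAt s
        (((hasDerivAt_id s).smul_const v).const_add q.2)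
      rw [one_smul] at this
      exact this
    have := strictAntiOn_of_deriv_neg (convex_Icc 0 (τ q))
      (fun s hs' => (hd s hs').continuousAt.continuousWithinAt)
      (fun s hs' => by
        rw [(hd s (interior_subset hs')).deriv]
        exact (h4 _ (τb q hq s (interior_subset hs'))).2.1)
      ⟨le_rfl, hp.le⟩ ⟨hp.le, le_rfl⟩ hp
    simpa using this
  let O : Set M := e.source ∩ e ⁻¹' ball (e x) r
  have hO : IsOpen O := e.isOpen_inter_preimage isOpen_ball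
  let H : ℝ × M → M := fun q => if q.2 ∈ O then e.symm (e q.2 + τ (q.1, e q.2) • v) else q.2
  have Hin : ∀ t, ∀ y ∈ O, H (t, y) = e.symm (e y + τ (t, e y) • v) := fun t y hy => if_pos hy
  have Hout : ∀ t, ∀ y ∉ O, H (t, y) = y := fun t y hy => if_neg hy
  have H0 : ∀ t y, τ (t, e y) = 0 → H (t, y) = y := fun t y h0 => by
    by_cases hy : y ∈ O
    · rw [Hin t y hy, h0, zero_smul, add_zero, e.left_inv hy.1]
    · exact Hout t y hy
  have hK : IsCompact (e.symm '' closedBall (e x) (r / 2)) :=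
    (isCompact_closedBall _ _).image_of_continuousOn (e.continuousOn_symm.mono fun w hw =>
      (h4 w (closedBall_subset_ball (half_lt_self hr) hw)).2.2.2.1)
  have Hc : Continuous H := by
    rw [continuous_iff_continuousAt]
    rintro ⟨t, y⟩
    by_cases hy : y ∈ O
    · have c1 : ContinuousAt (fun q : ℝ × M => e q.2) (t, y) :=
        (e.continuousAt hy.1).comp_of_eq continuousAt_snd rfl
      have c2 : ContinuousAt (fun q : ℝ × M => e q.2 + τ (q.1, e q.2) • v) (t, y) :=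
        c1.add ((τc.continuousAt.comp (continuousAt_fst.prodMk c1)).smul continuousAt_const)
      refine ((e.continuousAt_symm (h4 _ (τb' (t, e y) hy.2)).2.2.2.1).comp_of_eq c2
        rfl).congr ?_
      filter_upwards [continuousAt_snd.eventually (hO.mem_nhds (show (t, y).2 ∈ O from hy))] with q hq
      exact (Hin q.1 q.2 hq).symm
    · have hy' : y ∉ e.symm '' closedBall (e x) (r / 2) := by
        rintro ⟨w, hw, rfl⟩
        have hw' := closedBall_subset_ball (half_lt_self hr) hw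
        have ht := (h4 w hw').2.2.2.1
        exact hy ⟨e.map_target ht, by rwa [mem_preimage, e.right_inv ht]⟩
      refine continuousAt_snd.congr ?_
      filter_upwards [continuousAt_snd.eventually (hK.isClosed.isOpen_compl.mem_nhds
        (show (t, y).2 ∈ _ from hy'))] with q hq
      by_cases hq' : q.2 ∈ O
      · refine (H0 q.1 q.2 ?_).symm
        have : r / 2 ≤ ‖e q.2 - e x‖ := by
          by_contra hlt
          exact hq ⟨e q.2, mem_closedBall_iff_norm.2 (not_le.1 hlt).le, e.left_inv hq'.1⟩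
        simp only [τ]
        rw [max_eq_left (sub_nonpos.2 this), zero_div, mul_zero]
      · exact (Hout q.1 q.2 hq').symm
  have hOΩ : O ⊆ Ω := fun y hy => by
    have := (h4 _ hy.2).2.2.1
    rwa [e.left_inv hy.1] at this
  have hlt : ∀ t y, H (t, y) = y ∨ f (H (t, y)) < f y := fun t y => by
    by_cases hy : y ∈ O
    · rcases (τ0 (t, e y)).eq_or_lt with h0 | h0
      · exact Or.inl (H0 t y h0.symm)
      · have := dec (t, e y) hy.2 h0
        simp only [F, Function.comp_apply, e.left_inv hy.1] at this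
        exact Or.inr (by rwa [Hin t y hy])
    · exact Or.inl (Hout t y hy)
  refine ⟨⟨H, Hc⟩, ⟨fun y => H0 0 y (by simp [τ]), fun t y hy => Hout t y fun h => hy (hOΩ h),
    fun t y hy => ?_, fun t y _ => ?_, fun t y hy => ?_, fun y _ => hlt 1 y⟩, ?_⟩
  · change H (t, y) ∈ Ω
    by_cases hy' : y ∈ O
    · rw [Hin t y hy']
      exact (h4 _ (τb' (t, e y) hy'.2)).2.2.1
    · rwa [Hout t y hy']
  · rcases hlt t y with h | h
    · exact (congrArg f h).le
    · exact h.le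
  · change H (t, y) ∈ B
    by_cases hy' : y ∈ O
    · rw [Hin t y hy']
      exact h3 _ (h4 _ hy'.2).2.2.2.2 _ (τ0 _) (h4 _ (τb' (t, e y) hy'.2)).2.2.2.2
        (by rwa [e.left_inv hy'.1])
    · rwa [Hout t y hy']
  · filter_upwards [e.open_source.mem_nhds hs,
      (e.continuousAt hs).eventually (ball_mem_nhds (e x) (half_pos hr))] with y hy hy'
    have hy'' : y ∈ O := ⟨hy, ball_subset_ball (half_le_self hr.le) hy'⟩
    have h0 : 0 < τ (1, e y) := by
      have := mem_ball_iff_norm.1 hy'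
      have : 0 < max 0 (r / 2 - ‖e y - e x‖) := lt_max_of_lt_right (by linarith)
      simp only [τ, min_self, max_eq_right zero_le_one]
      positivity
    have := dec (1, e y) hy''.2 h0
    simp only [F, Function.comp_apply, e.left_inv hy] at this
    change f (H (1, y)) < f y
    rwa [Hin 1 y hy'']

theorem exists_move_lt (hΩ : IsOpen Ω) {Z : Set M} (hZ : IsCompact Z) (hZΩ : Z ⊆ Ω)
    (hd : ∀ x ∈ Z, Dir f B x) : ∃ H, Move Ω f B H ∧ ∀ y ∈ Z, y ∈ Ω → f (H (1, y)) < f y := by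
  refine hZ.induction_on (p := fun S => ∃ H, Move Ω f B H ∧ ∀ y ∈ S, y ∈ Ω → f (H (1, y)) < f y)
    ⟨_, Move.id, fun _ h => h.elim⟩ (fun _ _ hst ⟨H, h1, h2⟩ => ⟨H, h1, fun y hy => h2 y (hst hy)⟩)
    (fun _ _ ⟨H, h1, h2⟩ ⟨H', h1', h2'⟩ => ⟨_, h1.comp h1', fun y hy hy' => h1.comp_lt h1' hy'
      (hy.imp (h2 y · hy') (h2' y · hy'))⟩) fun x hx => ?_
  obtain ⟨H, h1, h2⟩ := (hd x hx).move hΩ (hZΩ hx)
  exact ⟨_, mem_nhdsWithin_of_mem_nhds h2, H, h1, fun y hy _ => hy⟩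

theorem exists_move (hΩ : IsOpen Ω) (hf : ContinuousOn f Ω) {Z : Set M} (hZ : IsCompact Z)
    (hZΩ : Z ⊆ Ω) (hd : ∀ x ∈ Z, Dir f B x) {c b : ℝ} {P Q : Set M} (hP : P = univ ∨ P = B)
    (hQ : Q = ∅ ∨ Q = B) (hZ' : ∀ x ∈ Ω, x ∈ P → c ≤ f x → f x ≤ b → x ∉ Q → x ∈ Z) :
    ∃ H, Move Ω f B H ∧ ∀ x ∈ Ω, x ∈ P → f x ≤ b → f (H (1, x)) < c ∨ H (1, x) ∈ Q := by
  obtain ⟨H, h1, h2⟩ := exists_move_lt hΩ hZ hZΩ hd
  obtain ⟨δ, hδ, h3⟩ : ∃ δ > 0, ∀ y ∈ Z, δ ≤ f y - f (H (1, y)) := by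
    refine hZ.exists_forall_le' ((hf.mono hZΩ).sub (hf.comp (g := f) (f := fun y => H (1, y))
      (by fun_prop) fun y hy => h1.mem 1 y (hZΩ hy))) fun y hy => sub_pos.2 (h2 y hy (hZΩ hy))
  have pP : ∀ H', Move Ω f B H' → ∀ y ∈ P, H' (1, y) ∈ P := fun H' h' y hy => by
    rcases hP with rfl | rfl
    · trivial
    · exact h'.pres 1 y hy
  have key : ∀ k : ℕ, ∃ H', Move Ω f B H' ∧ ∀ x ∈ Ω, x ∈ P → f x ≤ b →
      (f (H' (1, x)) < c ∨ H' (1, x) ∈ Q) ∨ f (H' (1, x)) ≤ b - k * δ := by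
    intro k
    induction k with
    | zero => exact ⟨_, Move.id, fun x _ _ hb => Or.inr (by simpa using hb)⟩
    | succ k ih =>
      obtain ⟨H', h', h4⟩ := ih
      refine ⟨_, h1.comp h', fun x hx hxP hb => ?_⟩
      rw [hcomp_apply]
      have hy := h'.mem 1 x hx
      by_cases c1 : f (H' (1, x)) < c
      · exact Or.inl (Or.inl ((h1.le 1 _ hy).trans_lt c1))
      by_cases c2 : H' (1, x) ∈ Q
      · rcases hQ with rfl | rfl
        · exact c2.elim
        · exact Or.inl (Or.inr (h1.pres 1 _ c2))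
      have c3 := (h4 x hx hxP hb).resolve_left (not_or.2 ⟨c1, c2⟩)
      have := h3 _ (hZ' _ hy (pP H' h' x hxP) (not_lt.1 c1) ((h'.le 1 x hx).trans hb) c2)
      right
      push_cast
      linarith
  obtain ⟨k, hk⟩ := exists_nat_gt ((b - c) / δ)
  rw [div_lt_iff₀ hδ] at hk
  obtain ⟨H', h', h4⟩ := key k
  exact ⟨H', h', fun x hx hxP hb => (h4 x hx hxP hb).elim id fun h => Or.inl (by linarith)⟩

end Pool.Agent.Lib.MP_356dfe_ag
end
end
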