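import Pool.Agent.Shared.SingHom.MV
import Pool.Agent.Lib.MP_356dfe_ag.Move

-- part Pool.Agent.Lib.MP_356dfe_ag.Chain
section

/-! Splitting of chains over disjoint open sets, rational bases of relative homology. -/

set_option autoImplicit false

open Set Pool.Agent.Shared.SingHom

noncomputable section

namespace Pool.Agent.Lib.MP_356dfe_ag

variable {X Y : Type*} [TopologicalSpace X] [TopologicalSpace Y]

/-- multiples of the empty simplex -/
def E0 (X : Type*) [TopologicalSpace X] : Submodule ℤ (Ch X) := C ∅ 0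

theorem mem_E0 {A : Set X} {x : Ch X} (h : x ∈ C A 0) : x ∈ E0 X := by
  rwa [E0, C_zero ∅ A]

theorem E0_le (A : Set X) : E0 X ≤ C A 0 := by rw [E0, C_zero ∅ A]

theorem eq_zero_of_E0 {A : Set X} {m : ℕ} {x : Ch X} (h : x ∈ C A (m + 1)) (h0 : x ∈ E0 X) :
    x = 0 := by
  ext s
  by_contra hs
  have h1 := (h (Finsupp.mem_support_iff.2 hs)).1
  have h2 := (h0 (Finsupp.mem_support_iff.2 hs)).1
  omega

theorem mem_C_of_E0 {A A' : Set X} {m : ℕ} {x : Ch X} (h : x ∈ C A m) (h0 : x ∈ E0 X) :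
    x ∈ C A' m := by
  cases m with
  | zero => exact E0_le _ h0
  | succ m => rw [eq_zero_of_E0 h h0]; exact Submodule.zero_mem _

theorem map_E0 {φ : Ch X →ₗ[ℤ] Ch Y} (h : ∀ x ∈ C (∅ : Set X) 0, φ x ∈ C (∅ : Set Y) 1) {x : Ch X}
    (hx : x ∈ E0 X) : φ x = 0 := by
  have := h x hx
  rwa [C_empty] at this

open Classical in
/-- the part of a chain lying in `A` -/
def pc (A : Set X) : Ch X →ₗ[ℤ] Ch X :=
  (Finsupp.filterAddHom fun s : Sx X => ∀ t, s.2 t ∈ A).toIntLinearMap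

open Classical in
theorem pc_apply (A : Set X) (x : Ch X) (s : Sx X) :
    pc A x s = if ∀ t, s.2 t ∈ A then x s else 0 := Finsupp.filter_apply _ _ _

theorem pc_mem {A V : Set X} {m : ℕ} {x : Ch X} (hx : x ∈ C V m) : pc A x ∈ C (V ∩ A) m := by
  intro s hs
  have hs := Finsupp.mem_support_iff.1 hs
  rw [pc_apply] at hs
  split_ifs at hs with h
  · have := hx (Finsupp.mem_support_iff.2 hs)
    exact ⟨this.1, fun t => ⟨this.2 t, h t⟩⟩
  · exact absurd rfl hs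

theorem pc_self {A : Set X} {m : ℕ} {x : Ch X} (hx : x ∈ C A m) : pc A x = x := by
  ext s
  rw [pc_apply]
  split_ifs with h
  · rfl
  · by_contra h0
    exact h (hx (Finsupp.mem_support_iff.2 (Ne.symm h0))).2

theorem pc_zero {A A' : Set X} {m : ℕ} {x : Ch X} (hx : x ∈ C A' (m + 1)) (h : Disjoint A' A) :
    pc A x = 0 := by
  have := pc_mem (A := A) hx
  rwa [h.inter_eq, C_empty] at this

section Split

variable {ι : Type*} {U : ι → Set X} (ho : ∀ i, IsOpen (U i)) (hd : Pairwise fun i j => Disjoint (U i) (U j))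
include ho hd

theorem preconnected_subset {s : Set X} (hs : IsPreconnected s) (h : s ⊆ ⋃ i, U i) {i : ι}
    (hi : (s ∩ U i).Nonempty) : s ⊆ U i := by
  refine hs.subset_left_of_subset_union (v := ⋃ j ∈ ({i}ᶜ : Set ι), U j) (ho i)
    (isOpen_biUnion fun j _ => ho j) (disjoint_iUnion₂_right.2 fun j hj => hd (Ne.symm hj))
    (fun z hz => ?_) hi
  obtain ⟨j, hj⟩ := mem_iUnion.1 (h hz)
  by_cases e : j = i
  · exact Or.inl (e ▸ hj)
  · exact Or.inr (mem_biUnion e hj)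

theorem simplex_subset {m : ℕ} (σ : C(Dl (m + 1), X)) (h : ∀ t, σ t ∈ ⋃ i, U i) :
    ∃ i, ∀ t, σ t ∈ U i := by
  obtain ⟨i, hi⟩ := mem_iUnion.1 (h (Classical.arbitrary _))
  exact ⟨i, fun t => preconnected_subset ho hd (isPreconnected_range σ.continuous)
    (range_subset_iff.2 h) ⟨_, ⟨_, rfl⟩, hi⟩ ⟨t, rfl⟩⟩

theorem split_mem {m : ℕ} {x : Ch X} (hx : x ∈ C (⋃ i, U i) (m + 1)) (N : Submodule ℤ (Ch X))
    (h : ∀ i, pc (U i) x ≠ 0 → pc (U i) x ∈ N) : x ∈ N := by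
  classical
  let P : Submodule ℤ (Ch X) :=
    { carrier := {y | ∃ F₀ : Finset ι, ∀ F, F₀ ⊆ F → ∑ i ∈ F, pc (U i) y = y}
      zero_mem' := ⟨∅, fun F _ => by simp⟩
      add_mem' := by
        rintro a b ⟨F₁, h₁⟩ ⟨F₂, h₂⟩
        refine ⟨F₁ ∪ F₂, fun F hF => ?_⟩
        simp only [map_add, Finset.sum_add_distrib]
        rw [h₁ F (Finset.subset_union_left.trans hF), h₂ F (Finset.subset_union_right.trans hF)]
      smul_mem' := by
        rintro c a ⟨F₁, h₁⟩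
        refine ⟨F₁, fun F hF => ?_⟩
        simp only [map_smul, ← Finset.smul_sum]
        rw [h₁ F hF] }
  have hP : x ∈ P := by
    refine map_C LinearMap.id P (fun σ hσ => ?_) hx
    obtain ⟨i, hi⟩ := simplex_subset ho hd σ hσ
    refine ⟨{i}, fun F hF => ?_⟩
    rw [Finset.sum_eq_single_of_mem i (hF (Finset.mem_singleton_self i))]
    · exact pc_self (single_mem_C hi 1)
    · exact fun j _ hj => pc_zero (single_mem_C hi 1) (hd (Ne.symm hj))
  obtain ⟨F, hF⟩ := hP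
  rw [← hF F subset_rfl]
  refine N.sum_mem fun i _ => ?_
  by_cases h0 : pc (U i) x = 0
  · rw [h0]; exact N.zero_mem
  · exact h i h0

theorem bd_pc {m : ℕ} {x : Ch X} (hx : x ∈ C (⋃ i, U i) (m + 2)) (i : ι) :
    bd (pc (U i) x) = pc (U i) (bd x) := by
  refine eq_on_C (bd.comp (pc (U i))) ((pc (U i)).comp bd) (fun σ hσ => ?_) hx
  obtain ⟨j, hj⟩ := simplex_subset ho hd σ hσ
  have h1 := single_mem_C hj 1
  simp only [LinearMap.comp_apply]
  by_cases e : j = i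
  · subst e
    rw [pc_self h1, pc_self (bd_mem h1)]
  · rw [pc_zero h1 (hd e), pc_zero (bd_mem h1) (hd e), map_zero]

theorem Z_le_B_iUnion {m : ℕ} (h : ∀ i, Z (U i) (m + 2) ≤ B (U i) (m + 2)) :
    Z (⋃ i, U i) (m + 2) ≤ B (⋃ i, U i) (m + 2) := by
  intro x hx
  refine split_mem ho hd hx.1 _ fun i _ => B_mono (subset_iUnion U i) _ (h i (mem_Z.2 ⟨?_, ?_⟩))
  · exact C_mono inter_subset_right _ (pc_mem hx.1)
  · rw [bd_pc ho hd hx.1, (mem_Z.1 hx).2, map_zero]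

end Split

/-- relative boundaries -/
def RB (A A₀ : Set X) (m : ℕ) : Submodule ℤ (Ch X) := B A m ⊔ C A₀ m

theorem mem_RB {A A₀ : Set X} {m : ℕ} {x : Ch X} :
    x ∈ RB A A₀ m ↔ ∃ t ∈ C A (m + 1), x - bd t ∈ C A₀ m := by
  constructor
  · intro h
    obtain ⟨_, ⟨t, ht, rfl⟩, b, hb, rfl⟩ := Submodule.mem_sup.1 h
    exact ⟨t, ht, by simpa using hb⟩
  · rintro ⟨t, ht, h⟩
    have := Submodule.add_mem_sup (S := B A m) ⟨t, ht, rfl⟩ h
    simpa [RB] using this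

theorem RB_mono {A A₀ A' A₀' : Set X} (h : A ⊆ A') (h₀ : A₀ ⊆ A₀') (m : ℕ) :
    RB A A₀ m ≤ RB A' A₀' m := sup_le_sup (B_mono h m) (C_mono h₀ m)

theorem bd_mem_RB {A A₀ : Set X} {m : ℕ} {x : Ch X} (hx : x ∈ RB A A₀ m) :
    bd x ∈ B A₀ (m - 1) ⊔ ⊥ := by
  obtain ⟨t, -, h⟩ := mem_RB.1 hx
  have e : bd x = bd (x - bd t) := by rw [map_sub, bd_bd, sub_zero]
  rw [e, sup_bot_eq]
  cases m with
  | zero => rw [bd_eq_zero h]; exact Submodule.zero_mem _
  | succ m => exact ⟨_, h, rfl⟩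

/-- vanishing of the rational relative homology in vertex degree `m + 1` -/
def RV (m : ℕ) (A A₀ : Set X) : Prop :=
  ∀ s ∈ C A (m + 1), bd s ∈ C A₀ m → s ∈ sat (RB A A₀ (m + 1))

theorem RV.of_ac {A A₀ : Set X} (h : Ac A A₀) (m : ℕ) : RV m A A₀ :=
  fun s hs hb => le_sat _ (mem_RB.2 (h (m + 1) s hs hb))

theorem RV.refl (m : ℕ) (A : Set X) : RV m A A :=
  fun _ hs _ => le_sat _ (Submodule.mem_sup_right hs)

theorem RV.trans {m : ℕ} {A A' A'' : Set X} (h : RV m A'' A') (h' : RV m A' A) (h₁ : A ⊆ A')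
    (h₂ : A' ⊆ A'') : RV m A'' A := by
  intro s hs hb
  obtain ⟨N, hN, h3⟩ := h s hs (C_mono h₁ _ hb)
  obtain ⟨t, ht, h4⟩ := mem_RB.1 h3
  have h5 := h' _ h4 (by rw [map_sub, bd_bd, sub_zero, map_smul]; exact Submodule.smul_mem _ _ hb)
  refine sat_of_smul hN ?_
  have := Submodule.add_mem _ (sat_mono (RB_mono h₂ Subset.rfl _) h5)
    (le_sat _ (Submodule.mem_sup_left ⟨t, ht, rfl⟩))
  simpa using this

variable {J : Type*} [Fintype J]

/-- `c` is a rational basis of the relative homology of the pair -/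
structure LBc (A A₀ : Set X) (deg : J → ℕ) (c : J → Ch X) : Prop where
  pos : ∀ j, deg j ≠ 0
  mem : ∀ j, c j ∈ C A (deg j)
  bdm : ∀ j, bd (c j) ∈ C A₀ (deg j - 1)
  span : ∀ m, ∀ s ∈ C A (m + 1), bd s ∈ C A₀ m →
    s ∈ sat (Submodule.span ℤ (c '' {j | deg j = m + 1}) ⊔ RB A A₀ (m + 1))
  indep : ∀ m (n : J → ℤ), (∀ j, n j ≠ 0 → deg j = m) → ∑ j, n j • c j ∈ sat (RB A A₀ m) → n = 0

/-- the relative homology of the pair has a rational basis with degrees `deg` -/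
def LB (A A₀ : Set X) (deg : J → ℕ) : Prop := ∃ c, LBc A A₀ deg c

theorem LBc.smul {A A₀ : Set X} {deg : J → ℕ} {c : J → Ch X} (h : LBc A A₀ deg c) {N : J → ℤ}
    (hN : ∀ j, N j ≠ 0) : LBc A A₀ deg fun j => N j • c j := by
  refine ⟨h.pos, fun j => Submodule.smul_mem _ _ (h.mem j), fun j => ?_, fun m s hs hb => ?_,
    fun m n hn hs => ?_⟩
  · rw [map_smul]; exact Submodule.smul_mem _ _ (h.bdm j)
  · refine sat_le (sup_le (Submodule.span_le.2 ?_) (le_sup_right.trans (le_sat _))) (h.span m s hs hb)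
    rintro _ ⟨j, hj, rfl⟩
    exact ⟨N j, hN j, Submodule.mem_sup_left (Submodule.subset_span ⟨j, hj, rfl⟩)⟩
  · have := h.indep m (fun j => n j * N j) (fun j hj => hn j (left_ne_zero_of_mul hj))
      (by simpa only [mul_smul] using hs)
    ext j
    exact (mul_eq_zero.1 (congrFun this j)).resolve_right (hN j)

section Emb

variable (g : C(X, Y)) (hg : Topology.IsEmbedding g)
include hg

theorem map_C_eq (A : Set X) (m : ℕ) : (C A m).map (push g) = C (g '' A) m :=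
  le_antisymm (by rintro _ ⟨x, hx, rfl⟩; exact push_mem g (mapsTo_image g A) hx)
    fun _ hy => exists_push_eq g hg hy

theorem map_RB_eq (A A₀ : Set X) (m : ℕ) : (RB A A₀ m).map (push g) = RB (g '' A) (g '' A₀) m := by
  rw [RB, RB, Submodule.map_sup, map_C_eq g hg, B, B, ← map_C_eq g hg A, ← Submodule.map_comp,
    ← Submodule.map_comp]
  congr 2
  exact LinearMap.ext fun x => (bd_push g x).symm

theorem push_mem_sat {P : Submodule ℤ (Ch X)} {x : Ch X} :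
    push g x ∈ sat (P.map (push g)) ↔ x ∈ sat P := by
  refine exists_congr fun N => and_congr_right fun _ => ?_
  rw [← map_smul]
  exact ⟨fun ⟨y, hy, e⟩ => push_injective g hg.injective e ▸ hy, fun h => ⟨_, h, rfl⟩⟩

theorem push_mem_C {A : Set X} {m : ℕ} {x : Ch X} : push g x ∈ C (g '' A) m ↔ x ∈ C A m :=
  ⟨mem_C_of_push g hg, push_mem g (mapsTo_image g A)⟩

theorem lbc_image_iff {A A₀ : Set X} {deg : J → ℕ} {c : J → Ch X} :
    LBc (g '' A) (g '' A₀) deg (fun j => push g (c j)) ↔ LBc A A₀ deg c := by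
  have e : ∀ m, Submodule.span ℤ ((fun j => push g (c j)) '' {j | deg j = m}) ⊔
      RB (g '' A) (g '' A₀) m = (Submodule.span ℤ (c '' {j | deg j = m}) ⊔ RB A A₀ m).map (push g) :=
    fun m => by rw [Submodule.map_sup, map_RB_eq g hg, Submodule.map_span, image_image]
  have e' : ∀ n : J → ℤ, ∑ j, n j • push g (c j) = push g (∑ j, n j • c j) := fun n => by
    simp only [map_sum, map_smul]
  constructor
  · intro h
    refine ⟨h.pos, fun j => (push_mem_C g hg).1 (h.mem j),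
      fun j => (push_mem_C g hg).1 (by rw [← bd_push]; exact h.bdm j), fun m s hs hb => ?_,
      fun m n hn hs => h.indep m n hn ?_⟩
    · rw [← push_mem_sat g hg, ← e]
      exact h.span m _ ((push_mem_C g hg).2 hs) (by rw [bd_push]; exact (push_mem_C g hg).2 hb)
    · rwa [e', ← map_RB_eq g hg, push_mem_sat g hg]
  · intro h
    refine ⟨h.pos, fun j => (push_mem_C g hg).2 (h.mem j),
      fun j => by rw [bd_push]; exact (push_mem_C g hg).2 (h.bdm j), fun m s hs hb => ?_,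
      fun m n hn hs => h.indep m n hn ?_⟩
    · obtain ⟨s, hs', rfl⟩ := exists_push_eq g hg hs
      rw [e, push_mem_sat g hg]
      exact h.span m s hs' ((push_mem_C g hg).1 (by rwa [← bd_push]))
    · rwa [e', ← map_RB_eq g hg, push_mem_sat g hg] at hs

theorem lb_image_iff {A A₀ : Set X} {deg : J → ℕ} : LB (g '' A) (g '' A₀) deg ↔ LB A A₀ deg := by
  refine ⟨fun ⟨c, h⟩ => ?_, fun ⟨c, h⟩ => ⟨_, (lbc_image_iff g hg).2 h⟩⟩
  choose c' _ hc using fun j => exists_push_eq g hg (h.mem j)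
  exact ⟨c', (lbc_image_iff g hg).1 (by simpa only [hc] using h)⟩

end Emb

theorem lb_of_conc {A A₀ : Set X} (h₀ : A₀ ⊆ A) (hA : Acyc A) {k : ℕ} (hc : Conc A₀ k 1) :
    LB A A₀ fun _ : Unit => k + 1 := by
  obtain ⟨e⟩ := hc.2
  obtain ⟨z, hz, ez⟩ := Hq.mk_surj (e.symm fun _ => 1)
  obtain ⟨c, hcm, rfl⟩ := hA k (Z_mono h₀ k hz)
  have fin : ∀ m, ∀ s ∈ C A (m + 1), bd s ∈ B A₀ m → s ∈ RB A A₀ (m + 1) := by
    rintro m s hs ⟨u, hu, e⟩
    obtain ⟨t, ht, e'⟩ := hA (m + 1) (x := s - u)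
      (mem_Z.2 ⟨Submodule.sub_mem _ hs (C_mono h₀ _ hu), by rw [map_sub, e, sub_self]⟩)
    exact mem_RB.2 ⟨t, ht, by rw [e']; simpa using hu⟩
  refine ⟨fun _ => c, fun _ => by simp, fun _ => hcm, fun _ => hz.1, fun m s hs hb => le_sat _ ?_,
    fun m n hn hs => ?_⟩
  · have hZ : bd s ∈ Z A₀ m := ⟨hb, bd_bd s⟩
    by_cases hm : m = k
    · subst hm
      set a := e (cls _ hZ) 0
      have h1 : cls _ hZ = a • Hq.mk (B A₀ m) _ hz := by
        apply e.injective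
        rw [ez, map_smul, e.apply_symm_apply]
        ext i
        rw [Subsingleton.elim i 0]
        simp [a]
      replace h1 := Hq.mk_eq_mk.1 (h1.trans (Hq.mk_smul a hz).symm)
      rw [← map_smul, ← map_sub] at h1
      have h2 := fin m _ (Submodule.sub_mem _ hs (Submodule.smul_mem _ a hcm)) h1
      have := Submodule.add_mem_sup (S := Submodule.span ℤ ((fun _ : Unit => c) ''
        {j | (fun _ : Unit => m + 1) j = m + 1})) (Submodule.smul_mem _ a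
          (Submodule.subset_span ⟨(), rfl, rfl⟩)) h2
      simpa using this
    · exact Submodule.mem_sup_right (fin m s hs (hc.1 m hm hZ))
  · ext u
    by_contra h0
    obtain rfl := hn u h0
    obtain ⟨N, hN, hs⟩ := hs
    have h1 := bd_mem_RB hs
    simp only [Finset.univ_unique, Finset.sum_singleton, map_smul, sup_bot_eq, smul_smul,
      Nat.add_sub_cancel] at h1
    have h2 : (N * n default) • Hq.mk (B A₀ k) _ hz = 0 := by
      exact (Hq.mk_smul _ hz).symm.trans (Hq.mk_eq_zero.2 h1)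
    have h3 := congrFun (congrArg e h2) 0
    rw [ez, map_smul, e.apply_symm_apply, map_zero] at h3
    simp only [Pi.smul_apply, smul_eq_mul, mul_one, Pi.zero_apply, mul_eq_zero] at h3
    exact h3.elim hN h0

/-- a finite spanning family contains a basis -/
theorem exists_lb {A A₀ : Set X} {J : Type} [Fintype J] {deg : J → ℕ} {c : J → Ch X}
    (pos : ∀ j, deg j ≠ 0) (mem : ∀ j, c j ∈ C A (deg j)) (bdm : ∀ j, bd (c j) ∈ C A₀ (deg j - 1))
    (span : ∀ m, ∀ s ∈ C A (m + 1), bd s ∈ C A₀ m →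
      s ∈ sat (Submodule.span ℤ (c '' {j | deg j = m + 1}) ⊔ RB A A₀ (m + 1))) :
    ∃ (J' : Type) (_ : Fintype J') (deg' : J' → ℕ), LB A A₀ deg' := by
  classical
  have key : ∀ F : Finset J, (∀ m, ∀ s ∈ C A (m + 1), bd s ∈ C A₀ m →
      s ∈ sat (Submodule.span ℤ (c '' {j | j ∈ F ∧ deg j = m + 1}) ⊔ RB A A₀ (m + 1))) →
      ∃ (J' : Type) (_ : Fintype J') (deg' : J' → ℕ), LB A A₀ deg' := by
    intro F
    induction F using Finset.strongInduction with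
    | H F ih =>
      intro hF
      by_cases hi : ∀ m (n : F → ℤ), (∀ j, n j ≠ 0 → deg j = m) →
          ∑ j, n j • c j ∈ sat (RB A A₀ m) → n = 0
      · refine ⟨F, inferInstance, fun j => deg j, fun j => c j, fun j => pos j, fun j => mem j,
          fun j => bdm j, fun m s hs hb => sat_mono (sup_le_sup_right (Submodule.span_mono ?_) _)
            (hF m s hs hb), hi⟩
        rintro _ ⟨j, hj, rfl⟩
        exact ⟨⟨j, hj.1⟩, hj.2, rfl⟩
      · push Not at hi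
        obtain ⟨m, n, hn, hs, h0⟩ := hi
        obtain ⟨j₀, hj₀⟩ := Function.ne_iff.1 h0
        refine ih (F.erase j₀) (Finset.erase_ssubset j₀.2) fun k s hs' hb => sat_le (sup_le
          (Submodule.span_le.2 ?_) (le_sup_right.trans (le_sat _))) (hF k s hs' hb)
        rintro _ ⟨j, hj, rfl⟩
        by_cases e : j = j₀
        · subst e
          obtain rfl : m = k + 1 := (hn j₀ hj₀).symm.trans hj.2
          refine sat_of_smul hj₀ ?_
          rw [← Finset.add_sum_erase _ _ (Finset.mem_univ j₀)] at hs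
          have := Submodule.sub_mem _ (sat_mono le_sup_right hs) (le_sat _ (Submodule.mem_sup_left
            (S := Submodule.span ℤ (c '' {j | j ∈ F.erase j₀ ∧ deg j = k + 1}))
            (Submodule.sum_mem _ (t := Finset.univ.erase j₀) (f := fun j : F => n j • c j)
              fun j hj => ?_)))
          · simpa using this
          · by_cases h1 : n j = 0
            · simp [h1]
            · exact Submodule.smul_mem _ _ (Submodule.subset_span ⟨j, ⟨Finset.mem_erase.2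
                ⟨fun e => (Finset.mem_erase.1 hj).1 (Subtype.ext e), j.2⟩, hn j h1⟩, rfl⟩)
        · exact le_sat _ (Submodule.mem_sup_left
            (Submodule.subset_span ⟨j, ⟨Finset.mem_erase.2 ⟨e, hj.1⟩, hj.2⟩, rfl⟩))
  exact key Finset.univ (by simpa using span)

theorem split_open {A U₁ U₂ : Set X} (h₁ : IsOpen U₁) (h₂ : IsOpen U₂) (hA : A ⊆ U₁ ∪ U₂) {m : ℕ}
    {s : Ch X} (hs : s ∈ C A (m + 1)) (hb : bd s ∈ C (A ∩ U₁) m ⊔ C (A ∩ U₂) m) :
    ∃ s₁ ∈ C (A ∩ U₁) (m + 1), ∃ s₂ ∈ C (A ∩ U₂) (m + 1), ∃ t ∈ C A (m + 2),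
      s = s₁ + s₂ + bd t := by
  obtain ⟨t, ht, h⟩ := (exc_of_open h₁ h₂ hA rfl rfl rfl).small (m + 1) s hs hb
  obtain ⟨s₁, h1, s₂, h2, e⟩ := Submodule.mem_sup.1 h
  exact ⟨s₁, h1, s₂, h2, t, ht, by rw [e]; abel⟩

theorem RV.attach {V U : Set X} (hV : IsOpen V) (hU : IsOpen U) {deg : J → ℕ}
    (h : LB U (U ∩ V) deg) {m : ℕ} (hm : ∀ j, deg j ≠ m + 1) : RV m (V ∪ U) V := by
  obtain ⟨c, h⟩ := h
  intro s hs hb
  obtain ⟨s₁, h1, s₂, h2, t, ht, rfl⟩ := split_open hV hU Subset.rfl hs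
    (Submodule.mem_sup_left (C_mono (by simp) _ hb))
  have h1 := C_mono inter_subset_right _ h1
  have h2 := C_mono inter_subset_right _ h2
  have h3 : bd s₂ ∈ C V m := by
    have := Submodule.sub_mem _ hb (bd_mem h1)
    simpa [bd_bd] using this
  have h4 := h.span m s₂ h2 (mem_C_inter (bd_mem h2) h3)
  have e : {j | deg j = m + 1} = ∅ := eq_empty_of_forall_notMem hm
  rw [e, image_empty, Submodule.span_empty, bot_sup_eq] at h4
  exact Submodule.add_mem _ (Submodule.add_mem _ (le_sat _ (Submodule.mem_sup_right h1))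
    (sat_mono (RB_mono subset_union_right inter_subset_right _) h4))
    (le_sat _ (Submodule.mem_sup_left ⟨t, ht, rfl⟩))

end Pool.Agent.Lib.MP_356dfe_ag
end
end

-- part Pool.Agent.Lib.MP_356dfe_ag.Crit
section

/-! The handle attached at a nondegenerate critical point. -/

set_option autoImplicit false

open Set Filter Topology Metric Module Pool.Agent.Shared.SingHom
open scoped RealInnerProductSpace

noncomputable section

namespace Pool.Agent.Lib.MP_356dfe_ag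

theorem conc_ball {E : Type*} [NormedAddCommGroup E] [NormedSpace ℝ E] [FiniteDimensional ℝ E]
    {r : ℝ} (hr : 0 < r) : Conc {x : E | ‖x‖ < r ∧ x ≠ 0} (finrank ℝ E) 1 := by
  have hs : {x : E | ‖x‖ < r ∧ x ≠ 0} ⊆ {0}ᶜ := fun x hx => hx.2
  refine (Ac.conc_iff (ac_of_deform hs fun K hK hK0 => ?_) hs).1 (conc_compl_point 0)
  obtain ⟨M, hM0, hM⟩ := hK.isBounded.exists_pos_norm_le
  have hl0 : 0 < r / (M + r) := by positivity
  have hl1 : r / (M + r) < 1 := (div_lt_one (by positivity)).2 (by linarith)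
  have hpos : ∀ t ∈ Icc (0 : ℝ) 1, 0 < 1 - t * (1 - r / (M + r)) := fun t ht => by
    nlinarith [ht.1, ht.2]
  have hne : ∀ t ∈ Icc (0 : ℝ) 1, ∀ z ∈ K, (1 - t * (1 - r / (M + r))) • z ≠ 0 :=
    fun t ht z hz => smul_ne_zero (hpos t ht).ne' (hK0 hz)
  refine ⟨fun q => (1 - q.1 * (1 - r / (M + r))) • q.2, by fun_prop, fun z _ => by simp,
    hne, fun t ht z hz hz' => ⟨?_, hne t ht z hz⟩, fun z hz => ⟨?_, hne 1 ⟨zero_le_one, le_rfl⟩ z hz⟩⟩
  · rw [norm_smul, Real.norm_of_nonneg (hpos t ht).le]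
    refine lt_of_le_of_lt (mul_le_of_le_one_left (norm_nonneg _) ?_) hz'.1
    nlinarith [ht.1, ht.2]
  · rw [norm_smul, one_mul, sub_sub_cancel, Real.norm_of_nonneg hl0.le, div_mul_eq_mul_div,
      div_lt_iff₀ (by positivity)]
    nlinarith [hM z hz]

section Est

variable {A A' : Type} [NormedAddCommGroup A] [InnerProductSpace ℝ A] [NormedAddCommGroup A']
  [InnerProductSpace ℝ A'] {F : A × A' → ℝ} {r₀ : ℝ}

/-- `F` is close to the standard quadratic form -/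
def Est (F : A × A' → ℝ) (r₀ : ℝ) : Prop :=
  ∀ w ∈ ball (0 : A × A') r₀, ContDiffAt ℝ 1 F w ∧
    ∀ v, |fderiv ℝ F w v - (2 * ⟪w.2, v.2⟫ - 2 * ⟪w.1, v.1⟫)| ≤ 1 / 8 * ‖w‖ * ‖v‖

theorem Est.line (h : Est F r₀) (w v : A × A') {t : ℝ} (ht : w + t • v ∈ ball (0 : A × A') r₀) :
    HasDerivAt (fun s : ℝ => F (w + s • v)) (fderiv ℝ F (w + t • v) v) t := by
  have := ((h _ ht).1.differentiableAt one_ne_zero).hasFDerivAt.comp_hasDerivAt t
    (((hasDerivAt_id t).smul_const v).const_add w)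
  rw [one_smul] at this
  exact this

theorem Est.val (h : Est F r₀) {w : A × A'} (hw : w ∈ ball (0 : A × A') r₀) :
    |F w - F 0 - (‖w.2‖ ^ 2 - ‖w.1‖ ^ 2)| ≤ 1 / 8 * ‖w‖ ^ 2 := by
  have hm : ∀ t ∈ Icc (0 : ℝ) 1, 0 + t • w ∈ ball (0 : A × A') r₀ := fun t ht => by
    rw [zero_add, mem_ball_zero_iff, norm_smul, Real.norm_of_nonneg ht.1]
    exact (mul_le_of_le_one_left (norm_nonneg _) ht.2).trans_lt (mem_ball_zero_iff.1 hw)
  have := norm_image_sub_le_of_norm_deriv_le_segment_01'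
    (f := fun t : ℝ => F (0 + t • w) - t ^ 2 * (‖w.2‖ ^ 2 - ‖w.1‖ ^ 2))
    (f' := fun t => fderiv ℝ F (0 + t • w) w - 2 * t * (‖w.2‖ ^ 2 - ‖w.1‖ ^ 2))
    (C := 1 / 8 * ‖w‖ ^ 2) (fun t ht => ((h.line 0 w (hm t ht)).sub
      (by simpa using (hasDerivAt_pow 2 t).mul_const (‖w.2‖ ^ 2 - ‖w.1‖ ^ 2))).hasDerivWithinAt)
    fun t ht => by
      have h1 := (h _ (hm t (Ico_subset_Icc_self ht))).2 w
      simp only [zero_add, Prod.smul_snd, Prod.smul_fst, real_inner_smul_left,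
        real_inner_self_eq_norm_sq, norm_smul, Real.norm_of_nonneg ht.1] at h1 ⊢
      rw [Real.norm_eq_abs]
      refine le_trans (le_of_eq ?_) (h1.trans ?_)
      · congr 1; ring
      · nlinarith [ht.1, ht.2, sq_nonneg ‖w‖]
  simp only [zero_add, one_smul, zero_smul, Real.norm_eq_abs] at this
  refine le_trans (le_of_eq ?_) this
  congr 1; ring

theorem Est.neg (h : Est F r₀) {w : A × A'} (hw : w ∈ ball (0 : A × A') r₀) (h0 : w ≠ 0)
    (h1 : ‖w.2‖ ≤ ‖w‖ / 2) : F w ≤ F 0 - 5 / 8 * ‖w‖ ^ 2 := by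
  have h2 := (abs_le.1 (h.val hw)).2
  have h3 := norm_pos_iff.2 h0
  have h4 : ‖w‖ = ‖w.1‖ := by
    rcases max_cases ‖w.1‖ ‖w.2‖ with e | e
    · exact e.1
    · rw [← Prod.norm_def] at e; linarith [e.1]
  rw [← h4] at h2
  nlinarith [norm_nonneg w.2]

theorem Est.pos (h : Est F r₀) {w : A × A'} (hw : w ∈ ball (0 : A × A') r₀) (h1 : w.1 = 0) :
    F 0 + 7 / 8 * ‖w‖ ^ 2 ≤ F w := by
  have h2 := (abs_le.1 (h.val hw)).1
  have h4 : ‖w‖ = ‖w.2‖ := by simp [Prod.norm_def, h1]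
  rw [← h4, h1, norm_zero] at h2
  linarith

theorem Est.shrink (h : Est F r₀) {w : A × A'} (hw : w ∈ ball (0 : A × A') r₀) (h1 : F w < F 0)
    {σ : ℝ} (hσ : σ ∈ Icc (0 : ℝ) 1) : F (w.1, σ • w.2) < F 0 := by
  have hm : ∀ t ∈ Icc (0 : ℝ) 1, (w.1, 0) + t • ((0 : A), w.2) ∈ ball (0 : A × A') r₀ := by
    intro t ht
    rw [mem_ball_zero_iff] at hw ⊢
    refine lt_of_le_of_lt ?_ hw
    simp only [Prod.smul_mk, smul_zero, Prod.mk_add_mk, add_zero, zero_add, Prod.norm_def, norm_smul,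
      Real.norm_of_nonneg ht.1]
    exact max_le_max le_rfl (mul_le_of_le_one_left (norm_nonneg _) ht.2)
  have e : ∀ t : ℝ, (w.1, 0) + t • ((0 : A), w.2) = (w.1, t • w.2) := fun t => by simp
  have h0 : w.1 ≠ 0 := fun h0 => by nlinarith [h.pos hw h0, sq_nonneg ‖w‖]
  have h0' : ∀ t : ℝ, (w.1, t • w.2) ≠ 0 := fun t e => h0 (congrArg Prod.fst e)
  by_cases hc : σ * ‖w.2‖ ≤ ‖w.1‖ / 2
  · have := h.neg (e σ ▸ hm σ hσ) (h0' σ) (by
      rw [norm_smul, Real.norm_of_nonneg hσ.1]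
      exact hc.trans (by gcongr; exact norm_fst_le (w.1, σ • w.2)))
    nlinarith [norm_pos_iff.2 (h0' σ)]
  have hI : Icc σ 1 ⊆ Icc 0 1 := Icc_subset_Icc_left hσ.1
  have := monotoneOn_of_deriv_nonneg (convex_Icc σ 1)
    (f := fun t : ℝ => F ((w.1, 0) + t • ((0 : A), w.2)))
    (fun t ht => (h.line _ _ (hm t (hI ht))).continuousAt.continuousWithinAt)
    (fun t ht => (h.line _ _ (hm t (hI (interior_subset ht)))).differentiableAt.differentiableWithinAt)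
    (fun t ht => by
      have ht := interior_subset ht
      rw [(h.line _ _ (hm t (hI ht))).deriv]
      have h2 := (abs_le.1 ((h _ (hm t (hI ht))).2 ((0 : A), w.2))).1
      have h3 : 0 ≤ t := (hI ht).1
      have h4 : σ * ‖w.2‖ ≤ t * ‖w.2‖ := mul_le_mul_of_nonneg_right ht.1 (norm_nonneg _)
      have h5 : ‖(w.1, t • w.2)‖ ≤ 2 * (t * ‖w.2‖) := by
        rw [Prod.norm_def, norm_smul, Real.norm_of_nonneg h3]
        exact max_le (by linarith) (by nlinarith [norm_nonneg w.1])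
      rw [e] at h2 ⊢
      simp only [real_inner_smul_left, real_inner_self_eq_norm_sq, inner_zero_right, Prod.norm_mk,
        norm_zero, max_eq_right (norm_nonneg w.2)] at h2 h5
      nlinarith [norm_nonneg w.2, mul_nonneg h3 (sq_nonneg ‖w.2‖)])
    ⟨le_rfl, hσ.2⟩ ⟨hσ.2, le_rfl⟩ hσ.2
  beta_reduce at this
  rw [e, e, one_smul] at this
  exact this.trans_lt h1

theorem Est.conc [FiniteDimensional ℝ A] (h : Est F r₀) {r : ℝ} (hr : 0 < r) (hr' : r ≤ r₀) :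
    Conc (ball 0 r ∩ {w | F w < F 0}) (finrank ℝ A) 1 := by
  have hb := ball_subset_ball (x := (0 : A × A')) hr'
  have hs : {w : A × A' | ‖w‖ < r ∧ w.2 = 0 ∧ w ≠ 0} ⊆ ball 0 r ∩ {w | F w < F 0} := by
    intro w hw
    have h1 := mem_ball_zero_iff.2 hw.1
    have := h.neg (hb h1) hw.2.2 (by rw [hw.2.1, norm_zero]; positivity)
    exact ⟨h1, show F w < F 0 by nlinarith [norm_pos_iff.2 hw.2.2]⟩
  have hn : ∀ t ∈ Icc (0 : ℝ) 1, ∀ w : A × A', ‖(w.1, (1 - t) • w.2)‖ ≤ ‖w‖ := fun t ht w => by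
    rw [Prod.norm_def, Prod.norm_def, norm_smul, Real.norm_of_nonneg (sub_nonneg.2 ht.2)]
    exact max_le_max le_rfl (mul_le_of_le_one_left (norm_nonneg _) (sub_le_self _ ht.1))
  refine (Ac.conc_iff (ac_of_deform hs fun K _ hK => ?_) hs).2 ?_
  · have h1 : ∀ t ∈ Icc (0 : ℝ) 1, ∀ w ∈ K, (w.1, (1 - t) • w.2) ∈ ball 0 r ∩ {w | F w < F 0} :=
      fun t ht w hw => ⟨mem_ball_zero_iff.2 ((hn t ht w).trans_lt (mem_ball_zero_iff.1 (hK hw).1)),
        h.shrink (hb (hK hw).1) (hK hw).2 ⟨sub_nonneg.2 ht.2, sub_le_self _ ht.1⟩⟩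
    refine ⟨fun q => (q.2.1, (1 - q.1) • q.2.2), by fun_prop, fun z _ => by simp, h1,
      fun t _ z _ hz => ?_, fun z hz => ⟨mem_ball_zero_iff.1 (h1 1 (by simp) z hz).1, by simp,
        fun e => ?_⟩⟩
    · have : (z.1, (1 - t) • z.2) = z := Prod.ext rfl (by simp [hz.2.1])
      simp only [this]
      exact hz
    · have := (h1 1 (by simp) z hz).2
      simp only at e
      rw [mem_ofPred_eq, e] at this
      exact lt_irrefl _ this
  · let g : C(A, A × A') := ⟨fun x => (x, 0), by fun_prop⟩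
    have e : {w : A × A' | ‖w‖ < r ∧ w.2 = 0 ∧ w ≠ 0} = g '' {x | ‖x‖ < r ∧ x ≠ 0} := by
      ext ⟨x, y⟩
      constructor
      · rintro ⟨h1, rfl, h3⟩
        exact ⟨x, ⟨by simpa using h1, fun e => h3 (by simp [e])⟩, rfl⟩
      · rintro ⟨x, ⟨h1, h2⟩, e⟩
        cases e
        exact ⟨by simpa using h1, rfl, fun e => h2 (congrArg Prod.fst e)⟩
    rw [e, conc_image_iff g (isEmbedding_prodMkLeft _)]
    exact conc_ball hr

theorem Est.ne (h : Est F r₀) {w : A × A'} (hw : w ∈ ball (0 : A × A') r₀) (h0 : w ≠ 0) :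
    fderiv ℝ F w ≠ 0 := by
  intro e
  have h1 := (abs_le.1 ((h w hw).2 (w.1, -w.2))).2
  have h2 : ‖(w.1, -w.2)‖ = ‖w‖ := by simp [Prod.norm_def]
  have h3 : ‖w‖ ^ 2 ≤ ‖w.1‖ ^ 2 + ‖w.2‖ ^ 2 := by
    rcases max_cases ‖w.1‖ ‖w.2‖ with e | e <;> rw [Prod.norm_def, e.1] <;> nlinarith
  simp only [e, h2, zero_apply, inner_neg_right,
    real_inner_self_eq_norm_sq] at h1
  nlinarith [norm_pos_iff.2 h0]

theorem Est.dir (h : Est F r₀) {w : A × A'} (hw : w ∈ ball (0 : A × A') r₀) (h0 : w ≠ 0)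
    (h1 : F 0 - ‖w‖ ^ 2 / 2 ≤ F w) : fderiv ℝ F w (0, -w.2) < 0 ∧ ∃ ρ > 0, ∀ u ∈ ball w ρ,
      ∀ τ : ℝ, 0 ≤ τ → u + τ • ((0 : A), -w.2) ∈ ball w ρ → ‖u + τ • ((0 : A), -w.2)‖ ≤ ‖u‖ := by
  have h3 := norm_pos_iff.2 h0
  have h2 : ‖w‖ / 2 < ‖w.2‖ := by
    by_contra hc
    nlinarith [h.neg hw h0 (not_lt.1 hc)]
  refine ⟨?_, ‖w.2‖ / 2, by linarith, fun u hu τ hτ hu' => ?_⟩
  · have h4 := (abs_le.1 ((h w hw).2 (0, -w.2))).2
    simp only [inner_neg_right, real_inner_self_eq_norm_sq, inner_zero_right, Prod.norm_mk,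
      norm_zero, norm_neg, max_eq_right (norm_nonneg w.2)] at h4
    nlinarith
  · have a1 : ‖u.2 - w.2‖ < ‖w.2‖ / 2 := (norm_snd_le (u - w)).trans_lt (mem_ball_iff_norm.1 hu)
    have a2 : ‖u.2 - τ • w.2 - w.2‖ < ‖w.2‖ / 2 := by
      have := (norm_snd_le (u + τ • ((0 : A), -w.2) - w)).trans_lt (mem_ball_iff_norm.1 hu')
      simpa [sub_eq_add_neg] using this
    have a3 : τ ≤ 1 := by
      have := norm_sub_le (u.2 - w.2) (u.2 - τ • w.2 - w.2)
      rw [show u.2 - w.2 - (u.2 - τ • w.2 - w.2) = τ • w.2 by abel, norm_smul,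
        Real.norm_of_nonneg hτ] at this
      nlinarith
    have a4 : ‖w.2‖ / 2 ≤ ‖u.2‖ := by
      have := norm_sub_norm_le w.2 u.2
      rw [norm_sub_rev] at this
      linarith
    have a5 : ‖u.2 + τ • -w.2‖ ≤ ‖u.2‖ := by
      rw [show u.2 + τ • -w.2 = (1 - τ) • u.2 + τ • (u.2 - w.2) by module]
      refine (norm_add_le _ _).trans ?_
      rw [norm_smul, norm_smul, Real.norm_of_nonneg hτ, Real.norm_of_nonneg (sub_nonneg.2 a3)]
      nlinarith
    rw [Prod.norm_def, Prod.norm_def]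
    exact max_le_max (by simp) a5

end Est

variable {M : Type*} [TopologicalSpace M] {f : M → ℝ} {q : M}

/-- passing the point `q` attaches one cell of dimension `k` -/
def Hdl (f : M → ℝ) (q : M) (k : ℕ) : Prop :=
  (∀ᶠ x in 𝓝 q, x ≠ q → Reg f x) ∧ ∀ N ∈ 𝓝 q, ∃ B B' : Set M, IsOpen B ∧ q ∈ B ∧ B ⊆ B' ∧
    B' ⊆ N ∧ IsCompact B' ∧ ∃ ε₀ > 0, (∀ x ∈ B', x ≠ q → f q - ε₀ ≤ f x → Dir f B x) ∧
      ∀ ε, 0 < ε → ε ≤ ε₀ → LB B (B ∩ {x | f x < f q - ε}) fun _ : Unit => k + 1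

theorem exists_emb {E : Type*} [TopologicalSpace E] (e : OpenPartialHomeomorph M E) :
    ∃ (g : C(e.target, M)) (g' : C(e.target, E)), IsEmbedding g ∧ IsEmbedding g' ∧
      ∀ S ⊆ e.target, ∃ S', g '' S' = e.symm '' S ∧ g' '' S' = S := by
  refine ⟨⟨fun w => e.toHomeomorphSourceTarget.symm w, by fun_prop⟩, incl _,
    IsEmbedding.subtypeVal.comp e.toHomeomorphSourceTarget.symm.isEmbedding,
    IsEmbedding.subtypeVal, fun S hS => ⟨Subtype.val ⁻¹' S, ?_, ?_⟩⟩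
  · ext x
    exact ⟨fun ⟨w, hw, e⟩ => ⟨w, hw, e⟩, fun ⟨w, hw, e⟩ => ⟨⟨w, hS hw⟩, hw, e⟩⟩
  · rw [image_incl, inter_eq_right.2 hS]

theorem compact_band [T2Space M] {K : Set M} (hK : IsCompact K) (hf : ContinuousOn f K) (a b : ℝ) :
    IsCompact (K ∩ f ⁻¹' Icc a b) :=
  hK.of_isClosed_subset (hf.preimage_isClosed_of_isClosed hK.isClosed isClosed_Icc)
    inter_subset_left

theorem exists_bound_lt {K : Set M} (hK : IsCompact K) (hf : ContinuousOn f K) {c : ℝ}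
    (h : ∀ x ∈ K, f x < c) : ∃ b < c, ∀ x ∈ K, f x ≤ b := by
  obtain ⟨δ, hδ, h1⟩ : ∃ δ > 0, ∀ x ∈ K, δ ≤ c - f x :=
    hK.exists_forall_le' (continuousOn_const.sub hf) fun x hx => sub_pos.2 (h x hx)
  exact ⟨c - δ, by linarith, fun x hx => by linarith [h1 x hx]⟩

theorem Est.hdl [T2Space M] {A A' : Type} [NormedAddCommGroup A] [InnerProductSpace ℝ A]
    [NormedAddCommGroup A'] [InnerProductSpace ℝ A'] [FiniteDimensional ℝ A]
    [FiniteDimensional ℝ A'] (e : OpenPartialHomeomorph M (A × A')) (hq : q ∈ e.source)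
    (h0 : e q = 0) {r₀ : ℝ} (hr₀ : 0 < r₀) (h : Est (f ∘ e.symm) r₀) : Hdl f q (finrank ℝ A) := by
  have eq : e.symm 0 = q := by rw [← h0, e.left_inv hq]
  have F0 : (f ∘ e.symm) 0 = f q := congrArg f eq
  have reg : ∀ w ∈ e.target, w ∈ ball (0 : A × A') r₀ → w ≠ 0 → Reg f (e.symm w) := by
    intro w hw hw' hw0
    refine ⟨_, _, _, inferInstance, e, e.map_target hw, ?_⟩
    rw [e.right_inv hw]
    exact ⟨(h w hw').1, h.ne hw' hw0⟩
  refine ⟨?_, fun N hN => ?_⟩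
  · filter_upwards [e.open_source.mem_nhds hq,
      (e.continuousAt hq).eventually (ball_mem_nhds (e q) hr₀)] with x hx hx' hne
    rw [h0] at hx'
    rw [← e.left_inv hx]
    exact reg _ (e.map_source hx) hx' fun e' => hne (e.injOn hx hq (e'.trans h0.symm))
  obtain ⟨R, hR, h1⟩ := Metric.eventually_nhds_iff_ball.1 ((symm_eventually e hq hN).and
    (Filter.Eventually.and (e.open_target.mem_nhds (e.map_source hq)) (ball_mem_nhds (e q) hr₀)))
  rw [h0] at h1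
  have hT : ball 0 R ⊆ e.target := fun w hw => (h1 w hw).2.1
  have hr := half_pos hR
  set r := R / 2
  have c1 : closedBall (0 : A × A') r ⊆ ball 0 R := closedBall_subset_ball (half_lt_self hR)
  have c2 : ball (0 : A × A') r ⊆ e.target := ball_subset_closedBall.trans (c1.trans hT)
  have hB : IsOpen (e.symm '' ball 0 r) := e.isOpen_image_symm_of_subset_target isOpen_ball c2
  have hm : ∀ w ∈ e.target, e.symm w ∈ e.symm '' ball 0 r ↔ w ∈ ball 0 r := fun w hw =>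
    e.symm.injOn.mem_image_iff c2 hw
  have hK : IsCompact (e.symm '' closedBall 0 r) :=
    (isCompact_closedBall _ _).image_of_continuousOn (e.continuousOn_symm.mono (c1.trans hT))
  have hd : ∀ x ∈ e.symm '' closedBall 0 r, x ≠ q → f q - r ^ 2 / 2 ≤ f x →
      Dir f (e.symm '' ball 0 r) x := by
    rintro _ ⟨w, hw, rfl⟩ hne hf
    have hw0 : w ≠ 0 := fun e' => hne (e' ▸ eq)
    have hw1 := h1 w (c1 hw)
    rcases (mem_closedBall_zero_iff.1 hw).eq_or_lt with hn | hn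
    · obtain ⟨a1, ρ, hρ, a2⟩ := h.dir hw1.2.2 hw0 (by rwa [hn, F0])
      obtain ⟨ρ', hρ', a3⟩ := Metric.isOpen_iff.1 e.open_target w hw1.2.1
      refine ⟨_, _, _, inferInstance, e, (0, -w.2), e.map_target hw1.2.1, ?_⟩
      rw [e.right_inv hw1.2.1]
      refine ⟨(h w hw1.2.2).1, a1, min ρ ρ', lt_min hρ hρ', fun u hu τ hτ hu' hb => ?_⟩
      have b1 := ball_subset_ball (x := w) (min_le_left ρ ρ')
      have b2 := ball_subset_ball (x := w) (min_le_right ρ ρ')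
      exact mem_image_of_mem _ (mem_ball_zero_iff.2 ((a2 u (b1 hu) τ hτ (b1 hu')).trans_lt
        (mem_ball_zero_iff.1 ((hm u (a3 (b2 hu))).1 hb))))
    · exact (reg w hw1.2.1 hw1.2.2 hw0).dir
        (Or.inl (hB.mem_nhds (mem_image_of_mem _ (mem_ball_zero_iff.2 hn))))
  refine ⟨_, _, hB, ⟨0, mem_ball_self hr, eq⟩, image_mono ball_subset_closedBall, ?_, hK,
    r ^ 2 / 2, by positivity, hd, fun ε hε hε' => ?_⟩
  · rintro _ ⟨w, hw, rfl⟩
    exact (h1 w (c1 hw)).1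
  obtain ⟨g, g', hg, hg', hS⟩ := exists_emb e
  have hΩ : IsOpen (e.symm '' ball 0 R) := e.isOpen_image_symm_of_subset_target isOpen_ball hT
  have hf : ContinuousOn f (e.symm '' ball 0 R) := by
    rintro _ ⟨w, hw, rfl⟩
    have a1 := (h w (h1 w hw).2.2).1.continuousAt
    rw [← e.right_inv (hT hw)] at a1
    refine ((a1.comp (e.continuousAt (e.map_target (hT hw)))).congr ?_).continuousWithinAt
    filter_upwards [e.open_source.mem_nhds (e.map_target (hT hw))] with y hy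
    simp [e.left_inv hy]
  have s1 : e.symm '' closedBall 0 r ⊆ e.symm '' ball 0 R := image_mono c1
  have s2 : e.symm '' ball 0 r ⊆ e.symm '' closedBall 0 r := image_mono ball_subset_closedBall
  have s3 : e.symm '' ball 0 r ∩ {x | f x < f q - ε} ⊆ e.symm '' ball 0 r ∩ {x | f x < f q} :=
    fun x hx => ⟨hx.1, show f x < f q by linarith [show f x < f q - ε from hx.2]⟩
  refine lb_of_conc inter_subset_left ?_ ((Ac.conc_iff (ac_of_deform s3 fun K hK' hK2 => ?_) s3).1 ?_)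
  · obtain ⟨S, e1, e2⟩ := hS _ c2
    rw [← e1, acyc_image_iff g hg, ← acyc_image_iff g' hg', e2]
    exact acyc_of_starConvex (mem_ball_self hr) ((convex_ball _ _).starConvex (mem_ball_self hr))
  · obtain ⟨b, hb, hb'⟩ := exists_bound_lt hK' (hf.mono fun x hx => s1 (s2 (hK2 hx).1))
      fun x hx => (hK2 hx).2
    obtain ⟨H, m1, m2⟩ := exists_move hΩ hf (compact_band hK (hf.mono s1) (f q - ε) b)
      (inter_subset_left.trans s1) (fun x hx => hd x hx.1 (fun e => by linarith [e ▸ hx.2.2])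
        (by linarith [hx.2.1])) (Or.inr rfl) (Or.inl rfl) fun x _ hx a1 a2 _ => ⟨s2 hx, a1, a2⟩
    have a1 : ∀ t c, ∀ z ∈ e.symm '' ball 0 r ∩ {x | f x < c},
        H (t, z) ∈ e.symm '' ball 0 r ∩ {x | f x < c} := fun t c z hz =>
      ⟨m1.pres t z hz.1, (m1.le t z (s1 (s2 hz.1))).trans_lt hz.2⟩
    exact ⟨H, H.continuous.continuousOn, fun z _ => m1.zero z, fun t _ z hz => a1 t _ z (hK2 hz),
      fun t _ z _ hz => a1 t _ z hz, fun z hz => ⟨m1.pres 1 z (hK2 hz).1,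
        (m2 z (s1 (s2 (hK2 hz).1)) (hK2 hz).1 (hb' z hz)).resolve_right id⟩⟩
  · obtain ⟨S, e1, e2⟩ := hS (ball 0 r ∩ {w | (f ∘ e.symm) w < (f ∘ e.symm) 0})
      (inter_subset_left.trans c2)
    have e3 : e.symm '' ball 0 r ∩ {x | f x < f q} =
        e.symm '' (ball 0 r ∩ {w | (f ∘ e.symm) w < (f ∘ e.symm) 0}) := by
      rw [F0, ← image_inter_preimage]
      rfl
    have h' : Est (f ∘ e.symm) r := fun w hw => h w (h1 w (c1 (ball_subset_closedBall hw))).2.2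
    rw [e3, ← e1, conc_image_iff g hg, ← conc_image_iff g' hg', e2]
    exact h'.conc hr le_rfl

theorem exists_diag {E : Type} [NormedAddCommGroup E] [NormedSpace ℝ E] [FiniteDimensional ℝ E]
    (β : E →L[ℝ] E →L[ℝ] ℝ) (hs : ∀ u v, β u v = β v u) (hi : Function.Injective β) :
    ∃ (k l : ℕ) (L : E ≃L[ℝ] EuclideanSpace ℝ (Fin k) × EuclideanSpace ℝ (Fin l)),
      ∀ u v, β u v = 2 * ⟪(L u).2, (L v).2⟫ - 2 * ⟪(L u).1, (L v).1⟫ := by
  classical
  let B : LinearMap.BilinForm ℝ E := (ContinuousLinearMap.coeLM ℝ).comp β.toLinearMap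
  obtain ⟨b, hb⟩ := LinearMap.BilinForm.exists_orthogonal_basis (B := B) ⟨fun u v => hs u v⟩
  let a : Fin (finrank ℝ E) → ℝ := fun i => β (b i) (b i)
  have e1 : ∀ u v, β u v = ∑ i, a i * (b.repr u i * b.repr v i) := fun u v => by
    conv_lhs => rw [← b.sum_repr u, ← b.sum_repr v]
    simp only [map_sum, map_smul, sum_apply, smul_apply, smul_eq_mul]
    refine Finset.sum_congr rfl fun i _ => ?_
    rw [Finset.sum_eq_single i (fun j _ hj => by rw [show β (b j) (b i) = 0 from hb hj, mul_zero])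
      (by simp)]
    ring
  let I := {i // a i < 0}
  let I' := {i // ¬ a i < 0}
  let L : E →ₗ[ℝ] EuclideanSpace ℝ I × EuclideanSpace ℝ I' :=
    ((WithLp.linearEquiv 2 ℝ _).symm.toLinearMap.comp
      (LinearMap.pi fun i : I => √(-a i / 2) • b.coord i)).prod
    ((WithLp.linearEquiv 2 ℝ _).symm.toLinearMap.comp
      (LinearMap.pi fun i : I' => √(a i / 2) • b.coord i))
  have l1 : ∀ u i, (L u).1 i = √(-a i / 2) * b.repr u i := fun _ _ => rfl
  have l2 : ∀ u i, (L u).2 i = √(a i / 2) * b.repr u i := fun _ _ => rfl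
  have e2 : ∀ u v, β u v = 2 * ⟪(L u).2, (L v).2⟫ - 2 * ⟪(L u).1, (L v).1⟫ := fun u v => by
    rw [e1, ← Fintype.sum_subtype_add_sum_subtype (fun i => a i < 0), PiLp.inner_apply,
      PiLp.inner_apply, Finset.mul_sum, Finset.mul_sum, sub_eq_neg_add, ← Finset.sum_neg_distrib]
    congr 1 <;> refine Finset.sum_congr rfl fun i _ => ?_
    · have := Real.mul_self_sqrt (x := -a i / 2) (by linarith [i.2])
      simp only [l1, RCLike.inner_apply, conj_trivial]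
      linear_combination (2 * b.repr u i * b.repr v i) * this
    · have := Real.mul_self_sqrt (x := a i / 2) (by linarith [not_lt.1 i.2])
      simp only [l2, RCLike.inner_apply, conj_trivial]
      linear_combination (-2 * b.repr u i * b.repr v i) * this
  have hL : Function.Injective L := (injective_iff_map_eq_zero L).2 fun u hu =>
    hi (by ext v; simp [e2, hu])
  have hd : finrank ℝ E = finrank ℝ (EuclideanSpace ℝ I × EuclideanSpace ℝ I') := by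
    rw [finrank_prod, finrank_euclideanSpace, finrank_euclideanSpace, Fintype.card_subtype_compl,
      add_tsub_cancel_of_le (Fintype.card_subtype_le _), Fintype.card_fin]
  let j := LinearIsometryEquiv.piLpCongrLeft 2 ℝ ℝ (Fintype.equivFin I)
  let j' := LinearIsometryEquiv.piLpCongrLeft 2 ℝ ℝ (Fintype.equivFin I')
  refine ⟨_, _, (L.linearEquivOfInjective hL hd).toContinuousLinearEquiv.trans
    (j.toContinuousLinearEquiv.prodCongr j'.toContinuousLinearEquiv), fun u v => ?_⟩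
  rw [e2, ← j.inner_map_map, ← j'.inner_map_map]
  rfl

theorem hdl_of_hess [T2Space M] {E : Type} [NormedAddCommGroup E] [NormedSpace ℝ E]
    [FiniteDimensional ℝ E] (e : OpenPartialHomeomorph M E) (hq : q ∈ e.source)
    (h2 : ContDiffAt ℝ 2 (f ∘ e.symm) (e q)) (h0 : fderiv ℝ (f ∘ e.symm) (e q) = 0)
    (hi : Function.Injective (fderiv ℝ (fderiv ℝ (f ∘ e.symm)) (e q))) :
    ∃ k, Hdl f q k ∧ ∃ N P : Submodule ℝ E, finrank ℝ N = k ∧ finrank ℝ P + k = finrank ℝ E ∧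
      ∀ v, v ≠ 0 → (v ∈ N → fderiv ℝ (fderiv ℝ (f ∘ e.symm)) (e q) v v < 0) ∧
        (v ∈ P → 0 < fderiv ℝ (fderiv ℝ (f ∘ e.symm)) (e q) v v) := by
  obtain ⟨k, l, L, hL⟩ := exists_diag _ (h2.isSymmSndFDerivAt (by simp)).eq hi
  set F := f ∘ e.symm
  let e' := e.transHomeomorph ((Homeomorph.subRight (e q)).trans L.toHomeomorph)
  have e1 : f ∘ e'.symm = F ∘ fun u => L.symm u + e q := rfl
  have c1 : ContDiff ℝ 1 fun u => L.symm u + e q := by fun_prop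
  have t1 : Tendsto (fun u => L.symm u + e q) (𝓝 0) (𝓝 (e q)) :=
    c1.continuous.tendsto' _ _ (by simp)
  have a1 := ((h2.fderiv_right (m := 1) (by norm_num)).differentiableAt one_ne_zero).hasFDerivAt
  set C := ‖L.symm.toContinuousLinearMap‖
  have hC : 0 ≤ C := norm_nonneg _
  obtain ⟨r₀, hr₀, h1⟩ := Metric.eventually_nhds_iff_ball.1 (t1.eventually
    (((h2.of_le one_le_two).eventually (by simp)).and
      (a1.isLittleO.bound (c := 1 / 8 / (C ^ 2 + 1)) (by positivity))))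
  have hE : Est (f ∘ e'.symm) r₀ := fun w hw => by
    obtain ⟨b1, b2⟩ := h1 w hw
    refine ⟨by rw [e1]; exact b1.comp w c1.contDiffAt, fun v => ?_⟩
    have d1 : HasFDerivAt (fun u => L.symm u + e q) L.symm.toContinuousLinearMap w :=
      L.symm.hasFDerivAt.add_const _
    have b3 := hL (L.symm w) (L.symm v)
    rw [L.apply_symm_apply, L.apply_symm_apply] at b3
    rw [e1, ((b1.differentiableAt one_ne_zero).hasFDerivAt.comp w d1).fderiv, ← b3]
    rw [h0, sub_zero, add_sub_cancel_right] at b2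
    have b4 := (ContinuousLinearMap.le_opNorm _ (L.symm v)).trans
      (mul_le_mul b2 (L.symm.toContinuousLinearMap.le_opNorm v) (norm_nonneg _) (by positivity))
    refine le_trans b4 ?_
    have b5 : ‖L.symm w‖ ≤ C * ‖w‖ := L.symm.toContinuousLinearMap.le_opNorm w
    calc _ ≤ 1 / 8 / (C ^ 2 + 1) * (C * ‖w‖) * (C * ‖v‖) := by gcongr
      _ = C ^ 2 / (C ^ 2 + 1) * (1 / 8 * ‖w‖ * ‖v‖) := by field_simp
      _ ≤ _ := mul_le_of_le_one_left (by positivity) (div_le_one_of_le₀ (by linarith) (by positivity))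
  refine ⟨_, hE.hdl e' hq (by simp [e']) hr₀,
    (LinearMap.range (LinearMap.inl ℝ _ _)).map L.symm.toLinearEquiv.toLinearMap,
    (LinearMap.range (LinearMap.inr ℝ _ _)).map L.symm.toLinearEquiv.toLinearMap, ?_, ?_, ?_⟩
  · rw [LinearEquiv.finrank_map_eq, LinearMap.finrank_range_of_inj LinearMap.inl_injective]
  · rw [LinearEquiv.finrank_map_eq, LinearMap.finrank_range_of_inj LinearMap.inr_injective,
      L.toLinearEquiv.finrank_eq, finrank_prod, add_comm]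
  · intro v h0
    rw [hL]
    constructor
    · rintro ⟨_, ⟨x, rfl⟩, rfl⟩
      simpa using pow_pos (norm_pos_iff.2 fun e : x = 0 => h0 (by simp [e])) 2
    · rintro ⟨_, ⟨x, rfl⟩, rfl⟩
      simpa using pow_pos (norm_pos_iff.2 fun e : x = 0 => h0 (by simp [e])) 2

end Pool.Agent.Lib.MP_356dfe_ag
end
end

-- part Pool.Agent.Lib.MP_356dfe_ag.Morse
section

/-! Filtrations by sublevel sets of a function with nondegenerate critical points. -/

set_option autoImplicit false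

open Set Filter Topology Pool.Agent.Shared.SingHom

noncomputable section

namespace Pool.Agent.Lib.MP_356dfe_ag

variable {M : Type*} [TopologicalSpace M] {Ω V V' : Set M} {f : M → ℝ} {𝒢 : Set (Set M)}
  {l : List ℕ}

/-- a global homotopy deforms `V'` into `V` -/
def GD (V V' : Set M) : Prop :=
  ∃ H : C(ℝ × M, M), (∀ y, H (0, y) = y) ∧ (∀ t, ∀ y ∈ V', H (t, y) ∈ V') ∧
    (∀ t, ∀ y ∈ V, H (t, y) ∈ V) ∧ ∀ y ∈ V', H (1, y) ∈ V

/-- open sets obtained from `V` by deformations and by attaching cells -/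
inductive Filt (𝒢 : Set (Set M)) (V : Set M) : List ℕ → Set M → Prop
  | refl : Filt 𝒢 V [] V
  | deform {l : List ℕ} {V' V'' : Set M} : Filt 𝒢 V l V' → V' ⊆ V'' → IsOpen V'' → GD V' V'' →
      Filt 𝒢 V l V''
  | attach {l : List ℕ} {V' U : Set M} {k : ℕ} : Filt 𝒢 V l V' → IsOpen U → U ∈ 𝒢 →
      LB U (U ∩ V') (fun _ : Unit => k) → Filt 𝒢 V (k :: l) (V' ∪ U)

theorem Filt.isOpen (h : Filt 𝒢 V l V') (hV : IsOpen V) : IsOpen V' := by
  induction h with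
  | refl => exact hV
  | deform _ _ h _ _ => exact h
  | attach _ h _ _ ih => exact ih.union h

theorem Filt.subset (h : Filt 𝒢 V l V') : V ⊆ V' := by
  induction h with
  | refl => exact Subset.rfl
  | deform _ h _ _ ih => exact ih.trans h
  | attach _ _ _ _ ih => exact ih.trans subset_union_left

theorem GD.ac (h : GD V V') (hV : V ⊆ V') : Ac V' V := by
  obtain ⟨H, h0, h1, h2, h3⟩ := h
  exact ac_of_deform hV fun K _ hK => ⟨H, H.continuous.continuousOn, fun z _ => h0 z,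
    fun t _ z hz => h1 t z (hK hz), fun t _ z _ hz => h2 t z hz, fun z hz => h3 z (hK hz)⟩

theorem Filt.rv (h : Filt 𝒢 V l V') (hV : IsOpen V) {m : ℕ} (hm : m + 1 ∉ l) : RV m V' V := by
  induction h with
  | refl => exact RV.refl _ _
  | deform h h1 _ h2 ih => exact (RV.of_ac (h2.ac h1) m).trans (ih hm) h.subset h1
  | attach h h1 _ h2 ih =>
    rw [List.mem_cons, not_or] at hm
    exact (RV.attach (h.isOpen hV) h1 h2 fun _ => Ne.symm hm.1).trans (ih hm.2) h.subset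
      subset_union_left

theorem Filt.attach_all {ι : Type*} {P : ℕ → Prop} {B : ι → Set M} {k : ι → ℕ} (s : Finset ι)
    (h : Filt 𝒢 V l V') (hl : ∀ k ∈ l, P k) (ho : ∀ i ∈ s, IsOpen (B i)) (hG : ∀ i ∈ s, B i ∈ 𝒢)
    (hk : ∀ i ∈ s, P (k i)) (hd : ∀ i ∈ s, ∀ j ∈ s, i ≠ j → Disjoint (B i) (B j))
    (hL : ∀ i ∈ s, LB (B i) (B i ∩ V') fun _ : Unit => k i) :
    ∃ l', (∀ k ∈ l', P k) ∧ Filt 𝒢 V l' (V' ∪ ⋃ i ∈ s, B i) := by
  classical
  induction s using Finset.induction_on with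
  | empty => exact ⟨l, hl, by simpa using h⟩
  | insert i s hi ih =>
    have m1 := Finset.mem_insert_self i s
    have m2 : ∀ j ∈ s, j ∈ insert i s := fun j => Finset.mem_insert_of_mem
    obtain ⟨l', h1, h2⟩ := ih (fun j hj => ho j (m2 j hj)) (fun j hj => hG j (m2 j hj))
      (fun j hj => hk j (m2 j hj)) (fun j hj j' hj' => hd j (m2 j hj) j' (m2 j' hj'))
      fun j hj => hL j (m2 j hj)
    refine ⟨k i :: l', List.forall_mem_cons.2 ⟨hk i m1, h1⟩, ?_⟩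
    rw [Finset.set_biUnion_insert, union_comm (B i), ← union_assoc]
    refine h2.attach (ho i m1) (hG i m1) ?_
    rw [inter_union_distrib_left, (disjoint_iUnion₂_right.2 fun j hj =>
      hd i m1 j (m2 j hj) fun e => hi (e ▸ hj)).inter_eq, union_empty]
    exact hL i m1

theorem isOpen_lt_on (hΩ : IsOpen Ω) (hf : ContinuousOn f Ω) (c : ℝ) :
    IsOpen (Ω ∩ {x | f x < c}) := hf.isOpen_inter_preimage hΩ isOpen_Iio

variable [T2Space M]

theorem gd_of_dir (hΩ : IsOpen Ω) (hf : ContinuousOn f Ω) {B : Set M} {a b : ℝ} (hB : IsOpen B)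
    (hc : IsCompact (Ω ∩ f ⁻¹' Icc a b)) (hd : ∀ x ∈ Ω ∩ f ⁻¹' Icc a b, x ∉ B → Dir f B x) :
    GD (Ω ∩ {x | f x < a} ∪ B) (Ω ∩ {x | f x < b}) := by
  obtain ⟨H, m1, m2⟩ := exists_move hΩ hf (hc.diff hB) (sdiff_subset.trans inter_subset_left)
    (fun x hx => hd x hx.1 hx.2) (Or.inl rfl) (Or.inr rfl) fun x hx _ a1 a2 a3 => ⟨⟨hx, a1, a2⟩, a3⟩
  have a1 : ∀ t c, ∀ z ∈ Ω ∩ {x | f x < c}, H (t, z) ∈ Ω ∩ {x | f x < c} := fun t c z hz =>
    ⟨m1.mem t z hz.1, (m1.le t z hz.1).trans_lt hz.2⟩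
  exact ⟨H, m1.zero, fun t => a1 t b, fun t y hy => hy.imp (a1 t a y) (m1.pres t y),
    fun y hy => (m2 y hy.1 trivial hy.2.le).imp_left fun h => ⟨m1.mem 1 y hy.1, h⟩⟩

omit [T2Space M] in
theorem finite_crit {Z : Set M} (hZ : IsCompact Z) (h : ∀ x ∈ Z, Reg f x ∨ ∃ k, Hdl f x k) :
    {x ∈ Z | ¬ Reg f x}.Finite := by
  refine hZ.induction_on (p := fun S => {x ∈ S | ¬ Reg f x}.Finite) (by simp)
    (fun _ _ hst h => h.subset fun x hx => ⟨hst hx.1, hx.2⟩)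
    (fun _ _ h h' => (h.union h').subset fun x hx => hx.1.imp (⟨·, hx.2⟩) (⟨·, hx.2⟩))
    fun x hx => ⟨{y | y ≠ x → Reg f y}, mem_nhdsWithin_of_mem_nhds ?_,
      (finite_singleton x).subset fun y hy => by_contra fun h => hy.2 (hy.1 h)⟩
  rcases h x hx with h | ⟨k, h⟩
  · exact h.eventually.mono fun y hy _ => hy
  · exact h.1

theorem morse_aux (hΩ : IsOpen Ω) (hf : ContinuousOn f Ω) {a b₀ : ℝ} {P : ℕ → Prop}
    (hc : IsCompact (Ω ∩ f ⁻¹' Icc a b₀))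
    (hm : ∀ x ∈ Ω ∩ f ⁻¹' Icc a b₀, Reg f x ∨ ∃ k, P (k + 1) ∧ Hdl f x k)
    (hG : ∀ x ∈ Ω ∩ f ⁻¹' Icc a b₀, ∃ N ∈ 𝓝 x, ∀ U ⊆ N, IsOpen U → U ∈ 𝒢)
    (ha : ∀ x ∈ Ω, f x = a → Reg f x) (n : ℕ) : ∀ b, a < b → b ≤ b₀ →
      (∀ x ∈ Ω, f x = b → Reg f x) → {x ∈ Ω ∩ f ⁻¹' Icc a b | ¬ Reg f x}.ncard ≤ n →
      ∃ l, (∀ k ∈ l, P k) ∧ Filt 𝒢 (Ω ∩ {x | f x < a}) l (Ω ∩ {x | f x < b}) := by
  have hsub : ∀ a' b, a ≤ a' → b ≤ b₀ → Ω ∩ f ⁻¹' Icc a' b ⊆ Ω ∩ f ⁻¹' Icc a b₀ :=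
    fun a' b h h' => inter_subset_inter_right _ (preimage_mono (Icc_subset_Icc h h'))
  have hc' : ∀ a' b, a ≤ a' → b ≤ b₀ → IsCompact (Ω ∩ f ⁻¹' Icc a' b) := fun a' b h h' => by
    have := compact_band hc (hf.mono inter_subset_left) a' b
    rwa [inter_assoc, ← preimage_inter, inter_eq_right.2 (Icc_subset_Icc h h')] at this
  have hfin : ∀ b, b ≤ b₀ → {x ∈ Ω ∩ f ⁻¹' Icc a b | ¬ Reg f x}.Finite := fun b hb =>
    finite_crit (hc' a b le_rfl hb) fun x hx =>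
      (hm x (hsub a b le_rfl hb hx)).imp_right fun ⟨k, h⟩ => ⟨k, h.2⟩
  have base : ∀ b, a < b → b ≤ b₀ → {x ∈ Ω ∩ f ⁻¹' Icc a b | ¬ Reg f x} = ∅ →
      ∃ l, (∀ k ∈ l, P k) ∧ Filt 𝒢 (Ω ∩ {x | f x < a}) l (Ω ∩ {x | f x < b}) := by
    intro b hab hb h0
    refine ⟨[], by simp, Filt.refl.deform (fun x hx => ⟨hx.1, hx.2.trans hab⟩)
      (isOpen_lt_on hΩ hf b) ?_⟩
    have := gd_of_dir hΩ hf isOpen_empty (hc' a b le_rfl hb) fun x hx _ =>
      Reg.dir (by_contra fun h => h0.subset ⟨hx, h⟩) (Or.inr (by simp))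
    rwa [union_empty] at this
  induction n with
  | zero => exact fun b hab hb _ hn => base b hab hb ((ncard_eq_zero (hfin b hb)).1 (by omega))
  | succ n ih =>
    intro b hab hb hrb hn
    rcases eq_empty_or_nonempty {x ∈ Ω ∩ f ⁻¹' Icc a b | ¬ Reg f x} with h0 | h0
    · exact base b hab hb h0
    obtain ⟨q₀, hq₀, hmax⟩ := exists_max_image _ f (hfin b hb) h0
    set Cr := {x ∈ Ω ∩ f ⁻¹' Icc a b | ¬ Reg f x}
    have hac : a < f q₀ := hq₀.1.2.1.lt_of_ne fun e => hq₀.2 (ha _ hq₀.1.1 e.symm)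
    have hcb : f q₀ < b := hq₀.1.2.2.lt_of_ne fun e => hq₀.2 (hrb _ hq₀.1.1 e)
    have hQ : {x ∈ Cr | f x = f q₀}.Finite := (hfin b hb).subset fun x hx => hx.1
    obtain ⟨O, hO, hO'⟩ := hQ.t2_separation
    have key : ∀ q ∈ {x ∈ Cr | f x = f q₀}, ∃ (k : ℕ) (B B' : Set M) (ε₀ : ℝ), P k ∧ IsOpen B ∧
        B ∈ 𝒢 ∧ q ∈ B ∧ B ⊆ B' ∧ B' ⊆ O q ∩ (Ω ∩ {x | f x < b}) ∧ IsClosed B' ∧ 0 < ε₀ ∧
        (∀ x ∈ B', x ≠ q → f q₀ - ε₀ ≤ f x → Dir f B x) ∧
        ∀ ε, 0 < ε → ε ≤ ε₀ → LB B (B ∩ {x | f x < f q₀ - ε}) fun _ : Unit => k := by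
      intro q hq
      have hq' := hsub a b le_rfl hb hq.1.1
      obtain ⟨k, hk, h1⟩ := (hm q hq').resolve_left hq.1.2
      obtain ⟨N, hN, h2⟩ := hG q hq'
      obtain ⟨B, B', b1, b2, b3, b4, b5, ε₀, b6, b7, b8⟩ := h1.2 _ (inter_mem hN (inter_mem
        ((hO q).2.mem_nhds (hO q).1)
        ((isOpen_lt_on hΩ hf b).mem_nhds ⟨hq'.1, show f q < b from hq.2 ▸ hcb⟩)))
      rw [hq.2] at b7 b8
      exact ⟨k + 1, B, B', ε₀, hk, b1, h2 B (fun x hx => (b4 (b3 hx)).1) b1, b2, b3,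
        fun x hx => (b4 hx).2, b5.isClosed, b6, b7, b8⟩
    choose! k B B' ε₀ k1 k2 k3 k4 k5 k6 k7 k8 k9 k10 using key
    obtain ⟨ε, e1, e2, e3, e4⟩ : ∃ ε, 0 < ε ∧ a < f q₀ - ε ∧
        (∀ q ∈ {x ∈ Cr | f x = f q₀}, ε ≤ ε₀ q) ∧ ∀ x ∈ Cr, f x < f q₀ → f x < f q₀ - ε := by
      have t0 : Tendsto (fun ε : ℝ => f q₀ - ε) (𝓝 0) (𝓝 (f q₀)) :=
        (continuous_const.sub continuous_id).tendsto' _ _ (by simp)
      refine Filter.Eventually.exists (f := 𝓝[>] 0) (Filter.Eventually.and self_mem_nhdsWithin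
        (Filter.Eventually.filter_mono nhdsWithin_le_nhds ((t0.eventually_const_lt hac).and
        (Filter.Eventually.and ((eventually_all_finite hQ).2 fun q hq => ge_mem_nhds (k8 q hq))
        ((eventually_all_finite (hfin b hb)).2 fun x _ => ?_)))))
      by_cases h : f x < f q₀
      · exact (t0.eventually_const_lt h).mono fun _ h _ => h
      · exact .of_forall fun _ h' => absurd h' h
    have hreg : ∀ x ∈ Ω, f q₀ - ε ≤ f x → f x ≤ b → f x ≠ f q₀ → Reg f x := by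
      intro x hx a1 a2 a3
      by_contra h
      have h1 : x ∈ Cr := ⟨⟨hx, e2.le.trans a1, a2⟩, h⟩
      exact (e4 x h1 ((hmax x h1).lt_of_ne a3)).not_ge a1
    obtain ⟨l, l1, l2⟩ := ih (f q₀ - ε) e2 (by linarith)
      (fun x hx e => hreg x hx e.ge (by linarith) (by linarith)) (by
        refine Nat.le_of_lt_succ ((ncard_lt_ncard ⟨fun x hx => ?_, fun e => ?_⟩
          (hfin b hb)).trans_le hn)
        · exact ⟨⟨hx.1.1, hx.1.2.1, hx.1.2.2.trans (by linarith)⟩, hx.2⟩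
        · linarith [(e hq₀).1.2.2])
    have hdis : ∀ i ∈ {x ∈ Cr | f x = f q₀}, ∀ j ∈ {x ∈ Cr | f x = f q₀}, i ≠ j →
        Disjoint (B' i) (B' j) := fun i hi j hj h =>
      (hO' hi hj h).mono (fun x hx => (k6 i hi hx).1) fun x hx => (k6 j hj hx).1
    obtain ⟨l', l3, l4⟩ := l2.attach_all (B := B) (k := k) hQ.toFinset l1
      (fun i hi => k2 i (hQ.mem_toFinset.1 hi)) (fun i hi => k3 i (hQ.mem_toFinset.1 hi))
      (fun i hi => k1 i (hQ.mem_toFinset.1 hi)) (fun i hi j hj h => by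
        rw [hQ.mem_toFinset] at hi hj
        exact (hdis i hi j hj h).mono (k5 i hi) (k5 j hj)) fun i hi => by
        rw [hQ.mem_toFinset] at hi
        rw [← inter_assoc, inter_eq_left.2 fun x hx => (k6 i hi (k5 i hi hx)).2.1]
        exact k10 i hi ε e1 (e3 i hi)
    simp only [hQ.mem_toFinset] at l4
    refine ⟨l', l3, l4.deform (union_subset (fun x hx => ⟨hx.1, lt_trans hx.2 ((sub_lt_self _ e1).trans hcb)⟩)
      (iUnion₂_subset fun i hi x hx => (k6 i hi (k5 i hi hx)).2)) (isOpen_lt_on hΩ hf b)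
      (gd_of_dir hΩ hf (isOpen_biUnion k2) (hc' _ b e2.le hb) fun x hx hx' => ?_)⟩
    have hcl : ∀ S ⊆ {x ∈ Cr | f x = f q₀}, (∀ i ∈ S, x ∉ B' i) → ∀ᶠ y in 𝓝 x, ∀ i ∈ S, y ∉ B i :=
      fun S hS h => (eventually_all_finite (hQ.subset hS)).2 fun i hi =>
        mem_of_superset ((k7 i (hS hi)).isOpen_compl.mem_nhds (h i hi))
          fun y hy hy' => hy (k5 i (hS hi) hy')
    by_cases h : ∃ i ∈ {x ∈ Cr | f x = f q₀}, x ∈ B' i
    · obtain ⟨i, hi, h⟩ := h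
      refine (k9 i hi x h (fun e => hx' (mem_biUnion hi (e ▸ k4 i hi)))
        (by linarith [e3 i hi, hx.2.1])).congr ?_
      filter_upwards [hcl (_ \ {i}) sdiff_subset fun j hj h' =>
        disjoint_left.1 (hdis j hj.1 i hi hj.2) h' h] with y hy
      refine ⟨mem_biUnion hi, fun h' => ?_⟩
      obtain ⟨j, hj, h'⟩ := mem_iUnion₂.1 h'
      by_contra h''
      exact hy j ⟨hj, fun e => h'' (e ▸ h')⟩ h'
    · push Not at h
      refine Reg.dir (by_contra fun hr => ?_) (Or.inr (mem_of_superset (hcl _ Subset.rfl h)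
        fun y hy h' => ?_))
      · have h1 : x ∈ {x ∈ Cr | f x = f q₀} := ⟨⟨⟨hx.1, e2.le.trans hx.2.1, hx.2.2⟩, hr⟩,
          by_contra fun e => hr (hreg x hx.1 hx.2.1 hx.2.2 e)⟩
        exact h x h1 (k5 x h1 (k4 x h1))
      · obtain ⟨j, hj, h'⟩ := mem_iUnion₂.1 h'
        exact hy j hj h'

theorem morse (hΩ : IsOpen Ω) (hf : ContinuousOn f Ω) {a₁ a₂ b₁ b₂ : ℝ} (ha : a₁ < a₂)
    (hab : a₂ ≤ b₁) (hb : b₁ < b₂) {P : ℕ → Prop} (hc : IsCompact (Ω ∩ f ⁻¹' Icc a₁ b₂))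
    (hm : ∀ x ∈ Ω ∩ f ⁻¹' Icc a₁ b₂, Reg f x ∨ ∃ k, P (k + 1) ∧ Hdl f x k)
    (hG : ∀ x ∈ Ω ∩ f ⁻¹' Icc a₁ b₂, ∃ N ∈ 𝓝 x, ∀ U ⊆ N, IsOpen U → U ∈ 𝒢) :
    ∃ a ∈ Ioo a₁ a₂, ∃ b ∈ Ioo b₁ b₂,
      ∃ l, (∀ k ∈ l, P k) ∧ Filt 𝒢 (Ω ∩ {x | f x < a}) l (Ω ∩ {x | f x < b}) := by
  have hfin := (finite_crit hc fun x hx => (hm x hx).imp_right fun ⟨k, h⟩ => ⟨k, h.2⟩).image f
  obtain ⟨a, a1, a2⟩ := (Ioo_infinite ha).exists_notMem_finite hfin
  obtain ⟨b, b1, b2⟩ := (Ioo_infinite hb).exists_notMem_finite hfin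
  have h1 : a < b := by linarith [a1.2, b1.1]
  have hs : Ω ∩ f ⁻¹' Icc a b₂ ⊆ Ω ∩ f ⁻¹' Icc a₁ b₂ :=
    inter_subset_inter_right _ (preimage_mono (Icc_subset_Icc_left a1.1.le))
  have hc' := compact_band hc (hf.mono inter_subset_left) a b₂
  rw [inter_assoc, ← preimage_inter, inter_eq_right.2 (Icc_subset_Icc_left a1.1.le)] at hc'
  refine ⟨a, a1, b, b1, morse_aux hΩ hf hc' (fun x hx => hm x (hs hx)) (fun x hx => hG x (hs hx))
    (fun x hx e => by_contra fun h => a2 ⟨x, ⟨⟨hx, ?_⟩, h⟩, e⟩) _ b h1 b1.2.le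
    (fun x hx e => by_contra fun h => b2 ⟨x, ⟨⟨hx, ?_⟩, h⟩, e⟩) le_rfl⟩
  · exact ⟨by linarith [a1.1], by linarith [b1.2]⟩
  · exact ⟨by linarith [a1.1], by linarith [b1.2]⟩

end Pool.Agent.Lib.MP_356dfe_ag
end
end

-- part Pool.Agent.Lib.MP_356dfe_ag.Pert
section

/-! Generic members of ample families have nondegenerate critical points. -/

set_option autoImplicit false

open Set Filter Topology Metric Module MeasureTheory

noncomputable section

namespace Pool.Agent.Lib.MP_356dfe_ag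

variable {M : Type*} [TopologicalSpace M] {E : Type} [NormedAddCommGroup E] [NormedSpace ℝ E]
  [FiniteDimensional ℝ E]

/-- `w` is a regular point or a nondegenerate critical point of `F` -/
def ND (F : E → ℝ) (w : E) : Prop :=
  fderiv ℝ F w ≠ 0 ∨ Function.Injective (fderiv ℝ (fderiv ℝ F) w)

theorem sard {Ψ : E → E →L[ℝ] ℝ} {O : Set E} (h : ∀ w ∈ O, DifferentiableAt ℝ Ψ w) :
    Dense {ξ : E →L[ℝ] ℝ | ∀ w ∈ O, Ψ w + ξ ≠ 0 ∨ Function.Injective (fderiv ℝ Ψ w)} := by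
  borelize E
  let j : E ≃L[ℝ] (E →L[ℝ] ℝ) := ContinuousLinearEquiv.ofFinrankEq (by
    rw [← (LinearMap.toContinuousLinearMap (𝕜 := ℝ) (E := E) (F' := ℝ)).finrank_eq,
      Subspace.dual_finrank_eq])
  let k := (j.trans (ContinuousLinearEquiv.neg ℝ)).symm
  have h1 := addHaar_image_eq_zero_of_det_fderivWithin_eq_zero Measure.addHaar
    (s := {w ∈ O | ¬ Function.Injective (fderiv ℝ Ψ w)}) (f := fun w => k (Ψ w))
    (f' := fun w => k.toContinuousLinearMap.comp (fderiv ℝ Ψ w))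
    (fun w hw => (k.hasFDerivAt.comp w (h w hw.1).hasFDerivAt).hasFDerivWithinAt) fun w hw => by
      by_contra hd
      exact hw.2 (Function.Injective.of_comp (f := k)
        (ContinuousLinearMap.toContinuousLinearEquivOfDetNeZero _ hd).injective)
  have h2 := Measure.addHaar.dense_of_ae (measure_eq_zero_iff_ae_notMem.1 h1)
  refine (j.surjective.denseRange.dense_image j.continuous h2).mono ?_
  rintro _ ⟨v, hv, rfl⟩ w hw
  by_contra hc
  push Not at hc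
  refine hv ⟨w, ⟨hw, hc.2⟩, ?_⟩
  beta_reduce
  rw [eq_neg_of_add_eq_zero_left hc.1]
  exact (j.trans (ContinuousLinearEquiv.neg ℝ)).symm_apply_apply v

/-- `x` is a regular point or a nondegenerate critical point in a chart of the class `𝒜` -/
def MA (𝒜 : OpenPartialHomeomorph M E → Prop) (Q : (E →L[ℝ] E →L[ℝ] ℝ) → Prop) (f : M → ℝ)
    (x : M) : Prop :=
  ∃ e, 𝒜 e ∧ x ∈ e.source ∧ ContDiffAt ℝ 2 (f ∘ e.symm) (e x) ∧
    Q (fderiv ℝ (fderiv ℝ (f ∘ e.symm)) (e x)) ∧ ND (f ∘ e.symm) (e x)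

variable {P : Type*} [NormedAddCommGroup P] [NormedSpace ℝ P]

omit [FiniteDimensional ℝ E] in
theorem cont_fderiv {G : P × E → ℝ} {q : P × E} (h : ContDiffAt ℝ 2 G q) :
    ContinuousAt (fun z : P × E => fderiv ℝ (fun w => G (z.1, w)) z.2) q ∧
    ContinuousAt (fun z : P × E => fderiv ℝ (fderiv ℝ fun w => G (z.1, w)) z.2) q := by
  have h1 : ContDiffAt ℝ 1 (fun z : P × E => fderiv ℝ (fun w => G (z.1, w)) z.2) q :=
    ContDiffAt.fderiv (f := fun (z : P × E) w => G (z.1, w)) (n := 2)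
      (h.comp _ (by fun_prop)) contDiffAt_snd (by norm_num)
  have h2 : ContDiffAt ℝ 0 (fun z : P × E =>
      fderiv ℝ (fun w => fderiv ℝ (fun w => G (z.1, w)) w) z.2) q :=
    ContDiffAt.fderiv (f := fun (z : P × E) w => fderiv ℝ (fun w => G (z.1, w)) w) (n := 1)
      (h1.comp (f := fun y : (P × E) × E => (y.1.1, y.2)) (q, q.2)
        (contDiffAt_fst.fst.prodMk contDiffAt_snd)) contDiffAt_snd (by norm_num)
  exact ⟨h1.continuousAt, h2.continuousAt⟩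

theorem nd_eventually {G : P × E → ℝ} {q : P × E} (h : ContDiffAt ℝ 2 G q)
    (hq : ND (fun w => G (q.1, w)) q.2) : ∀ᶠ z in 𝓝 q, ND (fun w => G (z.1, w)) z.2 := by
  rcases hq with hq | hq
  · exact ((cont_fderiv h).1.eventually_ne hq).mono fun _ => Or.inl
  · exact ((cont_fderiv h).2.eventually
      (ContinuousLinearMap.isOpen_injective.mem_nhds hq)).mono fun _ => Or.inr

variable {𝒜 : OpenPartialHomeomorph M E → Prop} {Q : (E →L[ℝ] E →L[ℝ] ℝ) → Prop}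

theorem pert (hQ : IsOpen {β | Q β}) {F : P → M → ℝ} {K : Set M} (hK : IsCompact K)
    (h : ∀ x ∈ K, ∃ e, 𝒜 e ∧ x ∈ e.source ∧ Q (fderiv ℝ (fderiv ℝ (F 0 ∘ e.symm)) (e x)) ∧
      ∃ O ∈ 𝓝 (e x), (∀ c, ∀ w ∈ O, ContDiffAt ℝ 2 (fun q : P × E => F q.1 (e.symm q.2)) (c, w)) ∧
      (ND (F 0 ∘ e.symm) (e x) ∨ ∃ L : (E →L[ℝ] ℝ) → P, Tendsto L (𝓝 0) (𝓝 0) ∧
        ∀ c ξ, ∀ w ∈ O, F (c + L ξ) (e.symm w) = F c (e.symm w) + ξ w)) :
    ∃ᶠ c in 𝓝 0, ∀ x ∈ K, MA 𝒜 Q (F c) x := by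
  suffices ∃ D : Set P, IsOpen D ∧ Dense D ∧ ∀ᶠ c in 𝓝 0, c ∈ D → ∀ x ∈ K, MA 𝒜 Q (F c) x from
    let ⟨_, _, h1, h2⟩ := this
    ((mem_closure_iff_frequently.1 (h1 0)).and_eventually h2).mono fun c h => h.2 h.1
  refine hK.induction_on (p := fun S => ∃ D : Set P, IsOpen D ∧ Dense D ∧
    ∀ᶠ c in 𝓝 0, c ∈ D → ∀ x ∈ S, MA 𝒜 Q (F c) x)
    ⟨univ, isOpen_univ, dense_univ, .of_forall fun _ _ _ h => h.elim⟩
    (fun _ _ hst ⟨D, h1, h2, h3⟩ => ⟨D, h1, h2, h3.mono fun c hc hd x hx => hc hd x (hst hx)⟩)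
    (fun _ _ ⟨D, h1, h2, h3⟩ ⟨D', h1', h2', h3'⟩ => ⟨D ∩ D', h1.inter h1',
      h2.inter_of_isOpen_left h2' h1, (h3.and h3').mono fun c hc hd x hx =>
        hx.elim (hc.1 hd.1 x) (hc.2 hd.2 x)⟩) fun x hx => ?_
  obtain ⟨e, he, hs, hq, O, hO, h1, h2⟩ := h x hx
  have h3 : ∀ c, ∀ w ∈ O, ContDiffAt ℝ 2 (F c ∘ e.symm) w := fun c w hw =>
    (h1 c w hw).comp (f := fun w => (c, w)) w (by fun_prop)
  have h4 := h1 0 _ (mem_of_mem_nhds hO)
  have h5 := (cont_fderiv h4).2.eventually (hQ.mem_nhds hq)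
  have hn : ∀ A ∈ 𝓝 (e x), e.source ∩ e ⁻¹' A ∈ 𝓝[K] x := fun A hA =>
    mem_nhdsWithin_of_mem_nhds (inter_mem (e.open_source.mem_nhds hs) (e.continuousAt hs hA))
  rcases h2 with h2 | ⟨L, hL, h2⟩
  · have h6 := h5.and (nd_eventually h4 h2)
    rw [nhds_prod_eq, eventually_prod_iff] at h6
    obtain ⟨pa, ha, pb, hb, h6⟩ := h6
    exact ⟨_, hn _ (inter_mem hO hb), univ, isOpen_univ, dense_univ, ha.mono fun c hc _ y hy =>
      ⟨e, he, hy.1, h3 c _ hy.2.1, h6 hc hy.2.2⟩⟩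
  rw [nhds_prod_eq, eventually_prod_iff] at h5
  obtain ⟨pa, ha, pb, hb', h5⟩ := h5
  obtain ⟨r, hr, hb⟩ := Metric.nhds_basis_closedBall.mem_iff.1 (interior_mem_nhds.2 hO)
  refine ⟨_, hn _ (inter_mem (closedBall_mem_nhds _ hr) hb'),
    {c | ∀ w ∈ closedBall (e x) r, ND (F c ∘ e.symm) w}, isOpen_iff_eventually.2 fun c hc => ?_,
    fun c => ?_, ha.mono fun c hc hc' y hy => ⟨e, he, hy.1, h3 c _ (interior_subset (hb hy.2.1)),
      h5 hc hy.2.2, hc' _ hy.2.1⟩⟩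
  · have := FiniteDimensional.proper_real E
    exact (isCompact_closedBall _ _).eventually_forall_of_forall_eventually
      (P := fun c w => ND (F c ∘ e.symm) w) fun w hw =>
        nd_eventually (h1 c w (interior_subset (hb hw))) (hc w hw)
  have t1 : Tendsto (fun ξ => c + L ξ) (𝓝 0) (𝓝 c) := by simpa using hL.const_add c
  have hd := sard (Ψ := fderiv ℝ (F c ∘ e.symm)) (O := interior O) fun w hw =>
    ((h3 c w (interior_subset hw)).fderiv_right (m := 1) (by norm_num)).differentiableAt one_ne_zero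
  refine mem_closure_of_frequently_of_tendsto
    ((mem_closure_iff_frequently.1 (hd 0)).mono fun ξ hξ w hw => ?_) t1
  have e1 : ∀ w ∈ interior O, fderiv ℝ (F (c + L ξ) ∘ e.symm) w = fderiv ℝ (F c ∘ e.symm) w + ξ := by
    intro w hw
    have : F (c + L ξ) ∘ e.symm =ᶠ[𝓝 w] fun w => (F c ∘ e.symm) w + ξ w :=
      mem_of_superset (mem_interior_iff_mem_nhds.1 hw) (h2 c ξ)
    rw [this.fderiv_eq]
    exact (((h3 c w (interior_subset hw)).differentiableAt two_ne_zero).hasFDerivAt.add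
      ξ.hasFDerivAt).fderiv
  have e2 : fderiv ℝ (F (c + L ξ) ∘ e.symm) =ᶠ[𝓝 w] fun w => fderiv ℝ (F c ∘ e.symm) w + ξ :=
    mem_of_superset (isOpen_interior.mem_nhds (hb hw)) e1
  rw [ND, e1 w (hb hw), e2.fderiv_eq, fderiv_add_const]
  exact hξ w (hb hw)

/-- `φ` is twice continuously differentiable at `x` in all charts of the class `𝒜` -/
def C2 (𝒜 : OpenPartialHomeomorph M E → Prop) {V : Type} [NormedAddCommGroup V] [NormedSpace ℝ V]
    (φ : M → V) (x : M) : Prop := ∀ e, 𝒜 e → x ∈ e.source → ContDiffAt ℝ 2 (φ ∘ e.symm) (e x)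

variable [T2Space M]

omit [FiniteDimensional ℝ E] in
theorem cutoff {V : Type} [NormedAddCommGroup V] [NormedSpace ℝ V] {O K : Set M} (hO : IsOpen O)
    (hK : IsCompact K) (hKO : K ⊆ O) {φ : M → V} (h0 : ∀ y ∈ O, y ∉ K → φ y = 0)
    (h1 : ContinuousOn φ O) (h2 : ∀ y ∈ O, C2 𝒜 φ y) :
    Continuous (O.indicator φ) ∧ (∀ y, C2 𝒜 (O.indicator φ) y) ∧
      ∀ y, (y ∈ O ∧ O.indicator φ =ᶠ[𝓝 y] φ) ∨ O.indicator φ =ᶠ[𝓝 y] 0 := by
  have h3 : ∀ y, (y ∈ O ∧ O.indicator φ =ᶠ[𝓝 y] φ) ∨ O.indicator φ =ᶠ[𝓝 y] 0 := fun y => by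
    by_cases hy : y ∈ O
    · exact Or.inl ⟨hy, mem_of_superset (hO.mem_nhds hy) fun z hz => indicator_of_mem hz φ⟩
    · exact Or.inr (mem_of_superset (hK.isClosed.isOpen_compl.mem_nhds fun h => hy (hKO h))
        fun z hz => indicator_apply_eq_zero.2 fun h => h0 z h hz)
  refine ⟨continuous_iff_continuousAt.2 fun y => ?_, fun y e he hy => ?_, h3⟩
  · rcases h3 y with h | h
    · exact (h1.continuousAt (hO.mem_nhds h.1)).congr h.2.symm
    · exact continuousAt_const.congr h.symm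
  · rcases h3 y with h | h
    · exact (h2 y h.1 e he hy).congr_of_eventuallyEq (symm_eventually e hy h.2)
    · exact contDiffAt_const.congr_of_eventuallyEq (symm_eventually e hy h)

theorem exists_bump (hA : ∀ e, 𝒜 e → ∀ y ∈ e.source, C2 𝒜 e y) {e : OpenPartialHomeomorph M E}
    (he : 𝒜 e) {x : M} (hx : x ∈ e.source) {Ω : Set M} (hΩ : Ω ∈ 𝓝 x) :
    ∃ β : M → E, Continuous β ∧ (∀ y, C2 𝒜 β y) ∧ (∀ y ∉ Ω, β y = 0) ∧ (∃ C, ∀ y, ‖β y‖ ≤ C) ∧
      β =ᶠ[𝓝 x] e := by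
  have := FiniteDimensional.proper_real E
  obtain ⟨r, hr, h1⟩ := Metric.nhds_basis_closedBall.mem_iff.1
    (inter_mem (e.open_target.mem_nhds (e.map_source hx)) (symm_eventually e hx hΩ))
  let b : ContDiffBump (e x) := ⟨r / 2, r, half_pos hr, half_lt_self hr⟩
  have hK : IsCompact (e.symm '' closedBall (e x) r) := (isCompact_closedBall _ _).image_of_continuousOn
    (e.continuousOn_symm.mono fun w hw => (h1 hw).1)
  have h0 : ∀ y ∈ e.source, y ∉ e.symm '' closedBall (e x) r → b (e y) • e y = 0 := fun y hy h => by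
    rw [b.zero_of_le_dist, zero_smul]
    by_contra hc
    exact h ⟨e y, (not_le.1 hc).le, e.left_inv hy⟩
  obtain ⟨a1, a2, a3⟩ := cutoff (𝒜 := 𝒜) e.open_source hK (by
      rintro _ ⟨w, hw, rfl⟩; exact e.map_target (h1 hw).1) h0
    ((b.continuous.comp_continuousOn e.continuousOn).smul e.continuousOn)
    fun y hy e' he' hy' => (b.contDiff.contDiffAt.comp _ (hA e he y hy e' he' hy')).smul
      (hA e he y hy e' he' hy')
  have a4 : ∀ y ∉ e.symm '' closedBall (e x) r, e.source.indicator (fun y => b (e y) • e y) y = 0 :=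
    fun y hy => indicator_apply_eq_zero.2 fun h => h0 y h hy
  refine ⟨_, a1, a2, fun y hy => a4 y ?_, (HasCompactSupport.intro hK a4).exists_bound_of_continuous a1,
    ?_⟩
  · rintro ⟨w, hw, rfl⟩
    exact hy (h1 hw).2
  · filter_upwards [e.open_source.mem_nhds hx, (e.continuousAt hx).eventually b.eventuallyEq_one]
      with y hy hy'
    rw [indicator_of_mem hy, hy', Pi.one_apply, one_smul]

theorem perturb (hA : ∀ e, 𝒜 e → ∀ y ∈ e.source, C2 𝒜 e y) (hQ : IsOpen {β | Q β}) {f : M → ℝ}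
    {K K' Ω : Set M} (hK : IsCompact K) (hK' : IsCompact K') (hΩ : IsOpen Ω) (hKΩ : K ⊆ Ω)
    (h1 : ∀ x ∈ K, ∃ e, 𝒜 e ∧ x ∈ e.source ∧
      ∀ᶠ y in 𝓝 x, Q (fderiv ℝ (fderiv ℝ (f ∘ e.symm)) (e y)))
    (h2 : ∀ x ∈ K', C2 𝒜 f x ∧ (x ∈ K ∨ MA 𝒜 Q f x)) {δ : ℝ} (hδ : 0 < δ) :
    ∃ g : M → ℝ, Continuous g ∧ (∀ y, |g y| ≤ δ) ∧ (∀ y ∉ Ω, g y = 0) ∧
      ∀ x ∈ K', MA 𝒜 Q (fun y => f y + g y) x := by
  classical
  choose e e1 e2 e3 using fun x : K => h1 x x.2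
  choose β b1 b2 b3 b4 b5 using fun x : K => exists_bump hA (e1 x) (e2 x) (hΩ.mem_nhds (hKΩ x.2))
  choose C hC' using b4
  obtain ⟨t, t2⟩ := hK.elim_nhds_subcover' (fun x hx => {y | y ∈ (e ⟨x, hx⟩).source ∧
    Q (fderiv ℝ (fderiv ℝ (f ∘ (e ⟨x, hx⟩).symm)) (e ⟨x, hx⟩ y)) ∧ β ⟨x, hx⟩ =ᶠ[𝓝 y] e ⟨x, hx⟩})
    fun x hx => inter_mem ((e _).open_source.mem_nhds (e2 ⟨x, hx⟩))
      ((e3 ⟨x, hx⟩).and (b5 ⟨x, hx⟩).eventually_nhds)
  let g : (t → E →L[ℝ] ℝ) → M → ℝ := fun c y => ∑ j : t, c j (β j y)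
  have g0 : (fun y => f y + g 0 y) = f := by simp [g]
  have hC : ∀ x ∈ K', ∀ e', 𝒜 e' → x ∈ e'.source → ∀ᶠ w in 𝓝 (e' x), ∀ c, ContDiffAt ℝ 2
      (fun q : (t → E →L[ℝ] ℝ) × E => f (e'.symm q.2) + g q.1 (e'.symm q.2)) (c, w) := by
    intro x hx e' he' hx'
    filter_upwards [((h2 x hx).1 e' he' hx').eventually (by simp),
      e'.open_target.mem_nhds (e'.map_source hx')] with w hw hw' c
    refine (hw.comp (c, w) contDiffAt_snd).add (ContDiffAt.sum fun j _ => ?_)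
    have := b2 j _ e' he' (e'.map_target hw')
    rw [e'.right_inv hw'] at this
    exact ContDiffAt.clm_apply (f := fun q : (t → E →L[ℝ] ℝ) × E => q.1 j) (by fun_prop)
      (this.comp (f := Prod.snd) (c, w) contDiffAt_snd)
  have h3 := pert hQ (F := fun c y => f y + g c y) hK' (𝒜 := 𝒜) fun x hx => by
    rw [g0]
    rcases (h2 x hx).2 with h | ⟨e', a1, a2, -, a3, a4⟩
    · obtain ⟨j, hj, a1, a2, a3⟩ := mem_iUnion₂.1 (t2 h)
      refine ⟨e j, e1 j, a1, a2, _, (hC x hx _ (e1 j) a1).and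
        ((symm_eventually _ a1 a3).and ((e j).eventually_right_inverse ((e j).map_source a1))),
        fun c w hw => hw.1 c, Or.inr ⟨fun ξ => Pi.single ⟨j, hj⟩ ξ, ?_, fun c ξ w hw => ?_⟩⟩
      · exact (continuous_single (A := fun _ : t => E →L[ℝ] ℝ) _).tendsto' _ _ (Pi.single_zero _)
      · simp only [g, Pi.add_apply, add_apply, Finset.sum_add_distrib, add_assoc]
        congr 2
        rw [Finset.sum_eq_single ⟨j, hj⟩ (fun i _ hi => by simp [Pi.single_eq_of_ne hi]) (by simp),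
          Pi.single_eq_same, hw.2.1, hw.2.2]
    · exact ⟨e', a1, a2, a3, _, hC x hx e' a1 a2, fun c w hw => hw c, Or.inl a4⟩
  have t3 : Tendsto (fun c : t → E →L[ℝ] ℝ => ∑ j : t, ‖c j‖ * C j) (𝓝 0) (𝓝 0) :=
    Continuous.tendsto' (by fun_prop) _ _ (by simp)
  obtain ⟨c, c1, c2⟩ := (h3.and_eventually (t3.eventually_le_const hδ)).exists
  refine ⟨g c, continuous_finsetSum _ fun j _ => (c j).continuous.comp (b1 j),
    fun y => (Finset.abs_sum_le_sum_abs _ _).trans ((Finset.sum_le_sum fun j _ =>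
      (c j).le_of_opNorm_le_of_le le_rfl (hC' j y)).trans c2),
    fun y hy => Finset.sum_eq_zero fun j _ => by rw [b3 j y hy, map_zero], c1⟩

theorem MA.hdl {f : M → ℝ} {x : M} (h : MA 𝒜 Q f x) : Reg f x ∨ ∃ k, Hdl f x k ∧
    ∃ β, Q β ∧ ∃ N P : Submodule ℝ E, finrank ℝ N = k ∧ finrank ℝ P + k = finrank ℝ E ∧
      ∀ v, v ≠ 0 → (v ∈ N → β v v < 0) ∧ (v ∈ P → 0 < β v v) := by
  obtain ⟨e, -, h2, h3, h4, h5⟩ := h
  by_cases h0 : fderiv ℝ (f ∘ e.symm) (e x) = 0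
  · obtain ⟨k, h6, h7⟩ := hdl_of_hess e h2 h3 h0 (h5.resolve_left fun h => h h0)
    exact Or.inr ⟨k, h6, _, h4, h7⟩
  · exact Or.inl ⟨E, _, _, inferInstance, e, h2, h3.of_le one_le_two, h0⟩

omit [FiniteDimensional ℝ E] [T2Space M] in
theorem MA.neg {f : M → ℝ} {x : M} (h : MA 𝒜 Q f x) :
    MA 𝒜 (fun β => Q (-β)) (fun y => -f y) x := by
  obtain ⟨e, h1, h2, h3, h4, h5⟩ := h
  have e1 : fderiv ℝ ((fun y => -f y) ∘ e.symm) = -fderiv ℝ (f ∘ e.symm) :=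
    funext fun w => fderiv_neg (f := f ∘ e.symm)
  refine ⟨e, h1, h2, h3.neg, ?_⟩
  rw [ND, e1, fderiv_neg]
  exact ⟨(congrArg Q (neg_neg _)).mpr h4, h5.imp neg_ne_zero.2 fun h => neg_injective.comp h⟩

theorem exists_filt (hA : ∀ e, 𝒜 e → ∀ y ∈ e.source, C2 𝒜 e y) {f : M → ℝ} {Ω : Set M}
    (hΩ : IsOpen Ω) (hf : ContinuousOn f Ω) {b₀ b₁ : ℝ} (hb : b₀ < b₁)
    (hc : IsCompact (Ω ∩ f ⁻¹' Iic b₁))
    (h1 : ∀ x ∈ Ω, C2 𝒜 f x ∧ (∃ e, 𝒜 e ∧ x ∈ e.source) ∧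
      (b₀ ≤ f x → f x ≤ b₁ → MA 𝒜 (fun _ => True) f x))
    {𝒢 : Set (Set M)} (hG : ∀ x, ∃ N ∈ 𝓝 x, ∀ U ⊆ N, IsOpen U → U ∈ 𝒢) :
    ∃ b ∈ Ioo b₀ b₁, ∃ l, Filt 𝒢 ∅ l (Ω ∩ {x | f x < b}) := by
  obtain ⟨δ, hδ, rfl⟩ : ∃ δ, 0 < δ ∧ b₁ = b₀ + 4 * δ := ⟨(b₁ - b₀) / 4, by linarith, by ring⟩
  have hcl : ∀ {f' : M → ℝ}, ContinuousOn f' Ω → ∀ {S}, IsClosed S →
      IsCompact (Ω ∩ f ⁻¹' Iic (b₀ + 4 * δ) ∩ f' ⁻¹' S) := fun h _ hS => hc.of_isClosed_subset
    ((h.mono inter_subset_left).preimage_isClosed_of_isClosed hc.isClosed hS) inter_subset_left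
  obtain ⟨g, g1, g2, g3, g4⟩ := perturb hA (Q := fun _ => True) isOpen_univ
    (hcl hf (isClosed_Iic (a := b₀))) hc (isOpen_lt_on hΩ hf (b₀ + δ))
    (fun x hx => ⟨hx.1.1, lt_of_le_of_lt hx.2 (lt_add_of_pos_right _ hδ)⟩)
    (fun x hx => let ⟨e, h, h'⟩ := (h1 x hx.1.1).2.1; ⟨e, h, h', .of_forall fun _ => trivial⟩)
    (fun x hx => ⟨(h1 x hx.1).1, (le_total (f x) b₀).imp (⟨hx, ·⟩) ((h1 x hx.1).2.2 · hx.2)⟩) hδ
  have hf' : ContinuousOn (fun y => f y + g y) Ω := hf.add g1.continuousOn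
  obtain ⟨a, ha⟩ := hc.bddBelow_image (hf.mono inter_subset_left)
  have g5 : ∀ x ∈ Ω, ∀ b, b₀ + 2 * δ ≤ b → (f x + g x < b ↔ f x < b) := fun x hx b hb => by
    by_cases h : f x < b₀ + δ
    · exact iff_of_true (by linarith [(abs_le.1 (g2 x)).2]) (by linarith)
    · rw [g3 x fun h' => h h'.2, add_zero]
  have g6 : ∀ c, Ω ∩ (fun y => f y + g y) ⁻¹' Icc c (b₀ + 3 * δ) =
      Ω ∩ f ⁻¹' Iic (b₀ + 4 * δ) ∩ (fun y => f y + g y) ⁻¹' Icc c (b₀ + 3 * δ) := fun c =>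
    Subset.antisymm (fun x hx => ⟨⟨hx.1, show f x ≤ _ by
      linarith [hx.2.2, (abs_le.1 (g2 x)).1]⟩, hx.2⟩) fun x hx => ⟨hx.1.1, hx.2⟩
  obtain ⟨a', a1, b, b1, l, -, hl⟩ := morse hΩ hf' (sub_one_lt (min (a - δ) b₀))
    ((min_le_right _ _).trans (by linarith)) (by linarith : b₀ + 2 * δ < b₀ + 3 * δ)
    (P := fun _ => True) (𝒢 := 𝒢) (g6 _ ▸ hcl hf' isClosed_Icc)
    (fun x hx => (g4 x (g6 _ ▸ hx).1).hdl.imp_right fun ⟨k, h, _⟩ => ⟨k, trivial, h⟩) fun x _ => hG x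
  refine ⟨b, ⟨by linarith [b1.1], by linarith [b1.2]⟩, l, ?_⟩
  convert hl using 1
  · refine (eq_empty_of_forall_notMem fun x hx => ?_).symm
    have h2 : f x + g x < a' := hx.2
    have h3 := a1.2.trans_le (min_le_right _ _)
    have h4 := a1.2.trans_le (min_le_left _ _)
    linarith [(abs_le.1 (g2 x)).1, ha ⟨x, ⟨hx.1, show f x ≤ _ by
      linarith [(abs_le.1 (g2 x)).1]⟩, rfl⟩]
  · exact Set.ext fun x => and_congr_right fun hx => (g5 x hx b b1.1.le).symm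

end Pool.Agent.Lib.MP_356dfe_ag
end
end
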