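import Pool.Agent.Lib.MP_356dfe_ag.Levi
import Pool.Agent.Lib.MP_356dfe_ag.Core
import Pool.Agent.Lib.MP_356dfe_ag.Defs
import Pool.Agent.Shared.OMin.Cells
import Pool.Agent.Shared.OMin.Semialg

-- part Pool.Agent.Lib.MP_356dfe_ag.Stein
section

/-! Vanishing theorems for the homology of Stein spaces with isolated singularities. -/

set_option autoImplicit false

open Set Filter Topology Metric Pool.Agent.Shared.SingHom

noncomputable section

namespace Pool.Agent.Lib.MP_356dfe_ag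

variable {Y : Type*} [TopologicalSpace Y] {n : ℕ}
  {𝒜 : OpenPartialHomeomorph Y (Fin n → ℂ) → Prop} {ℋ : Subalgebra ℂ (Y → ℂ)} {S : Set Y}

/-- an algebra of holomorphic functions that makes `Y` a Stein space with singular set `S` -/
structure Hols (𝒜 : OpenPartialHomeomorph Y (Fin n → ℂ) → Prop) (ℋ : Subalgebra ℂ (Y → ℂ))
    (S : Set Y) : Prop where
  cont : ∀ h ∈ ℋ, Continuous h
  an : ∀ h ∈ ℋ, ∀ e, 𝒜 e → ∀ y ∈ e.source, AnalyticAt ℂ (h ∘ e.symm) (e y)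
  tr : ∀ e, 𝒜 e → ∀ y ∈ e.source, ∀ e', 𝒜 e' → y ∈ e'.source → AnalyticAt ℂ (e ∘ e'.symm) (e' y)
  sep : ∀ y y', y ≠ y' → ∃ h ∈ ℋ, h y ≠ h y'
  hull : ∀ K, IsCompact K → IsCompact {y | ∀ h ∈ ℋ, ∀ C, (∀ k ∈ K, ‖h k‖ ≤ C) → ‖h y‖ ≤ C}
  ch : ∀ y ∉ S, ∃ e, 𝒜 e ∧ y ∈ e.source
  fin : ∀ K, IsCompact K → (S ∩ K).Finite
  closed : IsClosed S

/-- the Levi form of `u` in a chart -/
abbrev LV (u : Y → ℝ) (e : OpenPartialHomeomorph Y (Fin n → ℂ)) (y : Y) (v : Fin n → ℂ) : ℝ :=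
  lv (D2 (u ∘ e.symm) (e y)) v

/-- continuous functions that are smooth in the charts -/
def Sm (𝒜 : OpenPartialHomeomorph Y (Fin n → ℂ) → Prop) (u : Y → ℝ) : Prop :=
  Continuous u ∧ ∀ y, C2 𝒜 u y

/-- `a` is plurisubharmonic and so is `ψ` in the null directions of `a` -/
def Pr (𝒜 : OpenPartialHomeomorph Y (Fin n → ℂ) → Prop) (a ψ : Y → ℝ) : Prop :=
  Sm 𝒜 a ∧ Sm 𝒜 ψ ∧ ∀ e, 𝒜 e → ∀ y ∈ e.source, ∀ v,
    0 ≤ LV a e y v ∧ (LV a e y v = 0 → 0 ≤ LV ψ e y v)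

variable {a a' ψ ψ' : Y → ℝ}

theorem Sm.add (h : Sm 𝒜 a) (h' : Sm 𝒜 a') : Sm 𝒜 fun y => a y + a' y :=
  ⟨h.1.add h'.1, fun y e he hy => (h.2 y e he hy).add (h'.2 y e he hy)⟩

theorem Sm.mul (h : Sm 𝒜 a) (c : ℝ) : Sm 𝒜 fun y => c * a y :=
  ⟨continuous_const.mul h.1, fun y e he hy => contDiffAt_const.mul (h.2 y e he hy)⟩

theorem LV_add (h : Sm 𝒜 a) (h' : Sm 𝒜 a') {e} (he : 𝒜 e) {y} (hy : y ∈ e.source) (v) :
    LV (fun y => a y + a' y) e y v = LV a e y v + LV a' e y v := by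
  rw [← lv_add, ← D2_add (h.2 y e he hy) (h'.2 y e he hy)]
  rfl

theorem LV_mul (c : ℝ) (e : OpenPartialHomeomorph Y (Fin n → ℂ)) (y v) :
    LV (fun y => c * a y) e y v = c * LV a e y v := by
  rw [← lv_smul, ← D2_mul]
  rfl

theorem LV_zero (e : OpenPartialHomeomorph Y (Fin n → ℂ)) (y v) : LV (fun _ => 0) e y v = 0 := by
  simpa using LV_mul (a := fun _ => 0) 0 e y v

theorem sm_zero : Sm 𝒜 fun _ => 0 := ⟨continuous_const, fun _ _ _ _ => contDiffAt_const⟩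

theorem pr_zero : Pr 𝒜 (fun _ => 0) fun _ => 0 :=
  ⟨sm_zero, sm_zero, fun e _ y _ v => ⟨(LV_zero e y v).ge, fun h => h.ge⟩⟩

theorem Pr.add (h : Pr 𝒜 a ψ) (h' : Pr 𝒜 a' ψ') :
    Pr 𝒜 (fun y => a y + a' y) fun y => ψ y + ψ' y := by
  refine ⟨h.1.add h'.1, h.2.1.add h'.2.1, fun e he y hy v => ?_⟩
  obtain ⟨a1, a2⟩ := h.2.2 e he y hy v
  obtain ⟨b1, b2⟩ := h'.2.2 e he y hy v
  rw [LV_add h.1 h'.1 he hy, LV_add h.2.1 h'.2.1 he hy]
  exact ⟨add_nonneg a1 b1, fun h => add_nonneg (a2 (by linarith)) (b2 (by linarith))⟩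

/-- plurisubharmonic functions -/
def Psh (𝒜 : OpenPartialHomeomorph Y (Fin n → ℂ) → Prop) (a : Y → ℝ) : Prop :=
  Sm 𝒜 a ∧ ∀ e, 𝒜 e → ∀ y ∈ e.source, ∀ v, 0 ≤ LV a e y v

theorem psh_zero : Psh 𝒜 fun _ => 0 := ⟨sm_zero, fun e _ y _ v => (LV_zero e y v).ge⟩

theorem Psh.add (h : Psh 𝒜 a) (h' : Psh 𝒜 a') : Psh 𝒜 fun y => a y + a' y :=
  ⟨h.1.add h'.1, fun e he y hy v => LV_add h.1 h'.1 he hy v ▸
    add_nonneg (h.2 e he y hy v) (h'.2 e he y hy v)⟩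

theorem Psh.mul (h : Psh 𝒜 a) {c : ℝ} (hc : 0 ≤ c) : Psh 𝒜 fun y => c * a y :=
  ⟨h.1.mul c, fun e he y hy v => LV_mul c e y v ▸ mul_nonneg hc (h.2 e he y hy v)⟩

theorem exists_lev {β γ : (Fin n → ℂ) →L[ℝ] (Fin n → ℂ) →L[ℝ] ℝ} (h : ∀ v, 0 ≤ lv β v)
    (h' : ∀ v, v ≠ 0 → lv β v = 0 → 0 < lv γ v) : ∃ C : ℝ, Lev (C • β + γ) := by
  have c1 : ∀ β : (Fin n → ℂ) →L[ℝ] (Fin n → ℂ) →L[ℝ] ℝ, Continuous (lv β) := fun β =>
    continuous_lv.comp (Continuous.prodMk_right β)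
  simp only [lev_iff, lv_add, lv_smul]
  refine ((isCompact_sphere (0 : Fin n → ℂ) 1).induction_on
    (p := fun T => ∀ᶠ C : ℝ in atTop, ∀ v ∈ T, 0 < C * lv β v + lv γ v) (by simp)
    (fun _ _ hst h => h.mono fun C h v hv => h v (hst hv))
    (fun _ _ h h' => (h.and h').mono fun C h v hv => hv.elim (h.1 v) (h.2 v)) fun v hv => ?_).exists
  obtain ⟨C, hC⟩ : ∃ C : ℝ, 0 < C * lv β v + lv γ v := by
    rcases (h v).eq_or_lt with e | e
    · exact ⟨0, by simpa using h' v (ne_of_mem_sphere hv one_ne_zero) e.symm⟩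
    · exact ⟨(1 - lv γ v) / lv β v, by rw [div_mul_cancel₀ _ e.ne']; linarith⟩
  exact ⟨_, mem_nhdsWithin_of_mem_nhds (((continuous_const.mul (c1 β)).add
    (c1 γ)).continuousAt.eventually_const_lt hC), (eventually_ge_atTop C).mono fun C' h1 w hw =>
      lt_of_lt_of_le hw (add_le_add_left (mul_le_mul_of_nonneg_right h1 (h w)) _)⟩

theorem lev_eventually {e : OpenPartialHomeomorph Y (Fin n → ℂ)} {x : Y} (hx : x ∈ e.source)
    (h : ContDiffAt ℝ 2 (a ∘ e.symm) (e x)) (h' : Lev (D2 (a ∘ e.symm) (e x))) :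
    ∀ᶠ y in 𝓝 x, Lev (D2 (a ∘ e.symm) (e y)) :=
  (e.continuousAt hx).eventually ((((h.fderiv_right (m := 1) (by norm_num)).fderiv_right (m := 0)
    (by norm_num)).continuousAt).eventually (isOpen_lev.mem_nhds h'))

namespace Hols

variable (H : Hols 𝒜 ℋ S)
include H

theorem c2 (e) (he : 𝒜 e) (y) (hy : y ∈ e.source) : C2 𝒜 e y :=
  fun e' he' hy' => (H.tr e he y hy e' he' hy').contDiffAt.restrict_scalars ℝ

theorem vanish {T : Set Y} (hT : T.Finite) {y : Y} (hy : y ∉ T) :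
    ∃ h ∈ ℋ, h y = 1 ∧ ∀ s ∈ T, h s = 0 := by
  induction T, hT using Set.Finite.induction_on with
  | empty => exact ⟨1, ℋ.one_mem, rfl, by simp⟩
  | @insert s T _ _ ih =>
    obtain ⟨h, h1, h2, h3⟩ := ih fun h => hy (Or.inr h)
    obtain ⟨g, g1, g2⟩ := H.sep y s fun e => hy (Or.inl e)
    refine ⟨(g y - g s)⁻¹ • (h * (g - algebraMap ℂ _ (g s))), ℋ.smul_mem (ℋ.mul_mem h1
      (ℋ.sub_mem g1 (ℋ.algebraMap_mem _))) _, by simp [h2, sub_ne_zero.2 g2], ?_⟩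
    rintro t (rfl | ht)
    · simp
    · simp [h3 t ht]

theorem an_pi {ι : Type} [Fintype ι] {F : ι → Y → ℂ} (hF : ∀ i, F i ∈ ℋ) {e} (he : 𝒜 e) {y}
    (hy : y ∈ e.source) : AnalyticAt ℂ (fun w i => F i (e.symm w)) (e y) :=
  AnalyticAt.pi fun i => H.an _ (hF i) e he y hy

theorem sm_comp {ι : Type} [Fintype ι] {F : ι → Y → ℂ} (hF : ∀ i, F i ∈ ℋ) {θ : (ι → ℂ) → ℝ}
    (hθ : ContDiff ℝ 2 θ) : Sm 𝒜 fun y => θ fun i => F i y :=
  ⟨hθ.continuous.comp (continuous_pi fun i => H.cont _ (hF i)), fun _ _ he hy =>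
    hθ.contDiffAt.comp _ ((H.an_pi hF he hy).contDiffAt.restrict_scalars ℝ)⟩

theorem LV_sq {ι : Type} [Fintype ι] {F : ι → Y → ℂ} (hF : ∀ i, F i ∈ ℋ) {e} (he : 𝒜 e) {y}
    (hy : y ∈ e.source) (v) : LV (fun y => sq fun i => F i y) e y v =
      4 * sq (fderiv ℂ (fun w i => F i (e.symm w)) (e y) v) :=
  (lv_comp contDiff_sq.contDiffAt (H.an_pi hF he hy) v).trans (lv_sq _ _)

theorem psh_sq {h : Y → ℂ} (hh : h ∈ ℋ) : Psh 𝒜 fun y => ‖h y‖ ^ 2 := by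
  have e1 : (fun y => ‖h y‖ ^ 2) = fun y => sq fun _ : Unit => h y := by simp [sq]
  rw [e1]
  exact ⟨H.sm_comp (F := fun _ : Unit => h) (fun _ => hh) contDiff_sq, fun e he y hy v =>
    (mul_nonneg (by norm_num) (sq_nonneg' _)).trans_eq
      (H.LV_sq (F := fun _ : Unit => h) (fun _ => hh) he hy v).symm⟩

variable [T2Space Y]

theorem exists_pair {x : Y} (hx : x ∉ S) : ∃ a ψ, Pr 𝒜 a ψ ∧ ∃ e, 𝒜 e ∧
    ∀ᶠ y in 𝓝 x, y ∈ e.source ∧ ∀ v, v ≠ 0 → LV a e y v = 0 → 0 < LV ψ e y v := by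
  obtain ⟨e, he, hs⟩ := H.ch x hx
  obtain ⟨r, hr, h1⟩ := Metric.nhds_basis_closedBall.mem_iff.1
    (e.open_target.mem_nhds (e.map_source hs))
  have hc : ∀ A ⊆ closedBall (e x) r, IsCompact A → IsCompact (e.symm '' A) := fun A hA h =>
    h.image_of_continuousOn (e.continuousOn_symm.mono (hA.trans h1))
  have hx' : ∀ y : e.symm '' sphere (e x) r, y.1 ∉ ({x} : Set Y) := by
    rintro ⟨_, w, hw, rfl⟩ (h : e.symm w = x)
    have h0 := e.right_inv (h1 (sphere_subset_closedBall hw))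
    rw [h] at h0
    rw [← h0, mem_sphere, dist_self] at hw
    exact hr.ne hw
  choose h h2 h3 h4 using fun y => H.vanish (finite_singleton x) (hx' y)
  obtain ⟨t, ht⟩ := (hc _ sphere_subset_closedBall (isCompact_sphere _ _)).elim_nhds_subcover'
    (fun y hy => {z | 1 / 2 < ‖h ⟨y, hy⟩ z‖}) fun y hy =>
      (H.cont _ (h2 ⟨y, hy⟩)).norm.continuousAt.eventually_const_lt
        (show 1 / 2 < ‖h ⟨y, hy⟩ y‖ by rw [h3 ⟨y, hy⟩]; norm_num)
  let F : Fin t.card → Y → ℂ := fun i => h (t.equivFin.symm i)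
  have hF : ∀ i, F i ∈ ℋ := fun i => h2 _
  let θ : (Fin t.card → ℂ) → ℝ := fun b => Real.smoothTransition (1 - 8 * sq b)
  have hθ : ContDiff ℝ 2 θ := Real.smoothTransition.contDiff.comp
    (contDiff_const.sub (contDiff_const.mul contDiff_sq))
  have s1 := H.sm_comp hF contDiff_sq
  have s2 := H.sm_comp hF hθ
  have hO : IsOpen (e.source ∩ e ⁻¹' ball (e x) r) := e.isOpen_inter_preimage isOpen_ball
  obtain ⟨c1, c2, c3⟩ := cutoff (𝒜 := 𝒜) hO
    (compact_band (hc _ Subset.rfl (isCompact_closedBall _ _)) s1.1.continuousOn 0 (1 / 8))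
    (φ := fun y => θ (fun i => F i y) * sq (e y)) (by
      rintro _ ⟨⟨w, hw, rfl⟩, h5⟩
      refine ⟨e.map_target (h1 hw), ?_⟩
      rw [mem_preimage, e.right_inv (h1 hw)]
      refine mem_ball.2 (lt_of_le_of_ne (mem_closedBall.1 hw) fun h6 => ?_)
      obtain ⟨y, hy, h7⟩ := mem_iUnion₂.1 (ht ⟨w, h6, rfl⟩)
      have h8 := le_sq (fun i => F i (e.symm w)) (t.equivFin ⟨y, hy⟩)
      simp only [F, Equiv.symm_apply_apply] at h8
      have h7 : 1 / 2 < ‖h y (e.symm w)‖ := h7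
      nlinarith [h5.2])
    (fun y hy h5 => by
      refine mul_eq_zero_of_left (Real.smoothTransition.zero_of_nonpos ?_) _
      by_contra h6
      exact h5 ⟨⟨e y, ball_subset_closedBall hy.2, e.left_inv hy.1⟩, sq_nonneg' _, by linarith⟩)
    (s2.1.continuousOn.mul (contDiff_sq.continuous.comp_continuousOn
      (e.continuousOn.mono inter_subset_left)))
    fun y hy e' he' hy' => (s2.2 y e' he' hy').mul
      (contDiff_sq.contDiffAt.comp _ (H.c2 e he y hy.1 e' he' hy'))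
  set ψ := (e.source ∩ e ⁻¹' ball (e x) r).indicator fun y => θ (fun i => F i y) * sq (e y)
  have key : ∀ e', 𝒜 e' → ∀ y ∈ e'.source, y ∈ e.source →
      (ψ =ᶠ[𝓝 y] fun y => θ (fun i => F i y) * sq (e y)) → ∀ v,
      LV (fun y => sq fun i => F i y) e' y v = 0 →
      LV ψ e' y v = θ (fun i => F i y) * (4 * sq (fderiv ℂ (e ∘ e'.symm) (e' y) v)) := by
    intro e' he' y hy' hy h5 v hv
    rw [H.LV_sq hF he' hy'] at hv
    have := lv_cut hθ (H.an_pi hF he' hy') (H.tr e he y hy e' he' hy') (v := v)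
      (by_contra fun h => by linarith [sq_pos h])
    rw [e'.left_inv hy'] at this
    exact (congrArg (lv · v) (D2_congr (symm_eventually e' hy' h5))).trans this
  refine ⟨_, ψ, ⟨s1, ⟨c1, c2⟩, fun e' he' y hy v => ⟨?_, fun hv => ?_⟩⟩, e, he, ?_⟩
  · exact H.LV_sq hF he' hy v ▸ mul_nonneg (by norm_num) (sq_nonneg' _)
  · rcases c3 y with h5 | h5
    · rw [key e' he' y hy h5.1.1 h5.2 v hv]
      exact mul_nonneg (Real.smoothTransition.nonneg _) (mul_nonneg (by norm_num) (sq_nonneg' _))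
    · exact ((congrArg (lv · v) (D2_congr (symm_eventually e' hy h5))).trans (LV_zero e' y v)).ge
  · filter_upwards [hO.mem_nhds ⟨hs, mem_ball_self hr⟩, s1.1.continuousAt.eventually_lt_const
      (show (sq fun i => F i x) < 1 / 8 by simp [sq, F, h4])] with y hy h5
    refine ⟨hy.1, fun v hv h6 => ?_⟩
    have h7 : e ∘ e.symm =ᶠ[𝓝 (e y)] id := e.eventually_right_inverse (e.map_source hy.1)
    rw [key e he y hy.1 hy.1 (mem_of_superset (hO.mem_nhds hy) fun z hz => indicator_of_mem hz _) v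
      h6, h7.fderiv_eq, fderiv_id]
    exact mul_pos (Real.smoothTransition.pos_of_pos (by linarith)) (mul_pos four_pos (sq_pos hv))

theorem exists_strict {Z : Set Y} (hZ : IsCompact Z) (hS : ∀ x ∈ Z, x ∉ S) :
    ∃ u, Sm 𝒜 u ∧ ∀ x ∈ Z, ∃ e, 𝒜 e ∧ x ∈ e.source ∧ Lev (D2 (u ∘ e.symm) (e x)) := by
  obtain ⟨a, ψ, h1, h2⟩ := hZ.induction_on (p := fun T => ∃ a ψ, Pr 𝒜 a ψ ∧ ∀ x ∈ T, ∃ e, 𝒜 e ∧
      x ∈ e.source ∧ ∀ v, v ≠ 0 → LV a e x v = 0 → 0 < LV ψ e x v)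
    ⟨_, _, pr_zero, fun _ h => h.elim⟩
    (fun _ _ hst ⟨a, ψ, h1, h2⟩ => ⟨a, ψ, h1, fun x hx => h2 x (hst hx)⟩)
    (fun _ _ ⟨a, ψ, h1, h2⟩ ⟨a', ψ', h1', h2'⟩ => ⟨_, _, h1.add h1', fun x hx => by
      obtain ⟨e, he, hs, h3⟩ : ∃ e, 𝒜 e ∧ x ∈ e.source ∧
          ((∀ v, v ≠ 0 → LV a e x v = 0 → 0 < LV ψ e x v) ∨
            ∀ v, v ≠ 0 → LV a' e x v = 0 → 0 < LV ψ' e x v) :=
        hx.elim (fun hx => (h2 x hx).imp fun e h => ⟨h.1, h.2.1, Or.inl h.2.2⟩)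
          fun hx => (h2' x hx).imp fun e h => ⟨h.1, h.2.1, Or.inr h.2.2⟩
      refine ⟨e, he, hs, fun v hv h4 => ?_⟩
      obtain ⟨a1, a2⟩ := h1.2.2 e he x hs v
      obtain ⟨b1, b2⟩ := h1'.2.2 e he x hs v
      rw [LV_add h1.1 h1'.1 he hs] at h4
      rw [LV_add h1.2.1 h1'.2.1 he hs]
      rcases h3 with h3 | h3
      · exact add_pos_of_pos_of_nonneg (h3 v hv (by linarith)) (b2 (by linarith))
      · exact add_pos_of_nonneg_of_pos (a2 (by linarith)) (h3 v hv (by linarith))⟩)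
    fun x hx => let ⟨a, ψ, h1, e, he, h2⟩ := H.exists_pair (hS x hx)
      ⟨_, mem_nhdsWithin_of_mem_nhds h2, a, ψ, h1, fun y hy => ⟨e, he, hy⟩⟩
  have s1 : ∀ C : ℝ, Sm 𝒜 fun y => C * a y + ψ y := fun C => (h1.1.mul C).add h1.2.1
  obtain ⟨C, hC⟩ := (hZ.induction_on (p := fun T => ∀ᶠ C : ℝ in atTop, ∀ x ∈ T, ∃ e, 𝒜 e ∧
      x ∈ e.source ∧ Lev (D2 ((fun y => C * a y + ψ y) ∘ e.symm) (e x))) (by simp)
    (fun _ _ hst h => h.mono fun C h v hv => h v (hst hv))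
    (fun _ _ h h' => (h.and h').mono fun C h v hv => hv.elim (h.1 v) (h.2 v)) fun x hx => by
      obtain ⟨e, he, hs, h3⟩ := h2 x hx
      obtain ⟨C, hC⟩ := exists_lev (fun v => (h1.2.2 e he x hs v).1) h3
      refine ⟨_, mem_nhdsWithin_of_mem_nhds ((lev_eventually hs ((s1 C).2 x e he hs) fun v hv => ?_).and
        (e.open_source.mem_nhds hs)), (eventually_ge_atTop C).mono fun C' h4 y hy =>
          ⟨e, he, hy.2, fun v hv => (hy.1 v hv).trans_le ?_⟩⟩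
      · refine (hC v hv).trans_eq ?_
        rw [lv_add, lv_smul]
        exact ((LV_add (h1.1.mul C) h1.2.1 he hs v).trans (by rw [LV_mul])).symm
      · refine (LV_add (h1.1.mul C) h1.2.1 he hy.2 v).trans_le
          (le_of_le_of_eq ?_ (LV_add (h1.1.mul C') h1.2.1 he hy.2 v).symm)
        rw [LV_mul, LV_mul]
        exact add_le_add_left (mul_le_mul_of_nonneg_right h4 (h1.2.2 e he y hy.2 v).1) _).exists
  exact ⟨_, s1 C, hC⟩

omit [T2Space Y] in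
theorem exists_big {K Z T : Set Y} (hK : IsCompact K) (hZ : IsCompact Z) (hT : T.Finite)
    (h : ∀ y ∈ Z, y ∉ T ∧ ∃ h ∈ ℋ, ∃ C, (∀ k ∈ K, ‖h k‖ ≤ C) ∧ C < ‖h y‖) :
    ∀ ε > 0, ∃ u, Psh 𝒜 u ∧ (∀ y, 0 ≤ u y) ∧ (∀ s ∈ T, u s = 0) ∧ (∀ y ∈ K, u y ≤ ε) ∧
      ∀ y ∈ Z, 4 ≤ u y := by
  refine hZ.induction_on (p := fun Z => ∀ ε > 0, ∃ u, Psh 𝒜 u ∧ (∀ y, 0 ≤ u y) ∧
      (∀ s ∈ T, u s = 0) ∧ (∀ y ∈ K, u y ≤ ε) ∧ ∀ y ∈ Z, 4 ≤ u y)
    (fun ε hε => ⟨_, psh_zero, fun _ => le_rfl, fun _ _ => rfl, fun _ _ => hε.le, fun _ h => h.elim⟩)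
    (fun _ _ hst h ε hε => let ⟨u, h1, h2, h3, h4, h5⟩ := h ε hε
      ⟨u, h1, h2, h3, h4, fun y hy => h5 y (hst hy)⟩)
    (fun _ _ h h' ε hε => ?_) fun y hy => ?_
  · obtain ⟨u, h1, h2, h3, h4, h5⟩ := h _ (half_pos hε)
    obtain ⟨u', h1', h2', h3', h4', h5'⟩ := h' _ (half_pos hε)
    exact ⟨_, h1.add h1', fun y => add_nonneg (h2 y) (h2' y), fun s hs => by simp [h3 s hs, h3' s hs],
      fun y hy => by linarith [h4 y hy, h4' y hy], fun y hy => hy.elim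
        (fun hy => by linarith [h5 y hy, h2' y]) fun hy => by linarith [h5' y hy, h2 y]⟩
  obtain ⟨h1, g, g1, C, g2, g3⟩ := h y hy
  obtain ⟨q, q1, q2, q3⟩ := H.vanish hT h1
  obtain ⟨C', c1, c2, c3⟩ : ∃ C', C < C' ∧ 0 < C' ∧ (C' < ‖g y‖ ∨ K = ∅) := by
    rcases eq_empty_or_nonempty K with h | ⟨k, hk⟩
    · exact ⟨max C 0 + 1, by linarith [le_max_left C 0], by positivity, Or.inr h⟩
    · exact ⟨(C + ‖g y‖) / 2, by linarith, by linarith [g2 k hk, norm_nonneg (g k)],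
        Or.inl (by linarith)⟩
  have n1 := (H.cont _ q1).norm.continuousAt.eventually_const_lt
    (show 1 / 2 < ‖q y‖ by rw [q2]; norm_num)
  rcases c3 with c3 | rfl
  swap
  · exact ⟨_, mem_nhdsWithin_of_mem_nhds n1, fun ε hε => ⟨_, (H.psh_sq q1).mul (c := 16) (by norm_num),
      fun y => by positivity, fun s hs => by simp [q3 s hs], fun _ h => h.elim,
      fun z (hz : 1 / 2 < ‖q z‖) => by nlinarith⟩⟩
  refine ⟨_, mem_nhdsWithin_of_mem_nhds (n1.and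
    ((H.cont _ g1).norm.continuousAt.eventually_const_lt c3)), fun ε hε => ?_⟩
  obtain ⟨R, hR⟩ := hK.exists_bound_of_continuousOn (H.cont _ q1).continuousOn
  have t1 : Tendsto (fun m : ℕ => 16 * ((max C 0 / C') ^ m * R) ^ 2) atTop (𝓝 0) := by
    simpa using (((tendsto_pow_atTop_nhds_zero_of_lt_one (r := max C 0 / C') (by positivity)
      ((div_lt_one c2).2 (max_lt c1 c2))).mul_const R).pow 2).const_mul 16
  obtain ⟨m, hm⟩ := (t1.eventually_le_const hε).exists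
  have e1 : ∀ z, ‖(((C' : ℂ)⁻¹ • g) ^ m * q) z‖ = (‖g z‖ / C') ^ m * ‖q z‖ := fun z => by
    simp [abs_of_pos c2, div_eq_inv_mul]
  refine ⟨_, (H.psh_sq (ℋ.mul_mem (ℋ.pow_mem (ℋ.smul_mem g1 (C' : ℂ)⁻¹) m) q1)).mul (c := 16)
    (by norm_num), fun y => by positivity, fun s hs => by simp [q3 s hs], fun k hk => le_trans ?_ hm,
    fun z hz => ?_⟩
  · rw [e1]
    have := (g2 k hk).trans (le_max_left C 0)
    have := hR k hk
    gcongr
  · rw [e1]
    have a1 : 1 ≤ (‖g z‖ / C') ^ m := one_le_pow₀ ((one_le_div c2).2 hz.2.le)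
    have a2 : 1 / 2 ≤ (‖g z‖ / C') ^ m * ‖q z‖ := hz.1.le.trans (le_mul_of_one_le_left (norm_nonneg _) a1)
    nlinarith

omit [T2Space Y] in
theorem exists_pos {Z T : Set Y} (hZ : IsCompact Z) (hT : T.Finite) (h : ∀ y ∈ Z, y ∉ T) :
    ∃ u, Psh 𝒜 u ∧ (∀ y, 0 ≤ u y) ∧ (∀ s ∈ T, u s = 0) ∧ ∀ y ∈ Z, 4 ≤ u y :=
  let ⟨u, h1, h2, h3, _, h4⟩ := H.exists_big isCompact_empty hZ hT
    (fun y hy => ⟨h y hy, 0, ℋ.zero_mem, -1, fun _ h => h.elim, by simp⟩) 1 one_pos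
  ⟨u, h1, h2, h3, h4⟩

variable [LocallyCompactSpace Y]

theorem exists_morse {K O : Set Y} (hK : IsCompact K) (hO : IsOpen O) (hS : S ⊆ O) :
    ∃ (Ω : Set Y) (f : Y → ℝ) (a : ℝ), IsOpen Ω ∧ Continuous f ∧ 0 < a ∧ 2 * a ≤ 2 ∧
      IsCompact (Ω ∩ f ⁻¹' Icc a 3) ∧ (∀ x ∈ Ω ∩ f ⁻¹' Icc a 3, x ∉ S ∧ MA 𝒜 Lev f x) ∧
      (∀ x ∈ K, x ∈ Ω ∧ f x < 2) ∧ ∀ x ∈ Ω, f x < 2 * a → x ∈ O := by
  obtain ⟨C, hC, h1⟩ := exists_compact_superset (H.hull K hK)
  have hT : (S ∩ interior C).Finite :=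
    (H.fin C hC).subset (inter_subset_inter_right _ interior_subset)
  have hKC : K ⊆ interior C := fun k hk => h1 fun h _ C hC => hC k hk
  obtain ⟨u, u1, u2, u3, u4, u5⟩ := H.exists_big hK (hC.diff isOpen_interior) hT
    (fun y hy => ⟨fun h => hy.2 h.2, by
      by_contra h
      push Not at h
      exact hy.2 (h1 h)⟩) _ one_half_pos
  obtain ⟨w, w1, w2, w3, w5⟩ := H.exists_pos (hC.diff hO) hT fun y hy h => hy.2 (hS h.1)
  obtain ⟨R, hR0, hR⟩ := (hK.image w1.1.1).isBounded.exists_pos_norm_le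
  set a := 1 / (2 * R + 8)
  have a0 : 0 < a := by positivity
  have a1 : a ≤ 1 / 8 := one_div_le_one_div_of_le (by norm_num) (by linarith)
  have p1 := u1.add (w1.mul a0.le)
  have hZ := compact_band hC p1.1.1.continuousOn (a / 2) (7 / 2)
  have hZS : ∀ x ∈ C ∩ (fun y => u y + a * w y) ⁻¹' Icc (a / 2) (7 / 2), x ∉ S := by
    intro x hx h
    by_cases h' : x ∈ interior C
    · have := hx.2.1
      simp only [u3 x ⟨h, h'⟩, w3 x ⟨h, h'⟩] at this
      linarith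
    · linarith [hx.2.2, u5 x ⟨hx.1, h'⟩, mul_nonneg a0.le (w2 x)]
  obtain ⟨v, v1, v2⟩ := H.exists_strict hZ hZS
  obtain ⟨R', hR0', hR'⟩ := (hC.image v1.1).isBounded.exists_pos_norm_le
  have s1 := p1.1.add (v1.mul (a / 4 / R'))
  obtain ⟨g, g1, g2, -, g4⟩ := perturb H.c2 isOpen_lev hZ hZ isOpen_univ (subset_univ _)
    (f := fun y => u y + a * w y + a / 4 / R' * v y) (fun x hx => by
      obtain ⟨e, he, hs, h⟩ := v2 x hx
      refine ⟨e, he, hs, lev_eventually hs (s1.2 x e he hs) fun z hz => lt_of_lt_of_eq ?_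
        (LV_add p1.1 (v1.mul _) he hs z).symm⟩
      rw [LV_mul]
      exact add_pos_of_nonneg_of_pos (p1.2 e he x hs z) (mul_pos (by positivity) (h z hz)))
    (fun x hx => ⟨s1.2 x, Or.inl hx⟩) (δ := a / 4) (by positivity)
  have b1 : ∀ x ∈ C, |a / 4 / R' * v x + g x| ≤ a / 2 := fun x hx => by
    refine (abs_add_le _ _).trans ?_
    rw [abs_mul, abs_of_pos (by positivity : 0 < a / 4 / R')]
    have : a / 4 / R' * |v x| ≤ a / 4 / R' * R' := by
      gcongr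
      exact hR' _ (mem_image_of_mem _ hx)
    rw [div_mul_cancel₀ _ hR0'.ne'] at this
    linarith [g2 x]
  have c1 := s1.1.add g1
  have b2 : ∀ x ∈ interior C ∩ (fun y => u y + a * w y + a / 4 / R' * v y + g y) ⁻¹' Icc a 3,
      x ∈ C ∩ (fun y => u y + a * w y) ⁻¹' Icc (a / 2) (7 / 2) := fun x hx => by
    have := abs_le.1 (b1 x (interior_subset hx.1))
    exact ⟨interior_subset hx.1, by linarith [hx.2.1], by linarith [hx.2.2]⟩
  refine ⟨interior C, _, a, isOpen_interior, c1, a0, by linarith, ?_,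
    fun x hx => ⟨hZS x (b2 x hx), g4 x (b2 x hx)⟩, fun x hx => ⟨hKC hx, ?_⟩, fun x hx h => ?_⟩
  · convert compact_band hC c1.continuousOn a 3 using 1
    refine Subset.antisymm (inter_subset_inter_left _ interior_subset) fun x hx => ⟨?_, hx.2⟩
    by_contra h
    have := abs_le.1 (b1 x hx.1)
    have h2 : u x + a * w x + a / 4 / R' * v x + g x ≤ 3 := hx.2.2
    linarith [u5 x ⟨hx.1, h⟩, mul_nonneg a0.le (w2 x)]
  · have := abs_le.1 (b1 x (interior_subset (hKC hx)))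
    have h2 : a * w x ≤ 1 / 2 := by
      rw [one_div_mul_eq_div, div_le_iff₀ (by positivity)]
      linarith [(abs_le.1 (hR _ (mem_image_of_mem _ hx))).2]
    show u x + a * w x + a / 4 / R' * v x + g x < 2
    linarith [u4 x hx]
  · by_contra h'
    have := abs_le.1 (b1 x (interior_subset hx))
    have h2 : u x + a * w x + a / 4 / R' * v x + g x < 2 * a := h
    nlinarith [w5 x ⟨interior_subset hx, h'⟩, u2 x]

theorem high {O : Set Y} (hO : IsOpen O) (hS : S ⊆ O) (h : ∀ m, Z O (m + 2) ≤ B O (m + 2)) :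
    ∀ m, n < m → Z (univ : Set Y) (m + 1) ≤ sat (B univ (m + 1)) := by
  intro m hm z hz
  obtain ⟨K, hK, -, h1⟩ := exists_compact hz.1
  obtain ⟨Ω, f, a, b1, b2, b3, b4, b5, b6, b7, b8⟩ := H.exists_morse hK hO hS
  obtain ⟨α, c1, β, c2, l, c3, c4⟩ := morse b1 b2.continuousOn (by linarith : a < 2 * a) b4
    (by norm_num) (P := (· ≤ n + 1)) (𝒢 := univ) b5 (fun x hx => (b6 x hx).2.le)
    fun x _ => ⟨univ, univ_mem, fun _ _ _ => trivial⟩
  obtain ⟨N, hN, h2⟩ := c4.rv (isOpen_lt_on b1 b2.continuousOn _) (m := m)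
    (fun h => by have := c3 _ h; omega) z
    (C_mono (fun x hx => mem_inter (b7 x hx).1 ((b7 x hx).2.trans c2.1)) _ h1)
    (by rw [(mem_Z.1 hz).2]; exact Submodule.zero_mem _)
  obtain ⟨t, ht, h3⟩ := mem_RB.1 h2
  obtain ⟨m, rfl⟩ : ∃ k, m = k + 1 := ⟨m - 1, by omega⟩
  have := Submodule.add_mem _ (B_mono (subset_univ _) _ (h m (mem_Z.2 ⟨C_mono
    (fun x hx => b8 x hx.1 (lt_trans hx.2 c1.2)) _ h3, by simp [bd_bd, (mem_Z.1 hz).2]⟩)))
    ⟨t, C_mono (subset_univ _) _ ht, rfl⟩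
  exact ⟨N, hN, by simpa using this⟩

theorem low : ∀ m < n, ∀ K, IsCompact K → RZ Sᶜ ∅ m ≤ sat (RB Sᶜ (Sᶜ ∩ Kᶜ) (m + 1)) := by
  intro m hm K hK z hz
  obtain ⟨K', hK', h0, h1⟩ := exists_compact hz.1
  obtain ⟨Ω, f, a, b1, b2, b3, b4, b5, b6, b7, b8⟩ := H.exists_morse (hK.union hK')
    hK'.isClosed.isOpen_compl fun x hx h => h0 h hx
  have e : Ω ∩ Sᶜ ∩ (fun y => -f y) ⁻¹' Icc (-3) (-a) = Ω ∩ f ⁻¹' Icc a 3 :=
    Subset.antisymm (fun x hx => ⟨hx.1.1, neg_le_neg_iff.1 hx.2.2, neg_le_neg_iff.1 hx.2.1⟩)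
      fun x hx => ⟨⟨hx.1, (b6 x hx).1⟩, neg_le_neg hx.2.2, neg_le_neg hx.2.1⟩
  have b1' := b1.inter H.closed.isOpen_compl
  obtain ⟨α, c1, β, c2, l, c3, c4⟩ := morse b1' b2.neg.continuousOn (a₂ := -2) (b₁ := -(2 * a))
    (by norm_num) (by linarith) (by linarith) (P := (n + 1 ≤ ·)) (𝒢 := univ) (e ▸ b5)
    (fun x hx => (b6 x (e ▸ hx)).2.ge) fun x _ => ⟨univ, univ_mem, fun _ _ _ => trivial⟩
  refine sat_mono (RB_mono (fun x hx => hx.1.2) (fun x hx => mem_inter hx.1.2 fun h => ?_) _)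
    (c4.rv (isOpen_lt_on b1' b2.neg.continuousOn _) (m := m) (fun h => by have := c3 _ h; omega) z
      (C_mono (fun x hx => mem_inter (mem_inter (b7 x (Or.inr hx)).1 (h0 hx)) ?_) _ h1)
      (C_mono (empty_subset _) _ hz.2))
  · linarith [(b7 x (Or.inl h)).2, c1.2, show -f x < α from hx.2]
  · have := not_lt.1 fun h => b8 x (b7 x (Or.inr hx)).1 h hx
    show -f x < β
    linarith [c2.1]

end Hols

end Pool.Agent.Lib.MP_356dfe_ag
end
end

-- part Pool.Agent.Lib.MP_356dfe_ag.Base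
section

/-! The sign theorem for a compact space with isolated conical singularities. -/

set_option autoImplicit false

open Set Filter Topology Module Pool.Agent.Shared.SingHom
open scoped Pointwise

noncomputable section

namespace Pool.Agent.Lib.MP_356dfe_ag

theorem move_cpt {M : Type*} [TopologicalSpace M] [T2Space M] {Ω K : Set M} {f : M → ℝ}
    (hΩ : IsOpen Ω) (hf : Continuous f) {c ε : ℝ} (hc : ∀ b < ε, IsCompact (Ω ∩ f ⁻¹' Icc c b))
    (hr : ∀ x ∈ Ω, c ≤ f x → Reg f x) (hK : IsCompact K) (h : ∀ x ∈ K, f x < ε) :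
    ∃ H, Move Ω f ∅ H ∧ ∀ x ∈ K, x ∈ Ω → f (H (1, x)) < c := by
  obtain ⟨b, h1, h2⟩ := exists_bound_lt hK hf.continuousOn h
  obtain ⟨H, m1, m2⟩ := exists_move hΩ hf.continuousOn (hc b h1) inter_subset_left (B := ∅)
    (fun x hx => (hr x hx.1 hx.2.1).dir (Or.inr (by simp))) (Or.inl rfl) (Or.inl rfl)
    fun x hx _ a1 a2 _ => ⟨hx, a1, a2⟩
  exact ⟨H, m1, fun x hx hx' => (m2 x hx' trivial (h2 x hx)).resolve_right id⟩

variable {X Y G : Type*} [TopologicalSpace X] [TopologicalSpace Y] [Group G] [MulAction G Y]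
  {p : Y → X} {U V : Set X}

theorem zb_image (g : C(X, Y)) (hg : IsEmbedding g) {A : Set X} {m : ℕ} :
    Z (g '' A) m ≤ B (g '' A) m ↔ Z A m ≤ B A m := by
  constructor
  · intro h x hx
    obtain ⟨y, hy, e⟩ := h (push_mem_Z g (mapsTo_image g A) hx)
    obtain ⟨y, hy', rfl⟩ := exists_push_eq g hg hy
    exact ⟨y, hy', push_injective g hg.injective ((bd_push g y).symm.trans e)⟩
  · intro h x hx
    obtain ⟨y, hy, rfl⟩ := exists_push_eq g hg hx.1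
    refine push_mem_B g (mapsTo_image g A) (h (mem_Z.2 ⟨hy, push_injective g hg.injective ?_⟩))
    rw [← bd_push, (mem_Z.1 hx).2, map_zero]

theorem Ctx.zb {D₀ : Set Y} (h : Ctx p G D₀) (hU : Small p G U) {m : ℕ}
    (hZ : Z U (m + 2) ≤ B U (m + 2)) : Z (p ⁻¹' U) (m + 2) ≤ B (p ⁻¹' U) (m + 2) := by
  obtain ⟨W, T, -, -, h1, h2, h3, -, -, h4⟩ := h.sheets hU
  rw [← h3]
  refine Z_le_B_iUnion h1 h2 fun g => ?_
  obtain ⟨j, hj, h5⟩ := h4 g
  obtain ⟨S, e1, e2⟩ := h5 U Subset.rfl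
  rw [inter_eq_left.2 (h3 ▸ subset_iUnion W g)] at e2
  rw [← e2, zb_image _ IsEmbedding.subtypeVal, ← zb_image j hj, e1]
  exact hZ

theorem Small.union (hp : IsQuotientCoveringMap p G) (h : Small p G U) (h' : Small p G V)
    (hd : Disjoint U V) : Small p G (U ∪ V) := by
  obtain ⟨W, K, h1, h2, h3, rfl, h4⟩ := h
  obtain ⟨W', K', h1', h2', h3', rfl, h4'⟩ := h'
  refine ⟨W ∪ W', K ∪ K', h1.union h1', h2.union h2', union_subset_union h3 h3', image_union _ _ _, ?_⟩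
  rintro g ⟨_, ⟨y, hy, rfl⟩, hy'⟩
  have e : p (g • y) = p y := hp.map_smul g
  rcases hy with hy | hy <;> rcases hy' with hy' | hy'
  · exact h4 g ⟨_, ⟨y, hy, rfl⟩, hy'⟩
  · exact (disjoint_left.1 hd ⟨y, hy, rfl⟩ ⟨_, hy', e⟩).elim
  · exact (disjoint_left.1 hd ⟨_, hy', e⟩ ⟨y, hy, rfl⟩).elim
  · exact h4' g ⟨_, ⟨y, hy, rfl⟩, hy'⟩

theorem small_biUnion (hp : IsQuotientCoveringMap p G) {O : X → Set X} {S : Set X} (hS : S.Finite)
    (h : ∀ s ∈ S, Small p G (O s)) (hd : S.PairwiseDisjoint O) : Small p G (⋃ s ∈ S, O s) := by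
  induction S, hS using Set.Finite.induction_on with
  | empty => exact ⟨∅, ∅, isOpen_empty, isCompact_empty, Subset.rfl, by simp, by simp⟩
  | @insert s T hs _ ih =>
    rw [biUnion_insert]
    exact (h s (mem_insert _ _)).union hp (ih (fun t ht => h t (Or.inr ht))
      (hd.subset (subset_insert _ _))) (disjoint_iUnion₂_right.2 fun t ht =>
        hd (mem_insert _ _) (Or.inr ht) fun e => hs (e ▸ ht))

variable {n : ℕ} {𝒜 : OpenPartialHomeomorph X (Fin n → ℂ) → Prop} {S : Set X} {ρ : X → ℝ} {ε : ℝ}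

/-- a smooth function that cuts out the finite set `S` and has no small critical values -/
structure Rug (𝒜 : OpenPartialHomeomorph X (Fin n → ℂ) → Prop) (S : Set X) (ρ : X → ℝ) (ε : ℝ) :
    Prop where
  fin : S.Finite
  tr : ∀ e, 𝒜 e → ∀ y ∈ e.source, C2 𝒜 e y
  ch : ∀ y ∉ S, ∃ e, 𝒜 e ∧ y ∈ e.source
  cont : Continuous ρ
  c2 : ∀ y, C2 𝒜 ρ y
  nonneg : ∀ y, 0 ≤ ρ y
  zero : ∀ y, ρ y = 0 ↔ y ∈ S
  pos : 0 < ε
  reg : ∀ e, 𝒜 e → ∀ y ∈ e.source, 0 < ρ y → ρ y < ε → fderiv ℝ (ρ ∘ e.symm) (e y) ≠ 0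

namespace Rug

variable (R : Rug 𝒜 S ρ ε)
include R

theorem lt {y : X} (hy : y ∉ S) : 0 < ρ y :=
  (R.nonneg y).lt_of_ne fun e => hy ((R.zero y).1 e.symm)

theorem ma {g : ℝ → ℝ} (hg : ContDiff ℝ 2 g) {y : X} (hy : y ∉ S) (h : ρ y < ε)
    (h0 : deriv g (ρ y) ≠ 0) : MA 𝒜 (fun _ => True) (fun x => g (ρ x)) y := by
  obtain ⟨e, he, hs⟩ := R.ch y hy
  have h1 := R.c2 y e he hs
  refine ⟨e, he, hs, hg.contDiffAt.comp _ h1, trivial, Or.inl ?_⟩
  have := (hg.differentiable two_ne_zero _).hasDerivAt.comp_hasFDerivAt (e y)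
    (h1.differentiableAt two_ne_zero).hasFDerivAt
  rw [show (fun y => g (ρ y)) ∘ e.symm = g ∘ ρ ∘ e.symm from rfl, this.fderiv]
  simp only [Function.comp_apply, e.left_inv hs]
  exact smul_ne_zero h0 (R.reg e he y hs (R.lt hy) h)

theorem rg {y : X} (hy : y ∉ S) (h : ρ y < ε) : Reg ρ y :=
  let ⟨e, he, hs⟩ := R.ch y hy
  ⟨_, _, _, inferInstance, e, hs, (R.c2 y e he hs).of_le one_le_two, R.reg e he y hs (R.lt hy) h⟩

theorem mono {δ : ℝ} (h0 : 0 < δ) (h : δ ≤ ε) : Rug 𝒜 S ρ δ :=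
  { R with pos := h0, reg := fun e he y hy h1 h2 => R.reg e he y hy h1 (h2.trans_le h) }

variable [CompactSpace X] [T2Space X]

theorem filt {𝒢 : Set (Set X)} (hG : ∀ x, ∃ N ∈ 𝓝 x, ∀ U ⊆ N, IsOpen U → U ∈ 𝒢) :
    ∃ l V, Filt 𝒢 ∅ l V ∧ V ⊆ Sᶜ ∧ LDf {x | ρ x < ε} V Sᶜ := by
  have h0 := R.pos
  have hS := R.fin.isClosed.isOpen_compl
  have hc : ∀ {b}, b < 0 → ∀ x, -ρ x ≤ b → x ∉ S := fun hb x hx h => by
    linarith [(R.zero x).2 h]
  have hf : Continuous fun x => -ρ x := R.cont.neg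
  have hk : ∀ {A : Set X} {T : Set ℝ}, IsClosed T → (∀ x, -ρ x ∈ T → x ∈ A) →
      IsCompact (A ∩ (fun x => -ρ x) ⁻¹' T) := fun hT h =>
    (inter_eq_right.2 h).symm ▸ (hT.preimage hf).isCompact
  have hd : ∀ t : ℝ, deriv (fun t : ℝ => -t) t ≠ 0 := fun t => by simp
  obtain ⟨b, hb, l, h1⟩ := exists_filt R.tr hS hf.continuousOn (b₀ := -(ε / 2))
    (b₁ := -(ε / 3)) (by linarith) (hk isClosed_Iic fun x hx => hc (by linarith) x hx)
    (fun x hx => ⟨fun e he hs => (R.c2 x e he hs).neg, R.ch x hx, fun a1 _ =>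
      R.ma contDiff_neg hx (by linarith) (hd _)⟩) hG
  refine ⟨l, _, h1, inter_subset_left, fun K hK hKS => ?_⟩
  obtain ⟨H, m1, m2⟩ := move_cpt ((isOpen_lt R.cont (continuous_const (y := ε))).inter hS) hf
    (c := b) (ε := 0) (fun b' hb' => hk isClosed_Icc fun x hx =>
      ⟨show ρ x < ε by linarith [hx.1, hb.1], hc hb' x hx.2⟩)
    (fun x hx _ => (R.rg hx.2 hx.1).comp contDiff_neg (hd _)) hK
    fun x hx => neg_neg_of_pos (R.lt (hKS hx))
  have a1 : ∀ (P : Set X) t, ∀ y ∈ P, (y ∈ {x | ρ x < ε} ∩ Sᶜ → H (t, y) ∈ P) → H (t, y) ∈ P :=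
    fun P t y hy h => by
      by_cases h' : y ∈ {x | ρ x < ε} ∩ Sᶜ
      · exact h h'
      · rwa [m1.out t y h']
  refine ⟨H, m1.zero, fun t y hy => m1.out t y fun h => hy h.1,
    fun t y hy => a1 _ t y hy fun h => (m1.mem t y h).1,
    fun t y hy => a1 _ t y hy fun h => (m1.mem t y h).2,
    fun t y hy => a1 _ t y hy fun h => ⟨(m1.mem t y h).2, (m1.le t y h).trans_lt hy.2⟩,
    fun y hy => ?_⟩
  by_cases h' : y ∈ {x | ρ x < ε} ∩ Sᶜ
  · exact ⟨(m1.mem 1 y h').2, m2 y hy h'⟩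
  · rw [m1.out 1 y h']
    have : ε ≤ ρ y := not_lt.1 fun h => h' ⟨h, hKS hy⟩
    exact ⟨hKS hy, show -ρ y < b by linarith [hb.1]⟩

theorem sp : Sp ({x | ρ x < ε} ∩ Sᶜ) ∅ := by
  have h0 := R.pos
  have hΩ := (isOpen_lt R.cont (continuous_const (y := ε))).inter R.fin.isClosed.isOpen_compl
  have hg : ContDiff ℝ 2 fun t : ℝ => (t - ε / 2) ^ 2 := by fun_prop
  have hf : Continuous fun x => (ρ x - ε / 2) ^ 2 := hg.continuous.comp R.cont
  have hd : ∀ t : ℝ, 0 < (t - ε / 2) ^ 2 → deriv (fun t : ℝ => (t - ε / 2) ^ 2) t ≠ 0 := fun t h => by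
    rw [(((hasDerivAt_id' t).sub_const _).fun_pow 2).deriv]
    simpa using h.ne'
  have hc : ∀ {T : Set ℝ}, IsClosed T → (∀ t ∈ T, t < (ε / 2) ^ 2) →
      IsCompact (({x | ρ x < ε} ∩ Sᶜ) ∩ (fun x => (ρ x - ε / 2) ^ 2) ⁻¹' T) := fun hT h => by
    rw [inter_eq_right.2 fun x hx => ?_]
    · exact (hT.preimage hf).isCompact
    · have := abs_lt.1 (abs_lt_of_sq_lt_sq (h _ hx) (half_pos h0).le)
      exact ⟨show ρ x < ε by linarith [this.2], fun h => by linarith [(R.zero x).2 h, this.1]⟩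
  obtain ⟨b, hb, l, h1⟩ := exists_filt R.tr hΩ hf.continuousOn (b₀ := (ε / 4) ^ 2)
    (b₁ := (ε / 3) ^ 2) (by nlinarith) (hc isClosed_Iic fun t (ht : t ≤ _) => by nlinarith)
    (fun x hx => ⟨fun e he hs => hg.contDiffAt.comp _ (R.c2 x e he hs), R.ch x hx.2, fun a1 _ =>
      R.ma hg hx.2 hx.1 (hd _ (lt_of_lt_of_le (by positivity) a1))⟩)
    (𝒢 := {U | Small id (Triv X) U}) fun x => ⟨univ, univ_mem, fun _ _ h => small_triv h⟩
  obtain ⟨J, _, deg, d, φ, T, h2, -⟩ := ctx_triv.filt (fun _ h => h) h1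
  refine (h2.sp fun S ⟨g, hg⟩ => eq_univ_of_forall fun y => mem_biUnion hg (by simp)).of_ac
    inter_subset_left (ac_of_deform inter_subset_left fun K hK hKΩ => ?_)
  obtain ⟨H, m1, m2⟩ := move_cpt hΩ hf (c := b) (ε := (ε / 2) ^ 2)
    (fun b' hb' => hc isClosed_Icc fun t ht => ht.2.trans_lt hb')
    (fun x hx h => (R.rg hx.2 hx.1).comp (hg.of_le one_le_two)
      (hd _ (lt_of_lt_of_le (lt_trans (by positivity) hb.1) h))) hK
    fun x hx => by nlinarith [R.lt (hKΩ hx).2, show ρ x < ε from (hKΩ hx).1]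
  exact ⟨H, H.continuous.continuousOn, fun z _ => m1.zero z, fun t _ z hz => m1.mem t z (hKΩ hz),
    fun t _ z _ hz => ⟨m1.mem t z hz.1, (m1.le t z hz.1).trans_lt hz.2⟩,
    fun z hz => ⟨m1.mem 1 z (hKΩ hz), m2 z hz (hKΩ hz)⟩⟩

theorem cones (hp : IsQuotientCoveringMap p G) : ∃ δ, Rug 𝒜 S ρ δ ∧ Small p G {x | ρ x < δ} ∧
    Sp {x | ρ x < δ} ∅ ∧ ∀ m, Z {x | ρ x < δ} (m + 2) ≤ B {x | ρ x < δ} (m + 2) := by
  obtain ⟨O', h1, h2⟩ := R.fin.t2_separation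
  choose N h3 h4 using small_nhds hp
  obtain ⟨O, o0, o1, o2, o3⟩ : ∃ O : X → Set X, (∀ x, O x ⊆ N x) ∧ (∀ x, IsOpen (O x)) ∧
      (∀ x, x ∈ O x) ∧ S.PairwiseDisjoint O :=
    ⟨fun x => O' x ∩ interior (N x), fun x => inter_subset_right.trans interior_subset,
      fun x => (h1 x).2.inter isOpen_interior,
      fun x => ⟨(h1 x).1, mem_interior_iff_mem_nhds.2 (h3 x)⟩, h2.mono fun x => inter_subset_left⟩
  obtain ⟨δ, R', u1⟩ : ∃ δ, Rug 𝒜 S ρ δ ∧ {x | ρ x < δ} ⊆ ⋃ s ∈ S, O s := by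
    have hc : IsCompact (⋃ s ∈ S, O s)ᶜ :=
      (isOpen_biUnion fun s _ => o1 s).isClosed_compl.isCompact
    obtain ⟨δ₀, d0, d1⟩ := hc.exists_forall_le' R.cont.continuousOn
      fun x hx => R.lt fun h => hx (mem_biUnion h (o2 x))
    exact ⟨min δ₀ ε, R.mono (lt_min d0 R.pos) (min_le_right _ _), fun x hx => by_contra fun h =>
      (d1 x h).not_gt (lt_of_lt_of_le hx (min_le_left _ _))⟩
  have hU : IsOpen {x | ρ x < δ} := isOpen_lt R.cont continuous_const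
  have u2 : ⋃ s : S, O s ∩ {x | ρ x < δ} = {x | ρ x < δ} := by
    rw [← iUnion_inter, iUnion_coe_set, inter_eq_right.2 u1]
  have u3 : ∀ s ∈ S, s ∈ O s ∩ {x | ρ x < δ} := fun s hs =>
    ⟨o2 s, ((R.zero s).2 hs).trans_lt R'.pos⟩
  have ac : ∀ s ∈ S, Acyc (O s ∩ {x | ρ x < δ}) := fun s hs => by
    refine acyc_cone ((o1 s).inter hU) R.cont.continuousOn (u3 s hs) ((R.zero s).2 hs)
      (fun x hx h => ?_) (fun x hx => hx.2) fun b hb => ?_
    · have : x ∉ S := fun h' => disjoint_left.1 (o3 h' hs h) (o2 x) hx.1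
      exact ⟨R.lt this, R'.rg this hx.2⟩
    · suffices e : O s ∩ {x | ρ x < δ} ∩ ρ ⁻¹' Iic b = ρ ⁻¹' Iic b \ ⋃ t ∈ S \ {s}, O t by
        rw [e]
        exact (isClosed_Iic.preimage R.cont).isCompact.diff (isOpen_biUnion fun t _ => o1 t)
      refine Subset.antisymm (fun x hx => ⟨hx.2, fun h => ?_⟩) fun x hx => ?_
      · obtain ⟨t, ht, h⟩ := mem_iUnion₂.1 h
        exact disjoint_left.1 (o3 ht.1 hs ht.2) h hx.1.1
      · have a1 : ρ x < δ := lt_of_le_of_lt hx.1 hb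
        obtain ⟨t, ht, h⟩ := mem_iUnion₂.1 (u1 a1)
        obtain rfl : t = s := by_contra fun e => hx.2 (mem_biUnion ⟨ht, e⟩ h)
        exact ⟨⟨h, a1⟩, hx.1⟩
  have o4 : S.PairwiseDisjoint fun s => O s ∩ {x | ρ x < δ} := o3.mono fun x => inter_subset_left
  refine ⟨δ, R', (small_biUnion hp R.fin (fun s _ => h4 s _ (o0 s) (o1 s)) o3).mono
    hp.continuous u1 hU,
    (congrArg (Sp · ∅) u2).mp (sp_iUnion (U := fun s => O s ∩ {x | ρ x < δ}) R.fin
      (fun s _ => (o1 s).inter hU) o4 u3 ac), fun m =>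
      (congrArg (fun A => Z A (m + 2) ≤ B A (m + 2)) u2).mp ?_⟩
  exact Z_le_B_iUnion (U := fun s : S => O s ∩ {x | ρ x < δ}) (fun s => (o1 s).inter hU)
    (fun s s' h => o4 s.2 s'.2 (Subtype.coe_ne_coe.2 h)) fun s => ac s s.2 _

theorem main [DecidableEq G] (hp : IsQuotientCoveringMap p G)
    (ham : ∀ (T : Finset G) (ε : ℝ), 0 < ε → ∃ E : Finset G, E.Nonempty ∧
      (((E * T) \ E).card : ℝ) ≤ ε * E.card)
    {𝒜' : OpenPartialHomeomorph Y (Fin n → ℂ) → Prop} {ℋ : Subalgebra ℂ (Y → ℂ)}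
    (hY : Hols 𝒜' ℋ (p ⁻¹' S))
    {H H' : ℕ → Type} [∀ i, AddCommGroup (H i)] [∀ i, Module ℚ (H i)] [∀ i, AddCommGroup (H' i)]
    [∀ i, Module ℚ (H' i)] (j : ∀ i, H i →ₗ[ℚ] H' i)
    (hj : ∀ i, ∃ (κ : RZ Sᶜ ∅ i →+ H i) (κ' : RZ univ ∅ i →+ H' i), Cmp Sᶜ i κ ∧ Cmp univ i κ' ∧
      ∀ (z : RZ Sᶜ ∅ i) (z' : RZ univ ∅ i), z.1 = z'.1 → j i (κ z) = κ' z') :
    ∃ (Mx : ℕ) (r : ℕ → ℕ), (∀ i, Mx ≤ i → r i = 0) ∧
      0 ≤ (-1 : ℤ) ^ n * ∑ i ∈ Finset.range Mx, (-1 : ℤ) ^ i * r i ∧ ∀ i,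
      (i < n → Module.Finite ℚ (H i) ∧ finrank ℚ (H i) = r i) ∧
      (i = n → Module.Finite ℚ (LinearMap.range (j i)) ∧ finrank ℚ (LinearMap.range (j i)) = r i) ∧
      (n < i → Module.Finite ℚ (H' i) ∧ finrank ℚ (H' i) = r i) := by
  obtain ⟨δ, R', h1, h2, h3⟩ := R.cones hp
  obtain ⟨l, V, h4, h5, h6⟩ := R'.filt (𝒢 := {U | Small p G U}) (small_nhds hp)
  obtain ⟨D₀, hc⟩ := exists_ctx hp
  have := t2_of_cover hp.isCoveringMap
  have : WeaklyLocallyCompactSpace Y := ⟨fun y =>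
    let ⟨_, K, a1, a2, a3, a4, _⟩ := exists_small hp y
    ⟨K, a3, mem_of_superset (a2.mem_nhds a1) a4⟩⟩
  exact core hp h4 h5 R.fin.isClosed.isOpen_compl h1 h6
    (eq_univ_of_forall fun x => (em (x ∈ S)).symm.imp_right fun h =>
      ((R.zero x).2 h).trans_lt R'.pos) (h2.pair R'.sp inter_subset_left) n ham
    (hY.high ((isOpen_lt R.cont continuous_const).preimage hp.continuous)
      (fun y hy => ((R.zero _).2 hy).trans_lt R'.pos) fun m => hc.zb h1 (h3 m)) hY.low j hj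

end Rug

end Pool.Agent.Lib.MP_356dfe_ag
end
end

-- part Pool.Agent.Lib.MP_356dfe_ag.Comp
section

/-! Comparison of integral singular chains with the rational singular homology of Mathlib. -/

set_option autoImplicit false

open Set Topology Pool.Agent.Shared.SingHom

noncomputable section

namespace Pool.Agent.Lib.MP_356dfe_ag

namespace RC

open CategoryTheory AlgebraicTopology Simplicial Limits Opposite

/-- the class of a cycle -/
def cl (K : ChainComplex (ModuleCat.{0} ℚ) ℕ) (n : ℕ) :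
    LinearMap.ker (K.d n (n - 1)).hom →ₗ[ℚ] K.homology n :=
  (K.liftCycles (ModuleCat.ofHom (LinearMap.ker (K.d n (n - 1)).hom).subtype) (n - 1)
    (by cases n <;> simp) (by ext x; exact x.2) ≫ K.homologyπ n).hom

variable {K L : ChainComplex (ModuleCat.{0} ℚ) ℕ} {n : ℕ}

theorem i_inj : Function.Injective (K.iCycles n).hom :=
  (ModuleCat.mono_iff_injective _).1 inferInstance

theorem cl_spec (z : LinearMap.ker (K.d n (n - 1)).hom) :
    ∃ y, (K.iCycles n).hom y = z.1 ∧ (K.homologyπ n).hom y = cl K n z :=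
  ⟨_, congrArg (fun f => ModuleCat.Hom.hom f z) (K.liftCycles_i
    (ModuleCat.ofHom (LinearMap.ker (K.d n (n - 1)).hom).subtype) (n - 1) _ _), rfl⟩

theorem cl_eq {z : LinearMap.ker (K.d n (n - 1)).hom} {y} (h : (K.iCycles n).hom y = z.1) :
    cl K n z = (K.homologyπ n).hom y := by
  obtain ⟨y', h1, h2⟩ := cl_spec z
  rw [← h2, i_inj (h1.trans h.symm)]

theorem cl_surj : Function.Surjective (cl K n) := fun c => by
  obtain ⟨y, rfl⟩ := (ModuleCat.epi_iff_surjective (K.homologyπ n)).1 inferInstance c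
  exact ⟨⟨(K.iCycles n).hom y, congrArg (fun f => ModuleCat.Hom.hom f y) (K.iCycles_d n (n - 1))⟩,
    cl_eq rfl⟩

theorem cl_zero (z : LinearMap.ker (K.d n (n - 1)).hom) :
    cl K n z = 0 ↔ ∃ w, (K.d (n + 1) n).hom w = z.1 := by
  have h1 := (ShortComplex.moduleCat_exact_iff _).1 (ShortComplex.exact_of_g_is_cokernel
    (ShortComplex.mk _ _ (K.toCycles_comp_homologyπ (n + 1) n))
    (K.homologyIsCokernel (n + 1) n (by simp)))
  have h2 : ∀ w, (K.iCycles n).hom ((K.toCycles (n + 1) n).hom w) = (K.d (n + 1) n).hom w :=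
    fun w => congrArg (fun f => ModuleCat.Hom.hom f w) (K.toCycles_i (n + 1) n)
  constructor
  · intro h
    obtain ⟨y, h3, h4⟩ := cl_spec z
    obtain ⟨w, rfl⟩ := h1 y (h4.trans h)
    exact ⟨w, (h2 w).symm.trans h3⟩
  · rintro ⟨w, hw⟩
    rw [cl_eq ((h2 w).trans hw)]
    exact congrArg (fun f => ModuleCat.Hom.hom f w) (K.toCycles_comp_homologyπ (n + 1) n)

theorem cl_map (φ : K ⟶ L) {z : LinearMap.ker (K.d n (n - 1)).hom}
    {z' : LinearMap.ker (L.d n (n - 1)).hom} (h : (φ.f n).hom z.1 = z'.1) :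
    (HomologicalComplex.homologyMap φ n).hom (cl K n z) = cl L n z' := by
  obtain ⟨y, h1, h2⟩ := cl_spec z
  rw [← h2, cl_eq (y := (HomologicalComplex.cyclesMap φ n).hom y) ((congrArg
    (fun f => ModuleCat.Hom.hom f y) (HomologicalComplex.cyclesMap_i φ n)).trans
      ((congrArg (φ.f n).hom h1).trans h))]
  exact congrArg (fun f => ModuleCat.Hom.hom f y) (HomologicalComplex.homologyπ_naturality φ n)

variable {X Y : Type} [TopologicalSpace X] [TopologicalSpace Y]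

/-- the singular chain complex of Mathlib -/
abbrev KX (X : Type) [TopologicalSpace X] : ChainComplex (ModuleCat.{0} ℚ) ℕ :=
  (TopCat.toSSet.obj (TopCat.of X)).chainComplex (ModuleCat.of ℚ ℚ)

/-- from continuous maps to simplices of the singular set -/
def sx {k : ℕ} (σ : C(Dl (k + 1), X)) : (TopCat.toSSet.obj (TopCat.of X)) _⦋k⦌ :=
  (TopCat.toSSetObjEquiv (TopCat.of X) (op ⦋k⦌)).symm σ

/-- from simplices of the singular set to continuous maps -/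
def xs {k : ℕ} (x : (TopCat.toSSet.obj (TopCat.of X)) _⦋k⦌) : C(Dl (k + 1), X) :=
  TopCat.toSSetObjEquiv (TopCat.of X) (op ⦋k⦌) x

theorem xs_sx {k : ℕ} (σ : C(Dl (k + 1), X)) : xs (sx σ) = σ := Equiv.apply_symm_apply _ _

theorem sx_xs {k : ℕ} (x : (TopCat.toSSet.obj (TopCat.of X)) _⦋k⦌) : sx (xs x) = x :=
  Equiv.symm_apply_apply _ _

theorem delta_sx {k : ℕ} (σ : C(Dl (k + 2), X)) (i : Fin (k + 2)) :
    (TopCat.toSSet.obj (TopCat.of X)).δ i (sx σ) = sx (σ.comp (face (k + 1) i)) := by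
  rw [← sx_xs ((TopCat.toSSet.obj (TopCat.of X)).δ i (sx σ))]
  congr 1

/-- the generator attached to a simplex -/
def gen {k : ℕ} (σ : C(Dl (k + 1), X)) : (KX X).X k :=
  ((TopCat.toSSet.obj (TopCat.of X)).ιChainComplex (R := ModuleCat.of ℚ ℚ) (sx σ)).hom (1 : ℚ)

theorem d_gen {k : ℕ} (σ : C(Dl (k + 2), X)) : ((KX X).d (k + 1) k).hom (gen σ) =
    ∑ i : Fin (k + 2), (-1 : ℤ) ^ i.val • gen (σ.comp (face (k + 1) i)) := by
  have := congrArg (fun f => ModuleCat.Hom.hom f (1 : ℚ))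
    (SSet.ιChainComplex_d (TopCat.toSSet.obj (TopCat.of X)) (ModuleCat.of ℚ ℚ) (sx σ))
  simp only [ModuleCat.hom_comp, LinearMap.comp_apply, delta_sx, ModuleCat.hom_sum,
    LinearMap.sum_apply, ModuleCat.hom_zsmul] at this
  exact this

/-- the induced chain map -/
abbrev KM (g : C(X, Y)) : KX X ⟶ KX Y :=
  SSet.chainComplexMap (TopCat.toSSet.map (TopCat.ofHom g)) (ModuleCat.of ℚ ℚ)

theorem KM_gen (g : C(X, Y)) {k : ℕ} (σ : C(Dl (k + 1), X)) :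
    ((KM g).f k).hom (gen σ) = gen (g.comp σ) :=
  congrArg (fun f => ModuleCat.Hom.hom f (1 : ℚ))
    (SSet.ι_chainComplexMap_f _ _ (TopCat.toSSet.map (TopCat.ofHom g)) (ModuleCat.of ℚ ℚ) (sx σ))

theorem gen_span {k : ℕ} (W : Submodule ℚ ((KX X).X k)) (h : ∀ σ, gen σ ∈ W) (w) : w ∈ W := by
  have h3 : ModuleCat.ofHom W.mkQ = 0 := by
    refine SSet.chainComplex_hom_ext fun x => ?_
    ext
    have h5 := h (xs x)
    rw [gen, sx_xs] at h5
    simpa using h5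
  have h4 := congrArg (fun f => ModuleCat.Hom.hom f w) h3
  simpa using h4

/-- from the chains of Mathlib to formal sums -/
def toCh (k : ℕ) : (KX X).X k →ₗ[ℚ] (Sx X →₀ ℚ) :=
  (Cofan.IsColimit.desc ((TopCat.toSSet.obj (TopCat.of X)).isColimitChainComplexXCofan
    (ModuleCat.of ℚ ℚ) k) (A := ModuleCat.of ℚ (Sx X →₀ ℚ))
    (fun x => ModuleCat.ofHom (LinearMap.toSpanSingleton ℚ (Sx X →₀ ℚ)
      (Finsupp.single ⟨k + 1, xs x⟩ 1)))).hom

theorem toCh_gen {k : ℕ} (σ : C(Dl (k + 1), X)) :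
    toCh k (gen σ) = Finsupp.single ⟨k + 1, σ⟩ 1 := by
  have := congrArg (fun f => ModuleCat.Hom.hom f (1 : ℚ))
    (Cofan.IsColimit.fac ((TopCat.toSSet.obj (TopCat.of X)).isColimitChainComplexXCofan
    (ModuleCat.of ℚ ℚ) k) (A := ModuleCat.of ℚ (Sx X →₀ ℚ))
    (fun x => ModuleCat.ofHom (LinearMap.toSpanSingleton ℚ (Sx X →₀ ℚ)
      (Finsupp.single ⟨k + 1, xs x⟩ 1))) (sx σ))
  simp only [ModuleCat.hom_comp, LinearMap.comp_apply, xs_sx, ModuleCat.hom_ofHom,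
    LinearMap.toSpanSingleton_apply, one_smul] at this
  exact this

/-- from our chains to the chains of Mathlib -/
def ofCh (k : ℕ) : Ch X →+ (KX X).X k :=
  Finsupp.liftAddHom fun s => zmultiplesHom _
    (if h : s.1 = k + 1 then gen (cast (congrArg (fun m => C(Dl m, X)) h) s.2) else 0)

theorem ofCh_single {k : ℕ} (σ : C(Dl (k + 1), X)) :
    ofCh k (Finsupp.single ⟨k + 1, σ⟩ 1) = gen σ := by
  simp [ofCh]

theorem ofCh_inj {k : ℕ} {x : Ch X} (hx : x ∈ C univ (k + 1)) (h : ofCh k x = 0) : x = 0 := by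
  have := eq_on_C ((toCh k).toAddMonoidHom.comp (ofCh k)).toIntLinearMap
    (Finsupp.mapRange.addMonoidHom (Int.castAddHom ℚ)).toIntLinearMap
    (fun σ _ => by simp [toCh_gen, ofCh_single]) hx
  ext s
  simpa [h] using DFunLike.congr_fun this.symm s

theorem d_ofCh {k : ℕ} {x : Ch X} (hx : x ∈ C univ (k + 2)) :
    ((KX X).d (k + 1) k).hom (ofCh (k + 1) x) = ofCh k (bd x) :=
  eq_on_C (((KX X).d (k + 1) k).hom.toAddMonoidHom.comp (ofCh (k + 1))).toIntLinearMap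
    ((ofCh k).toIntLinearMap.comp bd) (fun σ _ => by
      change ((KX X).d (k + 1) k).hom (ofCh (k + 1) _) = ofCh k (bd _)
      rw [ofCh_single, d_gen, bd_succ, map_sum]
      simp only [map_zsmul, ofCh_single]) hx

theorem KM_ofCh (g : C(X, Y)) {k : ℕ} {x : Ch X} (hx : x ∈ C univ (k + 1)) :
    ((KM g).f k).hom (ofCh k x) = ofCh k (push g x) :=
  eq_on_C (((KM g).f k).hom.toAddMonoidHom.comp (ofCh k)).toIntLinearMap
    ((ofCh k).toIntLinearMap.comp (push g)) (fun σ _ => by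
      change ((KM g).f k).hom (ofCh k _) = ofCh k (push g _)
      rw [ofCh_single, KM_gen, push_single, ofCh_single]) hx

theorem ofCh_surj {k : ℕ} (w : (KX X).X k) :
    ∃ N : ℤ, N ≠ 0 ∧ ∃ x ∈ C (univ : Set X) (k + 1), ofCh k x = N • w := by
  refine gen_span ⟨(sat ((C (univ : Set X) (k + 1)).map (ofCh k).toIntLinearMap)).toAddSubmonoid,
    ?_⟩ (fun σ => le_sat _ ⟨_, single_mem_C (fun _ => mem_univ _) 1, ofCh_single σ⟩) w
  intro t a ha
  refine sat_of_smul (N := t.den) (by exact_mod_cast t.den_nz) ?_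
  rw [← Int.cast_smul_eq_zsmul ℚ, smul_smul, Int.cast_natCast, mul_comm, Rat.mul_den_eq_num,
    Int.cast_smul_eq_zsmul]
  exact Submodule.smul_mem _ _ ha

theorem d_cycle {x : Ch X} (hx : x ∈ C univ (n + 1)) :
    ((KX X).d n (n - 1)).hom (ofCh n x) = 0 ↔ bd x ∈ C ∅ n := by
  cases n with
  | zero =>
    rw [(KX X).shape 0 (0 - 1) (by simp)]
    exact iff_of_true rfl (mem_E0 (bd_mem hx))
  | succ n =>
    rw [C_empty, Submodule.mem_bot]
    exact (d_ofCh hx).congr_left.trans ⟨ofCh_inj (bd_mem hx), fun h => by rw [h, map_zero]⟩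

/-- the rational class of an integral cycle -/
def kap (X : Type) [TopologicalSpace X] (n : ℕ) : RZ (univ : Set X) ∅ n →+ (HQ n).obj (TopCat.of X) :=
  (cl (KX X) n).toAddMonoidHom.comp (((ofCh n).comp (RZ univ ∅ n).subtype.toAddMonoidHom).codRestrict
    (LinearMap.ker ((KX X).d n (n - 1)).hom) fun z => (d_cycle z.2.1).2 z.2.2)

theorem kap_apply (z : RZ (univ : Set X) ∅ n) :
    kap X n z = cl (KX X) n ⟨ofCh n z.1, (d_cycle z.2.1).2 z.2.2⟩ := rfl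

theorem cmp_kap : Cmp univ n (kap X n) := by
  refine ⟨fun c => ?_, fun z => ⟨fun h => ?_, fun ⟨N, hN, y, hy, e⟩ => ?_⟩⟩
  · obtain ⟨z, rfl⟩ := cl_surj (K := KX X) c
    obtain ⟨N, hN, x, hx, e⟩ := ofCh_surj z.1
    refine ⟨N, hN, ⟨x, hx, (d_cycle hx).1 (by rw [e, map_zsmul, z.2, smul_zero])⟩, ?_⟩
    exact (congrArg (cl (KX X) n) (Subtype.ext e)).trans (map_zsmul _ N z)
  · obtain ⟨w, hw⟩ := (cl_zero _).1 ((kap_apply z).symm.trans h)
    obtain ⟨N, hN, y, hy, e⟩ := ofCh_surj w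
    refine ⟨N, hN, y, hy, sub_eq_zero.1 (ofCh_inj (Submodule.sub_mem _ (bd_mem hy)
      (Submodule.smul_mem _ _ z.2.1)) ?_)⟩
    rw [map_sub, ← d_ofCh hy, e, map_zsmul, map_zsmul, hw, sub_self]
  · have h1 : kap X n (N • z) = 0 :=
      (cl_zero _).2 ⟨ofCh (n + 1) y, (d_ofCh hy).trans (congrArg _ e)⟩
    rw [map_zsmul, ← Int.cast_smul_eq_zsmul ℚ, smul_eq_zero] at h1
    exact h1.resolve_left (Int.cast_ne_zero.2 hN)

theorem kap_map (g : C(X, Y)) {z : RZ (univ : Set X) ∅ n} {z' : RZ (univ : Set Y) ∅ n}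
    (h : push g z.1 = z'.1) : ((HQ n).map (TopCat.ofHom g)).hom (kap X n z) = kap Y n z' :=
  cl_map (KM g) ((KM_ofCh g z.2.1).trans (congrArg _ h))

end RC

open RC in
theorem exists_cmp {X : Type} [TopologicalSpace X] (A : Set X) (i : ℕ) :
    ∃ (κ : RZ A ∅ i →+ (HQ i).obj (TopCat.of A)) (κ' : RZ univ ∅ i →+ (HQ i).obj (TopCat.of X)),
      Cmp A i κ ∧ Cmp univ i κ' ∧ ∀ (z : RZ A ∅ i) (z' : RZ univ ∅ i), z.1 = z'.1 →
        ((HQ i).map (TopCat.ofHom (incl A))).hom (κ z) = κ' z' := by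
  have hg : IsEmbedding (incl A) := IsEmbedding.subtypeVal
  have e0 : incl A '' univ = A := Subtype.coe_image_univ A
  have e1 : ∀ x, bd (push (incl A) x) ∈ C ∅ i ↔ bd x ∈ C ∅ i := fun x => by
    rw [bd_push, ← image_empty (incl A), push_mem_C _ hg]
  let f : RZ (univ : Set A) ∅ i →ₗ[ℤ] RZ A ∅ i := (push (incl A)).restrict fun x hx =>
    ⟨push_mem _ (fun a _ => a.2) hx.1, (e1 x).2 hx.2⟩
  let e := LinearEquiv.ofBijective f ⟨fun a b h => Subtype.ext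
    (push_injective _ hg.injective (congrArg Subtype.val h)), fun z => by
      obtain ⟨x, hx, h⟩ := exists_push_eq (incl A) hg (C_mono e0.ge _ z.2.1)
      exact ⟨⟨x, hx, (e1 x).1 (h.symm ▸ z.2.2)⟩, Subtype.ext h⟩⟩
  have e2 : ∀ z, push (incl A) (e.symm z).1 = z.1 := fun z =>
    congrArg Subtype.val (e.apply_symm_apply z)
  refine ⟨(kap A i).comp e.symm.toLinearMap.toAddMonoidHom, kap X i, ⟨fun c => ?_, fun z => ?_⟩,
    cmp_kap, fun z z' h => kap_map _ ((e2 z).trans h)⟩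
  · obtain ⟨N, hN, z, h⟩ := cmp_kap.1 c
    exact ⟨N, hN, e z, (congrArg (kap A i) (e.symm_apply_apply z)).trans h⟩
  · refine (cmp_kap.2 (e.symm z)).trans ?_
    have := map_RB_eq (incl A) hg univ ∅ (i + 1)
    rw [e0, image_empty, RB, RB, C_empty, C_empty, sup_bot_eq, sup_bot_eq] at this
    rw [← e2, ← this, push_mem_sat _ hg]

end Pool.Agent.Lib.MP_356dfe_ag
end
end

-- part Pool.Agent.Lib.MP_356dfe_ag.Proj
section

/-! Projective varieties with isolated singularities and their Stein coverings. -/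

set_option autoImplicit false

open Set Filter Topology Projectivization Pool.Agent.Shared.OMin
open scoped Pointwise ComplexConjugate

noncomputable section

namespace Pool.Agent.Lib.MP_356dfe_ag

section Def

variable {α : Type} [NormedAddCommGroup α] [NormedSpace ℝ α] [FiniteDimensional ℝ α] {S : OStr}

theorem crit_finite {A : Set α} (hA : DP S fun x => x ∈ A) {r : α → ℝ} (hr : DF S r) :
    {t | ∃ v, v ∈ A ∧ r v = t ∧ ∃ h : α → ℝ, HasFDerivAt h (0 : α →L[ℝ] ℝ) v ∧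
      ∀ᶠ w in 𝓝 v, w ∈ A → r w = h w}.Finite := by
  classical
  have h1 : DP S fun z : ℝ × α => z.2 ∈ A ∧ r z.2 = z.1 ∧
      HasFDerivAt (fun w => if w ∈ A then r w else r z.2) (0 : α →L[ℝ] ℝ) z.2 :=
    (hA.mem (by fun_prop)).and (DP.and (by fun_prop) (DP.hasFD
      (f := fun (z : ℝ × α) w => if w ∈ A then r w else r z.2)
      (DF.ite (hA.mem (by fun_prop)) (by fun_prop) (by fun_prop)) (by fun_prop) (by fun_prop)))
  obtain ⟨γ, g1, g2⟩ := DP.choice (X := fun t v => v ∈ A ∧ r v = t ∧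
    HasFDerivAt (fun w => if w ∈ A then r w else r v) (0 : α →L[ℝ] ℝ) v) h1
  refine (DP.finite_of_interior (s := {t | ∃ v, v ∈ A ∧ r v = t ∧
    HasFDerivAt (fun w => if w ∈ A then r w else r v) (0 : α →L[ℝ] ℝ) v}) (DP.ex h1)
    (interior_eq_empty_of_forall fun W hW hn hs => ?_)).subset ?_
  · obtain ⟨W', a1, ⟨t, ht⟩, a2, a3⟩ := (DP.diffAt_one g1).exists_open g1.generic_diff hW hn
    have a4 := ((g2 t (hs (a2 ht))).2.2.comp_hasDerivAt t (a3 t ht).hasDerivAt).unique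
      ((hasDerivAt_id t).congr_of_eventuallyEq (mem_of_superset (a1.mem_nhds ht) fun u hu =>
        (if_pos (g2 u (hs (a2 hu))).1).trans (g2 u (hs (a2 hu))).2.1))
    simp at a4
  · rintro t ⟨v, hv, e, h, h2, h3⟩
    refine ⟨v, hv, e, .of_isLittleO ((Asymptotics.IsBigO.of_bound'
      (h3.mono fun w hw => ?_)).trans_isLittleO h2.isLittleO)⟩
    by_cases h4 : w ∈ A <;> simp [hv, h4, hw, h3.self_of_nhds hv]

theorem df_mul {f g : α → ℂ} (hf : DF S f) (hg : DF S g) : DF S fun x => f x * g x :=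
  DF.bilin (LinearMap.mul ℝ ℂ) hf hg

variable {ι : Type} [Fintype ι]

theorem df_app (i : ι) : DF S fun x : ι → ℂ => x i :=
  DF.clm (ContinuousLinearMap.proj (R := ℝ) (φ := fun _ : ι => ℂ) i)

theorem df_eval (P : MvPolynomial ι ℂ) : DF S fun x : ι → ℂ => MvPolynomial.eval x P := by
  induction P using MvPolynomial.induction_on with
  | C a => simpa using DF.const a
  | add P Q h h' => simpa using h.add h'
  | mul_X P i h => simpa using df_mul h (df_app i)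

theorem df_sq {f : α → ι → ℂ} (h : ∀ i, DF S fun x => f x i) : DF S fun x => sq (f x) :=
  DF.sum _ fun i _ => by
    simp only [Complex.sq_norm, Complex.normSq_apply]
    have h1 := (DF.clm Complex.reCLM).comp (h i)
    have h2 := (DF.clm Complex.imCLM).comp (h i)
    exact (h1.mul h1).add (h2.mul h2)

end Def

variable {N n : ℕ}

/-- the orthogonal projection onto the line through `v` -/
def mu0 (v : Fin (N + 1) → ℂ) (q : Fin (N + 1) × Fin (N + 1)) : ℂ :=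
  (sq v)⁻¹ • (v q.1 * conj (v q.2))

theorem mu0_smul {a : ℂ} (ha : a ≠ 0) (v : Fin (N + 1) → ℂ) : mu0 (a • v) = mu0 v := by
  ext q
  have h1 : sq (a • v) = ‖a‖ ^ 2 * sq v := by simp [sq, mul_pow, Finset.mul_sum]
  have h2 : ((‖a‖ : ℂ) ^ 2)⁻¹ * (a * conj a) = 1 := by
    rw [Complex.mul_conj']
    exact inv_mul_cancel₀ (pow_ne_zero _ (by simpa using ha))
  simp only [mu0, h1, Pi.smul_apply, smul_eq_mul, map_mul, Complex.real_smul, mul_inv]
  push_cast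
  linear_combination (((sq v : ℝ) : ℂ)⁻¹ * (v q.1 * conj (v q.2))) * h2

theorem mu0_div (v : Fin (N + 1) → ℂ) (i j) : mu0 v (j, i) / mu0 v (i, i) = v j / v i := by
  by_cases h : v i = 0
  · simp [mu0, h]
  · have h1 : ((sq v : ℝ) : ℂ) ≠ 0 := by exact_mod_cast (sq_pos fun e => h (congrFun e i)).ne'
    have h2 : conj (v i) ≠ 0 := by simpa using h
    simp only [mu0, Complex.real_smul]
    push_cast
    field_simp

theorem mu0_ne {v : Fin (N + 1) → ℂ} {i} : mu0 v (i, i) ≠ 0 ↔ v i ≠ 0 := by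
  refine ⟨fun h e => h (by simp [mu0, e]), fun h => ?_⟩
  simpa [mu0, h] using (sq_pos fun e => h (congrFun e i)).ne'

theorem contDiffAt_mu0 {v : Fin (N + 1) → ℂ} (hv : v ≠ 0) : ContDiffAt ℝ 2 mu0 v :=
  contDiffAt_pi.2 fun q => (contDiff_sq.contDiffAt.inv (sq_pos hv).ne').smul
    ((contDiffAt_apply ℝ ℂ q.1 v).mul
      (Complex.conjCLE.contDiff.contDiffAt.comp v (contDiffAt_apply ℝ ℂ q.2 v)))

theorem rep_mk {β : Type} {f : (Fin (N + 1) → ℂ) → β} (h : ∀ (a : ℂ) v, a ≠ 0 → f (a • v) = f v)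
    (v) (hv : v ≠ 0) : f (mk ℂ v hv).rep = f v := by
  obtain ⟨a, ha⟩ := exists_smul_eq_mk_rep ℂ v hv
  rw [← ha]
  exact h a v a.ne_zero

theorem mu_mk (v : Fin (N + 1) → ℂ) (hv : v ≠ 0) : mu0 (mk ℂ v hv).rep = mu0 v :=
  rep_mk (fun _ v h => mu0_smul h v) v hv

theorem cont_mk : Continuous (mk' ℂ : _ → PN N) := continuous_coinduced_rng

theorem cont_mu : Continuous fun x : PN N => mu0 x.rep := by
  refine continuous_coinduced_dom.2 ?_
  rw [show (fun x : PN N => mu0 x.rep) ∘ mk' ℂ = fun v => mu0 v.1 from funext fun v => mu_mk v.1 v.2]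
  exact continuous_iff_continuousAt.2 fun v =>
    (contDiffAt_mu0 v.2).continuousAt.comp continuousAt_subtype_val

theorem mk_div {v : Fin (N + 1) → ℂ} (hv : v ≠ 0) {i} (hi : v i ≠ 0) {c : ℂ} (hc : c ≠ 0) :
    ∃ h, mk ℂ (fun j => c * (v j / v i)) h = mk ℂ v hv :=
  ⟨fun e => by simpa [hi, hc] using congrFun e i,
    (mk_eq_mk_iff' ℂ _ _ _ _).2 ⟨c / v i, funext fun j => by simp; ring⟩⟩

theorem mu_inj : Function.Injective fun x : PN N => mu0 x.rep := by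
  intro x y (h : mu0 _ = mu0 _)
  obtain ⟨i, hi⟩ := Function.ne_iff.1 x.rep_nonzero
  obtain ⟨_, h1⟩ := mk_div x.rep_nonzero hi one_ne_zero
  obtain ⟨_, h2⟩ := mk_div y.rep_nonzero (mu0_ne.1 (h ▸ mu0_ne.2 hi)) one_ne_zero
  rw [← x.mk_rep, ← y.mk_rep, ← h1, ← h2]
  simp only [← mu0_div, h]

theorem pn_t2 : T2Space (PN N) := .of_injective_continuous mu_inj cont_mu

theorem pn_compact : CompactSpace (PN N) := by
  refine Function.Surjective.compactSpace (f := fun v : Metric.sphere (0 : Fin (N + 1) → ℂ) 1 =>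
    mk' ℂ ⟨v.1, ne_zero_of_mem_unit_sphere v⟩) (cont_mk.comp (by fun_prop)) fun x => ?_
  exact ⟨⟨((‖x.rep‖⁻¹ : ℝ) : ℂ) • x.rep, by simp [norm_smul, x.rep_nonzero]⟩,
    ((mk_eq_mk_iff' ℂ _ _ _ x.rep_nonzero).2 ⟨_, rfl⟩).trans x.mk_rep⟩

variable {I : Finset (MvPolynomial (Fin (N + 1)) ℂ)}

theorem mem_var {v : Fin (N + 1) → ℂ} (hv : v ≠ 0) :
    mk ℂ v hv ∈ Var I ↔ ∀ a : ℂ, ∀ P ∈ I, a ≠ 0 → MvPolynomial.eval (a • v) P = 0 := by
  refine ⟨fun h a P hP ha => h _ (smul_ne_zero ha hv) ((mk_eq_mk_iff' ℂ _ _ _ _).2 ⟨a, rfl⟩) P hP,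
    fun h w hw e P hP => ?_⟩
  obtain ⟨a, rfl⟩ := (mk_eq_mk_iff' ℂ _ _ _ _).1 e
  exact h a P hP (left_ne_zero_of_smul hw)

theorem var_compact : CompactSpace (Var I) := by
  have := pn_compact (N := N)
  refine isCompact_iff_compactSpace.1 (IsClosed.isCompact (isClosed_coinduced.2 ?_))
  rw [show mk' ℂ ⁻¹' Var I = ⋂ a : ℂ, ⋂ P ∈ I, ⋂ _ : a ≠ 0,
    {v | MvPolynomial.eval (a • v.1) P = 0} from Set.ext fun v => (mem_var v.2).trans (by simp)]
  exact isClosed_iInter fun a => isClosed_biInter fun P _ => isClosed_iInter fun _ =>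
    isClosed_eq (P.continuous_eval.comp (by fun_prop)) continuous_const

variable {X : Set (PN N)} {x : X} {E : Type} [NormedAddCommGroup E] [NormedSpace ℂ E] {φ : X → E}
  {e : OpenPartialHomeomorph X (Fin n → ℂ)}

theorem HolAt.loc (h : HolAt φ x) : ContinuousAt φ x ∧ ∃ F : (Fin (N + 1) → ℂ) → E,
    (∀ v hv, mk ℂ v hv = x.1 → AnalyticAt ℂ F v) ∧
      ∀ᶠ y in 𝓝 x, ∀ v hv, mk ℂ v hv = y.1 → φ y = F v := by
  obtain ⟨F, h1, h2⟩ := h
  obtain ⟨i, hi⟩ := Function.ne_iff.1 x.1.rep_nonzero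
  replace hi : x.1.rep i ≠ 0 := hi
  let τ : (Fin (N + 1) → ℂ) → Fin (N + 1) → ℂ := fun v j => x.1.rep i * (v j / v i)
  have t1 : ∀ v hv, τ (mk ℂ v hv).rep = τ v := rep_mk fun a v ha => funext fun j =>
    congrArg (x.1.rep i * ·) (mul_div_mul_left _ _ ha)
  have t2 : τ x.1.rep = x.1.rep := funext fun j => mul_div_cancel₀ _ hi
  have c1 : ∀ q, Continuous fun y : X => mu0 y.1.rep q := fun q =>
    (continuous_apply q).comp (cont_mu.comp continuous_subtype_val)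
  have c2 : Tendsto (fun y : X => τ y.1.rep) (𝓝 x) (𝓝 x.1.rep) := by
    rw [← t2]
    simp only [τ, ← mu0_div]
    exact continuousAt_pi.2 fun j => continuousAt_const.mul
      ((c1 _).continuousAt.div (c1 _).continuousAt (mu0_ne.2 hi))
  have c3 : ∀ᶠ y in 𝓝 x, φ y = F (τ y.1.rep) := by
    filter_upwards [c2.eventually h2, (c1 (i, i)).continuousAt.eventually_ne (mu0_ne.2 hi)]
      with y h3 h4
    obtain ⟨h5, h6⟩ := mk_div y.1.rep_nonzero (mu0_ne.1 h4) hi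
    exact h3 h5 y (h6.trans y.1.mk_rep)
  refine ⟨(Tendsto.congr' (EventuallyEq.symm c3) (h1.continuousAt.tendsto.comp c2)).trans_eq
    (by rw [c3.self_of_nhds, t2]), F ∘ τ, fun v hv e => h1.comp_of_eq (AnalyticAt.pi fun j =>
      analyticAt_const.mul (AnalyticAt.div (analyticAt_pi_iff.1 analyticAt_id j)
        (analyticAt_pi_iff.1 analyticAt_id i) ?_)) ?_,
    c3.mono fun y h v hv e => by rw [h, ← e, t1]; rfl⟩
  · exact mu0_ne.1 (mu_mk v hv ▸ e.symm ▸ mu0_ne.2 hi)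
  · rw [← t1 v hv, e, t2]

theorem IsChart.lift (he : IsChart e) (hx : x ∈ e.source) : ∃ s : (Fin n → ℂ) → Fin (N + 1) → ℂ,
    AnalyticAt ℂ s (e x) ∧ (∃ h, mk ℂ (s (e x)) h = x.1) ∧
      ∀ᶠ u in 𝓝 (e x), ∃ h, mk ℂ (s u) h = (e.symm u).1 :=
  let ⟨s, h1, h2⟩ := he.2 _ (e.map_source hx)
  ⟨s, h1, by simpa only [e.left_inv hx] using h2.self_of_nhds, h2⟩

theorem HolAt.an (h : HolAt φ x) (he : IsChart e) (hx : x ∈ e.source) :
    AnalyticAt ℂ (φ ∘ e.symm) (e x) := by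
  obtain ⟨-, F, h1, h2⟩ := h.loc
  obtain ⟨s, h3, ⟨h4, h5⟩, h6⟩ := he.lift hx
  refine ((h1 _ h4 h5).comp h3).congr ?_
  filter_upwards [h6, symm_eventually e hx h2] with u ⟨a1, a2⟩ a3
  exact (a3 _ a1 a2).symm

theorem ev_cone {P : X → Prop} (h : ∀ᶠ y in 𝓝 x, P y) :
    ∀ᶠ w in 𝓝 x.1.rep, ∀ hw (y : X), mk ℂ w hw = y.1 → P y := by
  rw [nhds_subtype_eq_comap, eventually_comap, ← x.1.mk_rep] at h
  have := (cont_mk.tendsto ⟨_, x.1.rep_nonzero⟩).eventually h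
  rw [nhds_subtype_eq_comap, eventually_comap] at this
  exact this.mono fun w h hw y e => h ⟨w, hw⟩ rfl y e.symm

theorem exists_rug (hS : (Sing (Var I) n).Finite) :
    ∃ ρ ε, Rug (IsChart (n := n)) (Sing (Var I) n) ρ ε := by
  let r : (Fin (N + 1) → ℂ) → ℝ := fun v => ∏ s ∈ hS.toFinset, sq (mu0 v - mu0 s.1.rep)
  have r1 : DF SA r := DF.prod _ fun s _ => df_sq fun q => DF.sub (DF.smul (df_sq df_app).inv
    (df_mul (df_app _) ((DF.clm Complex.conjCLE.toContinuousLinearMap).comp (df_app _))))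
    (DF.const _)
  have r2 : DP SA fun v => v ∈ {v : Fin (N + 1) → ℂ | v ≠ 0 ∧
      ∀ a : ℂ, ∀ P ∈ I, a ≠ 0 → MvPolynomial.eval (a • v) P = 0} :=
    DP.and (by fun_prop) (DP.all (DP.finset_and I.finite_toSet fun P _ => DP.imp (by fun_prop)
      (DP.eq ((df_eval P).comp (((DF.clm (ContinuousLinearMap.lsmul ℝ ℂ)).comp
        (DF.snd DF.id')).clm_apply (DF.fst DF.id'))) (DF.const _))))
  obtain ⟨ε, hε, h1⟩ := mem_nhdsGT_iff_exists_Ioo_subset.1 (((nhdsGT_le_nhdsNE 0).trans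
    (nhdsNE_le_cofinite 0)) (crit_finite r2 r1).compl_mem_cofinite)
  have r3 : ∀ v hv, r (mk ℂ v hv).rep = r v := fun v hv => by simp only [r, mu_mk]
  have c2 : ∀ y : Var I, C2 (IsChart (n := n)) (fun y => r y.1.rep) y := fun y e he hy => by
    obtain ⟨s, h3, ⟨h4, -⟩, h6⟩ := he.lift hy
    refine (ContDiffAt.comp _ (contDiffAt_prod fun s _ => contDiff_sq.contDiffAt.comp _
      ((contDiffAt_mu0 h4).sub contDiffAt_const)) (h3.contDiffAt.restrict_scalars ℝ)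
        : ContDiffAt ℝ 2 (r ∘ s) _).congr_of_eventuallyEq (h6.mono fun u ⟨a1, a2⟩ => ?_)
    exact (congrArg (fun z : PN N => r z.rep) a2).symm.trans (r3 _ a1)
  refine ⟨fun y => r y.1.rep, ε, hS, fun e he y hy e' he' hy' =>
    ((he.1 y hy).an he' hy').contDiffAt.restrict_scalars ℝ, fun y hy => not_not.1 hy,
    continuous_finsetProd _ fun s _ => contDiff_sq.continuous.comp
      ((cont_mu.comp continuous_subtype_val).sub continuous_const), c2,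
    fun y => Finset.prod_nonneg fun _ _ => sq_nonneg' _, fun y => ?_, hε,
    fun e he y hy a1 a2 a3 => h1 ⟨a1, a2⟩ ⟨_, ⟨y.1.rep_nonzero, (mem_var _).1 (y.1.mk_rep.symm ▸ y.2)⟩,
      rfl, ?_⟩⟩
  · simp only [r, Finset.prod_eq_zero_iff, Finite.mem_toFinset]
    refine ⟨fun ⟨s, hs, h⟩ => ?_, fun h => ⟨y, h, by simp [sq]⟩⟩
    rwa [Subtype.ext (mu_inj (sub_eq_zero.1 (by_contra fun h' => (sq_pos h').ne' h)))]
  · obtain ⟨F, h2, h3⟩ := he.1 y hy
    have h4 := h3.self_of_nhds _ y y.1.mk_rep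
    have h5 := ((c2 y e he hy).differentiableAt two_ne_zero).hasFDerivAt
    rw [a3, h4] at h5
    refine ⟨_, by simpa using h5.comp _ (h2.differentiableAt.restrictScalars ℝ).hasFDerivAt, ?_⟩
    filter_upwards [h3, ev_cone (e.open_source.mem_nhds hy)] with w h6 h7 hw
    have h8 := (mem_var hw.1).2 hw.2
    rw [Function.comp_apply, ← h6 hw.1 ⟨_, h8⟩ rfl, Function.comp_apply,
      e.left_inv (h7 hw.1 ⟨_, h8⟩ rfl), r3]

variable {Y G : Type} [TopologicalSpace Y] [Group G] {p : Y → X}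

theorem Hol.op {f g : Y → ℂ} (hf : Hol p f) (hg : Hol p g) {m : ℂ × ℂ → ℂ}
    (hm : ∀ z, AnalyticAt ℂ m z) : Hol p fun y => m (f y, g y) := fun y => by
  obtain ⟨φ, ⟨F, a1, a2⟩, a3⟩ := hf y
  obtain ⟨ψ, ⟨F', b1, b2⟩, b3⟩ := hg y
  exact ⟨fun x => m (φ x, ψ x), ⟨fun w => m (F w, F' w), (hm _).comp (a1.prod b1),
    (a2.and b2).mono fun w h hw x e => congrArg m (Prod.ext (h.1 hw x e) (h.2 hw x e))⟩,
    (a3.and b3).mono fun z h => congrArg m (Prod.ext h.1 h.2)⟩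

/-- the algebra of holomorphic functions -/
def holAlg (p : Y → X) : Subalgebra ℂ (Y → ℂ) where
  carrier := {f | Hol p f}
  mul_mem' hf hg := Hol.op hf hg (m := fun z => z.1 * z.2) fun _ => analyticAt_mul _
  add_mem' hf hg := Hol.op hf hg (m := fun z => z.1 + z.2) fun _ => analyticAt_fst.add analyticAt_snd
  algebraMap_mem' c _ := ⟨fun _ => c, ⟨fun _ => c, analyticAt_const, .of_forall fun _ _ _ _ => rfl⟩,
    .of_forall fun _ => rfl⟩

theorem hols [T2Space X] (hp : IsCoveringMap p) (hS : (Sing X n).Finite) (hY : Stein p) :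
    Hols (fun e' : OpenPartialHomeomorph Y (Fin n → ℂ) => ∃ e, IsChart e ∧
      ∀ y ∈ e'.source, p y ∈ e.source ∧ e' y = e (p y)) (holAlg p) (p ⁻¹' Sing X n) := by
  have key : ∀ {E : Type} [NormedAddCommGroup E] [NormedSpace ℂ E] {f : Y → E} {φ : X → E} {y},
      HolAt φ (p y) → (∀ᶠ z in 𝓝 y, f z = φ (p z)) → ∀ e' : OpenPartialHomeomorph Y (Fin n → ℂ),
      (∃ e, IsChart e ∧ ∀ y ∈ e'.source, p y ∈ e.source ∧ e' y = e (p y)) → y ∈ e'.source →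
      AnalyticAt ℂ (f ∘ e'.symm) (e' y) := by
    rintro E _ _ f φ y h1 h2 e' ⟨e, he, h3⟩ hy
    refine ((h3 y hy).2.symm ▸ h1.an he (h3 y hy).1 : AnalyticAt ℂ _ (e' y)).congr ?_
    filter_upwards [symm_eventually e' hy h2, e'.open_target.mem_nhds (e'.map_source hy)]
      with u a1 a2
    have a3 := h3 _ (e'.map_target a2)
    rw [e'.right_inv a2] at a3
    rw [Function.comp_apply, Function.comp_apply, a1, ← e.left_inv a3.1, ← a3.2]
  refine ⟨fun f hf => continuous_iff_continuousAt.2 fun y => ?_, fun f hf e he y hy =>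
    let ⟨_, h1, h2⟩ := hf y; key h1 h2 e he hy, fun e' ⟨e, he, h⟩ y hy e'' he'' hy' =>
      key (he.1 _ (h y hy).1) (mem_of_superset (e'.open_source.mem_nhds hy) fun z hz => (h z hz).2)
        e'' he'' hy', hY.2, hY.1, fun y hy => ?_, fun K hK => ?_, hS.isClosed.preimage hp.continuous⟩
  · obtain ⟨φ, h1, h2⟩ := hf y
    exact (h1.loc.1.comp hp.continuous.continuousAt).congr (EventuallyEq.symm h2)
  · obtain ⟨e, he, h1⟩ := not_not.1 hy
    obtain ⟨q, h2, rfl⟩ := hp.isLocalHomeomorph y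
    exact ⟨q.trans e, ⟨e, he, fun z hz => ⟨hz.2, rfl⟩⟩, h2, h1⟩
  · refine hK.induction_on (p := fun T => (p ⁻¹' Sing X n ∩ T).Finite) (by simp)
      (fun _ _ hst h => h.subset (inter_subset_inter_right _ hst))
      (fun _ _ h h' => inter_union_distrib_left _ _ _ ▸ h.union h') fun y _ => ?_
    obtain ⟨U, h1, h2, h3⟩ := hp.isLocalHomeomorph.isLocallyInjective y
    exact ⟨U, mem_nhdsWithin_of_mem_nhds (h1.mem_nhds h2),
      .of_injOn (f := p) (fun z hz => hz.1) (h3.mono inter_subset_right) hS⟩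

theorem Amenable.folner [DecidableEq G] (h : Amenable G) (T : Finset G) (ε : ℝ) (hε : 0 < ε) :
    ∃ E : Finset G, E.Nonempty ∧ (((E * T) \ E).card : ℝ) ≤ ε * E.card := by
  obtain ⟨E, h1, h2⟩ := h T⁻¹ (ε / (T.card + 1)) (by positivity)
  refine ⟨E⁻¹, h1.inv, ?_⟩
  have h3 : (E⁻¹ * T) \ E⁻¹ ⊆ (T⁻¹.biUnion fun t => (t • E) \ E)⁻¹ := by
    intro g hg
    obtain ⟨a, ha, t, ht, rfl⟩ := Finset.mem_mul.1 (Finset.mem_sdiff.1 hg).1
    refine Finset.mem_inv'.2 (Finset.mem_biUnion.2 ⟨t⁻¹, Finset.inv_mem_inv ht, Finset.mem_sdiff.2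
      ⟨?_, fun h => (Finset.mem_sdiff.1 hg).2 (Finset.mem_inv'.2 h)⟩⟩)
    rw [mul_inv_rev]
    exact Finset.smul_mem_smul_finset (Finset.mem_inv'.1 ha)
  have h4 := (Finset.card_le_card h3).trans ((Finset.card_inv _).trans_le Finset.card_biUnion_le)
  have h5 : ∑ t ∈ T⁻¹, (((t • E) \ E).card : ℝ) ≤ T⁻¹.card • (ε / (T.card + 1) * E.card) :=
    Finset.sum_le_card_nsmul _ _ _ fun t ht => le_trans (by
      rw [← ncard_coe_finset, Nat.cast_le, Finset.coe_sdiff, Finset.coe_smul_finset]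
      exact ncard_le_ncard le_sup_left (E.finite_toSet.smul_set.symmDiff E.finite_toSet)) (h2 t ht)
  rw [Finset.card_inv, nsmul_eq_mul, ← mul_assoc] at h5
  rw [Finset.card_inv]
  refine (Nat.cast_le.2 h4).trans ((Nat.cast_sum _ _).trans_le (h5.trans ?_))
  gcongr
  rw [mul_div_assoc', div_le_iff₀ (by positivity)]
  nlinarith

end Pool.Agent.Lib.MP_356dfe_ag
end
end
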